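import Pool.Agent.FrechetQ.BlockB

/-!
A smooth convex function comparable with the square of the seminorm given by a separable
annihilator.
-/

namespace Pool.Agent.FrechetQ

open Filter Topology Set TopologicalSpace

variable {E : Type*} [NormedAddCommGroup E] [NormedSpace ℝ E]

theorem strong_max (V : Submodule ℝ (StrongDual ℝ E)) (fs : ℕ → StrongDual ℝ E)
    (hfsV : ∀ k, fs k ∈ V)
    (hfs : ∀ f ∈ V, ∀ ε > 0, ∃ k, ‖f - fs k‖ < ε) (xs : ℕ → E) (hxs : ∀ k, ‖xs k‖ ≤ 1)
    (hxn : ∀ k, 3 / 4 * ‖fs k‖ ≤ |fs k (xs k)|) (Z : ℕ → Submodule ℝ E)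
    (hZ : ∀ k, Z k = ⨅ i : Fin k, LinearMap.ker (fs i : E →ₗ[ℝ] ℝ))
    (x : E) (f : StrongDual ℝ E) (hfV : f ∈ V)
    (hmax : ∀ g ∈ V, 2 * g x - MM Z xs g ≤ 2 * f x - MM Z xs f) (ε : ℝ) (hε : 0 < ε) :
    ∃ δ : ℝ, 0 < δ ∧ ∀ g ∈ V, 2 * f x - MM Z xs f - δ ≤ 2 * g x - MM Z xs g → ‖g - f‖ ≤ ε := by
  set e : ℝ := ε / 20 with he
  have hepos : 0 < e := by positivity
  obtain ⟨i, hi⟩ := hfs f hfV e hepos
  set k := i + 1 with hk
  have hrk : rr (Z k) f ≤ e := by
    refine rr_le_of _ _ _ hepos.le fun y hy => ?_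
    have hy0 : fs i y = 0 := by
      rw [hZ, Submodule.mem_iInf] at hy
      exact hy ⟨i, by omega⟩
    have h1 : f y = (f - fs i) y := by rw [sub_apply, hy0, sub_zero]
    rw [h1]
    have h2 := (f - fs i).le_opNorm y
    rw [Real.norm_eq_abs] at h2
    exact h2.trans (mul_le_mul_of_nonneg_right hi.le (norm_nonneg _))
  set F : Submodule ℝ (StrongDual ℝ E) := Submodule.span ℝ (range fun i : Fin k => fs i) with hF
  have hFfin : FiniteDimensional ℝ F := FiniteDimensional.span_of_finite ℝ (finite_range _)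
  have hFV : F ≤ V := Submodule.span_le.2 (by rintro _ ⟨i, rfl⟩; exact hfsV i)
  obtain ⟨m, hm⟩ := finite_norming F xs (by
    intro g hg hg0
    have hgp : 0 < ‖g‖ := norm_pos_iff.2 hg0
    obtain ⟨j, hj⟩ := hfs g (hFV hg) (‖g‖ / 8) (by positivity)
    refine ⟨j, ?_⟩
    have h1 := hxn j
    have h2 : ‖g‖ - ‖g‖ / 8 ≤ ‖fs j‖ := by
      have := norm_sub_norm_le g (fs j)
      linarith
    have h3 : |(g - fs j) (xs j)| ≤ ‖g‖ / 8 := by
      have h4 := (g - fs j).le_opNorm (xs j)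
      rw [Real.norm_eq_abs] at h4
      calc |(g - fs j) (xs j)| ≤ ‖g - fs j‖ * ‖xs j‖ := h4
        _ ≤ ‖g - fs j‖ * 1 := mul_le_mul_of_nonneg_left (hxs j) (norm_nonneg _)
        _ ≤ ‖g‖ / 8 := by linarith
    have h5 : |fs j (xs j)| ≤ |g (xs j)| + |(g - fs j) (xs j)| := by
      have h6 : fs j (xs j) = g (xs j) - (g - fs j) (xs j) := by rw [sub_apply]; ring
      calc |fs j (xs j)| = |g (xs j) - (g - fs j) (xs j)| := by rw [← h6]
        _ ≤ _ := abs_sub _ _
    linarith)
  set w : ℕ → ℝ := fun j => (1 / 2 : ℝ) ^ (j + 1) with hw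
  have hwpos : ∀ j, 0 < w j := fun j => by simp only [hw]; positivity
  have hwle : ∀ j, j ≤ k + m → w (k + m) ≤ w j := by
    intro j hj
    simp only [hw]
    exact pow_le_pow_of_le_one (by norm_num) (by norm_num) (by omega)
  refine ⟨w (k + m) * e ^ 2 / 2, by have := hwpos (k + m); positivity, fun g hg hgv => ?_⟩
  have hdef : 2 * MM Z xs g + 2 * MM Z xs f - MM Z xs (g + f) ≤ w (k + m) * e ^ 2 := by
    have h1 := hmax ((1 / 2 : ℝ) • (g + f)) (V.smul_mem _ (V.add_mem hg hfV))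
    rw [MM_smul, smul_apply, add_apply, smul_eq_mul] at h1
    nlinarith
  have hcomp : ∀ j, j ≤ k + m →
      |rr (Z j) g - rr (Z j) f| ≤ e ∧ |g (xs j) - f (xs j)| ≤ e := by
    intro j hj
    have h1 := MM_deficit Z xs hxs g f j
    have h2 : w j * ((rr (Z j) g - rr (Z j) f) ^ 2 + (g (xs j) - f (xs j)) ^ 2) ≤ w j * e ^ 2 :=
      (h1.trans hdef).trans (mul_le_mul_of_nonneg_right (hwle j hj) (by positivity))
    have h3 := le_of_mul_le_mul_left h2 (hwpos j)
    constructor
    · apply abs_le_of_sq_le_sq _ hepos.le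
      nlinarith [sq_nonneg (g (xs j) - f (xs j))]
    · apply abs_le_of_sq_le_sq _ hepos.le
      nlinarith [sq_nonneg (rr (Z j) g - rr (Z j) f)]
  have hrg : rr (Z k) g ≤ 2 * e := by
    have := (abs_le.1 (hcomp k (by omega)).1).2
    linarith
  obtain ⟨g1, hg1, hg1n⟩ := near_span k fs g (2 * e) (by positivity) (by
    intro y hy
    rw [← hZ] at hy
    exact (rr_apply _ _ _ hy).trans (mul_le_mul_of_nonneg_right hrg (norm_nonneg _)))
  obtain ⟨g2, hg2, hg2n⟩ := near_span k fs f e hepos.le (by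
    intro y hy
    rw [← hZ] at hy
    exact (rr_apply _ _ _ hy).trans (mul_le_mul_of_nonneg_right hrk (norm_nonneg _)))
  obtain ⟨j, hjm, hj⟩ := hm (g1 - g2) (F.sub_mem hg1 hg2)
  have hap : ∀ (h : StrongDual ℝ E) (c : ℝ), ‖h‖ ≤ c → |h (xs j)| ≤ c := by
    intro h c hc
    have h1 := h.le_opNorm (xs j)
    rw [Real.norm_eq_abs] at h1
    calc |h (xs j)| ≤ ‖h‖ * ‖xs j‖ := h1
      _ ≤ ‖h‖ * 1 := mul_le_mul_of_nonneg_left (hxs j) (norm_nonneg _)
      _ ≤ c := by linarith
  have h1 := hap _ _ hg1n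
  have h2 := hap _ _ hg2n
  have h3 := (hcomp j (by omega)).2
  have h4 : |(g1 - g2) (xs j)| ≤ 4 * e := by
    have h5 : (g1 - g2) (xs j) = (g (xs j) - f (xs j)) - (g - g1) (xs j) + (f - g2) (xs j) := by
      simp only [sub_apply]; ring
    rw [h5]
    calc |(g (xs j) - f (xs j)) - (g - g1) (xs j) + (f - g2) (xs j)|
        ≤ |(g (xs j) - f (xs j)) - (g - g1) (xs j)| + |(f - g2) (xs j)| := abs_add_le _ _
      _ ≤ |g (xs j) - f (xs j)| + |(g - g1) (xs j)| + |(f - g2) (xs j)| := by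
          have := abs_sub (g (xs j) - f (xs j)) ((g - g1) (xs j))
          linarith
      _ ≤ 4 * e := by linarith
  have h6 : g - f = (g - g1) + (g1 - g2) - (f - g2) := by abel
  rw [h6]
  calc ‖(g - g1) + (g1 - g2) - (f - g2)‖ ≤ ‖(g - g1) + (g1 - g2)‖ + ‖f - g2‖ := norm_sub_le _ _
    _ ≤ ‖g - g1‖ + ‖g1 - g2‖ + ‖f - g2‖ := by
        have := norm_add_le (g - g1) (g1 - g2)
        linarith
    _ ≤ ε := by rw [he] at *; linarith

/-- The smooth convex function attached to a separable annihilator. -/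
theorem block (V : Submodule ℝ (StrongDual ℝ E)) (W : Set E)
    (hV : ∀ f, f ∈ V ↔ ∀ w ∈ W, f w = 0)
    (hsep : IsSeparable (V : Set (StrongDual ℝ E))) :
    ∃ Q : E → ℝ, ConvexOn ℝ univ Q ∧ (∀ x, Q (-x) = Q x) ∧ (∀ x, 0 ≤ Q x) ∧
      (∀ x, DifferentiableAt ℝ Q x) ∧
      (∀ x, ∀ f ∈ V, ‖f‖ ≤ 1 → (f x) ^ 2 ≤ 3 * Q x) ∧
      (∀ x r, 0 ≤ r → (∀ f ∈ V, ‖f‖ ≤ 1 → f x ≤ r) → Q x ≤ r ^ 2) := by
  obtain ⟨fs, hfsV, hfs⟩ := exists_dense_seq_in V hsep
  choose xs hxs hxn using fun k => exists_norming_pt (fs k)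
  set Z : ℕ → Submodule ℝ E := fun k => ⨅ i : Fin k, LinearMap.ker (fs i : E →ₗ[ℝ] ℝ) with hZ
  choose m hmV hm using fun x => exists_max Z xs hxs V W hV x
  set Q : E → ℝ := fun x => 2 * m x x - MM Z xs (m x) with hQ
  have hle : ∀ x, ∀ g ∈ V, 2 * g x - MM Z xs g ≤ Q x := hm
  have hQ0 : ∀ x, 0 ≤ Q x := by
    intro x
    have := hle x 0 V.zero_mem
    rw [MM_zero] at this
    simpa using this
  have hQneg1 : ∀ x, Q (-x) ≤ Q x := by
    intro x
    have := hle x (-(m (-x))) (V.neg_mem (hmV _))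
    rw [MM_neg, neg_apply] at this
    simp only [hQ] at this ⊢
    rw [map_neg]
    exact this
  refine ⟨Q, ⟨convex_univ, fun x _ y _ a b ha hb hab => ?_⟩, fun x => ?_, hQ0, fun x => ?_,
    fun x f hf hf1 => ?_, fun x r hr h => ?_⟩
  · have h1 := hle x (m (a • x + b • y)) (hmV _)
    have h2 := hle y (m (a • x + b • y)) (hmV _)
    have h3 : Q (a • x + b • y) = a * (2 * m (a • x + b • y) x - MM Z xs (m (a • x + b • y))) +
        b * (2 * m (a • x + b • y) y - MM Z xs (m (a • x + b • y))) := by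
      simp only [hQ]
      have h4 : (m (a • x + b • y)) (a • x + b • y) =
          a * (m (a • x + b • y)) x + b * (m (a • x + b • y)) y := by
        rw [map_add, map_smul, map_smul, smul_eq_mul, smul_eq_mul]
      rw [h4]
      have h5 : b = 1 - a := by linarith
      rw [h5]
      ring
    rw [h3, smul_eq_mul, smul_eq_mul]
    exact add_le_add (mul_le_mul_of_nonneg_left h1 ha) (mul_le_mul_of_nonneg_left h2 hb)
  · refine le_antisymm (hQneg1 x) ?_
    have := hQneg1 (-x)
    rwa [neg_neg] at this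
  · have hd : HasFDerivAt Q ((2 : ℝ) • m x) x := by
      rw [hasFDerivAt_iff_isLittleO_nhds_zero, Asymptotics.isLittleO_iff]
      intro c hc
      obtain ⟨δ, hδ, hδ2⟩ := strong_max V fs hfsV hfs xs hxs hxn Z (fun k => rfl) x (m x) (hmV x)
        (hm x) (c / 2) (by positivity)
      set R : ℝ := 2 * (‖m x‖ + 2 * (‖x‖ + 1) + 1) with hR
      have hRpos : 0 < R := by positivity
      have e1 : ∀ᶠ v in 𝓝 (0 : E), ‖v‖ < 1 ∧ ‖v‖ < δ / R := by
        have h1 : ∀ᶠ v in 𝓝 (0 : E), ‖v‖ < 1 := by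
          have := Metric.ball_mem_nhds (0 : E) one_pos
          filter_upwards [this] with v hv
          simpa using hv
        have h2 : ∀ᶠ v in 𝓝 (0 : E), ‖v‖ < δ / R := by
          have := Metric.ball_mem_nhds (0 : E) (show 0 < δ / R by positivity)
          filter_upwards [this] with v hv
          simpa using hv
        exact h1.and h2
      filter_upwards [e1] with v hv
      have hlow : Q x + 2 * m x v ≤ Q (x + v) := by
        have := hle (x + v) (m x) (hmV x)
        rw [map_add] at this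
        simp only [hQ] at this ⊢
        linarith
      have hg : ‖m (x + v) - m x‖ ≤ c / 2 := by
        refine hδ2 _ (hmV _) ?_
        have h1 : Q (x + v) = 2 * m (x + v) x - MM Z xs (m (x + v)) + 2 * m (x + v) v := by
          simp only [hQ]
          rw [map_add]; ring
        have h2 : |m (x + v) v| ≤ ‖m (x + v)‖ * ‖v‖ := (m (x + v)).le_opNorm v
        have h3 : |m x v| ≤ ‖m x‖ * ‖v‖ := (m x).le_opNorm v
        have h4 : ‖m (x + v)‖ ≤ 2 * (‖x‖ + 1) + 1 := by
          have h5 := norm_le_of_value Z xs (x + v) (m (x + v)) (by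
            have := hQ0 (x + v)
            simp only [hQ] at this
            linarith)
          have h6 := norm_add_le x v
          linarith [hv.1]
        have h7 : ‖v‖ * R < δ := by
          have := hv.2
          rwa [lt_div_iff₀ hRpos] at this
        have h8 := (abs_le.1 h2).2
        have h9 := (abs_le.1 h3).1
        have h10 : ‖m (x + v)‖ * ‖v‖ ≤ (2 * (‖x‖ + 1) + 1) * ‖v‖ :=
          mul_le_mul_of_nonneg_right h4 (norm_nonneg _)
        have h11 : Q x - δ ≤ 2 * m (x + v) x - MM Z xs (m (x + v)) := by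
          rw [hR] at h7
          nlinarith
        exact h11
      have hup : Q (x + v) ≤ Q x + 2 * m x v + c * ‖v‖ := by
        have h1 := hle x (m (x + v)) (hmV _)
        have h2 : Q (x + v) = 2 * m (x + v) x - MM Z xs (m (x + v)) + 2 * m (x + v) v := by
          simp only [hQ]
          rw [map_add]; ring
        have h3 : |(m (x + v) - m x) v| ≤ c / 2 * ‖v‖ :=
          ((m (x + v) - m x).le_opNorm v).trans
            (mul_le_mul_of_nonneg_right hg (norm_nonneg _))
        have h4 := (abs_le.1 h3).2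
        rw [sub_apply] at h4
        linarith
      rw [smul_apply, smul_eq_mul, Real.norm_eq_abs, abs_le]
      constructor <;> nlinarith [norm_nonneg v]
    exact hd.differentiableAt
  · have h1 := hle x ((f x / 3) • f) (V.smul_mem _ hf)
    rw [MM_smul, smul_apply, smul_eq_mul] at h1
    have h2 := MM_le Z xs hxs f
    have h3 : ‖f‖ ^ 2 ≤ 1 := by
      have := pow_le_pow_left₀ (norm_nonneg f) hf1 2
      simpa using this
    have h4 : (f x / 3) ^ 2 * MM Z xs f ≤ (f x / 3) ^ 2 * 3 :=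
      mul_le_mul_of_nonneg_left (by linarith) (by positivity)
    nlinarith
  · have h1 : m x x ≤ ‖m x‖ * r := by
      by_cases h0 : m x = 0
      · simp [h0]
      · have hp : 0 < ‖m x‖ := norm_pos_iff.2 h0
        have h2 := h (‖m x‖⁻¹ • m x) (V.smul_mem _ (hmV x)) (by
          rw [norm_smul, norm_inv, norm_norm, inv_mul_cancel₀ hp.ne'])
        rw [smul_apply, smul_eq_mul, inv_mul_le_iff₀ hp] at h2
        exact h2
    have h2 := le_MM Z xs (m x)
    have h3 : Q x = 2 * m x x - MM Z xs (m x) := rfl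
    nlinarith [sq_nonneg (‖m x‖ - r)]

end Pool.Agent.FrechetQ
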