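import Pool.Agent.FrechetQ.Gauge
import Pool.Agent.FrechetQ.Block

/-!
Assembling a smooth seminorm on a quotient from separable pieces and a chain of functionals.
-/

namespace Pool.Agent.FrechetQ

open Filter Topology Set TopologicalSpace

variable {E : Type*} [NormedAddCommGroup E] [NormedSpace ℝ E]

theorem finsum_convex {J : Type*} {U : Set E} (φ : J → E → ℝ) (hUc : Convex ℝ U)
    (hφ : ∀ j, ConvexOn ℝ U (φ j)) (hfin : ∀ x ∈ U, (Function.support fun j => φ j x).Finite) :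
    ConvexOn ℝ U (fun x => ∑ᶠ j, φ j x) := by
  classical
  refine ⟨hUc, fun x hx y hy a b ha hb hab => ?_⟩
  have hz : a • x + b • y ∈ U := hUc hx hy ha hb hab
  set F : Finset J := (hfin x hx).toFinset ∪ (hfin y hy).toFinset ∪ (hfin _ hz).toFinset with hF
  have e1 : ∑ᶠ j, φ j x = ∑ j ∈ F, φ j x := finsum_eq_sum_of_support_subset _ (by
    intro j hj
    simp only [hF, Finset.coe_union, Finite.coe_toFinset]
    exact Or.inl (Or.inl hj))
  have e2 : ∑ᶠ j, φ j y = ∑ j ∈ F, φ j y := finsum_eq_sum_of_support_subset _ (by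
    intro j hj
    simp only [hF, Finset.coe_union, Finite.coe_toFinset]
    exact Or.inl (Or.inr hj))
  have e3 : ∑ᶠ j, φ j (a • x + b • y) = ∑ j ∈ F, φ j (a • x + b • y) :=
    finsum_eq_sum_of_support_subset _ (by
    intro j hj
    simp only [hF, Finset.coe_union, Finite.coe_toFinset]
    exact Or.inr hj)
  simp only
  rw [e1, e2, e3, smul_eq_mul, smul_eq_mul, Finset.mul_sum, Finset.mul_sum,
    ← Finset.sum_add_distrib]
  refine Finset.sum_le_sum fun j _ => ?_
  have := (hφ j).2 hx hy ha hb hab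
  simpa using this

theorem finsum_diff {J : Type*} (φ : J → E → ℝ) (x : E) (hd : ∀ j, DifferentiableAt ℝ (φ j) x)
    (F : Set J) (hF : F.Finite) (hloc : ∀ᶠ z in 𝓝 x, ∀ j ∉ F, φ j z = 0) :
    DifferentiableAt ℝ (fun z => ∑ᶠ j, φ j z) x := by
  have h1 : (fun z => ∑ᶠ j, φ j z) =ᶠ[𝓝 x] fun z => ∑ j ∈ hF.toFinset, φ j z := by
    filter_upwards [hloc] with z hz
    refine finsum_eq_sum_of_support_subset _ ?_
    intro j hj
    rw [Finite.coe_toFinset]
    by_contra hjF
    exact hj (hz j hjF)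
  refine DifferentiableAt.congr_of_eventuallyEq ?_ h1
  exact DifferentiableAt.fun_sum fun j _ => hd j

/-- The cut-off function. -/
noncomputable def hh (s : ℝ) : ℝ := (max (s - 1) 0) ^ 2

theorem hh_nonneg (s : ℝ) : 0 ≤ hh s := by unfold hh; positivity

theorem hh_zero {s : ℝ} (hs : s ≤ 1) : hh s = 0 := by
  unfold hh
  rw [max_eq_right (by linarith)]
  norm_num

theorem hh_le_one {s : ℝ} (hs : hh s ≤ 1) : s ≤ 2 := by
  by_contra h
  push Not at h
  unfold hh at hs
  rw [max_eq_left (by linarith)] at hs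
  nlinarith

theorem hh_diff (s : ℝ) : DifferentiableAt ℝ hh s := by
  rcases lt_trichotomy s 1 with h | h | h
  · have h1 : hh =ᶠ[𝓝 s] fun _ => (0 : ℝ) := by
      filter_upwards [gt_mem_nhds h] with t ht
      exact hh_zero ht.le
    exact (differentiableAt_const (0 : ℝ)).congr_of_eventuallyEq h1
  · subst h
    have h1 : HasDerivAt hh 0 1 := by
      rw [hasDerivAt_iff_isLittleO_nhds_zero, Asymptotics.isLittleO_iff]
      intro c hc
      filter_upwards [Metric.ball_mem_nhds (0 : ℝ) hc] with t ht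
      have ht1 : |t| < c := by simpa using ht
      have h2 : hh 1 = 0 := hh_zero le_rfl
      rw [h2, smul_zero, sub_zero, sub_zero, Real.norm_eq_abs, Real.norm_eq_abs,
        abs_of_nonneg (hh_nonneg _)]
      unfold hh
      have h3 : max (1 + t - 1) 0 ≤ |t| := by
        rw [add_sub_cancel_left]
        exact max_le (le_abs_self t) (abs_nonneg t)
      have h4 : (0 : ℝ) ≤ max (1 + t - 1) 0 := le_max_right _ _
      nlinarith [abs_nonneg t]
    exact h1.differentiableAt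
  · have h1 : hh =ᶠ[𝓝 s] fun t => (t - 1) ^ 2 := by
      filter_upwards [lt_mem_nhds h] with t ht
      unfold hh
      rw [max_eq_left (by linarith)]
    exact ((differentiableAt_id.sub_const 1).pow 2).congr_of_eventuallyEq h1

theorem hh_comp_convex {U : Set E} {g : E → ℝ} (hg : ConvexOn ℝ U g) :
    ConvexOn ℝ U (fun x => hh (g x)) := by
  have h1 : ConvexOn ℝ U (fun x => g x - 1) := by
    have := hg.add (convexOn_const (-1 : ℝ) hg.1)
    refine this.congr fun x _ => ?_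
    simp only [Pi.add_apply]
    ring
  have h2 : ConvexOn ℝ U ((fun x => g x - 1) ⊔ fun _ => (0 : ℝ)) :=
    h1.sup (convexOn_const (0 : ℝ) hg.1)
  have h3 := h2.pow (fun x _ => le_max_right _ _) 2
  refine h3.congr fun x _ => ?_
  simp [hh]

theorem ratio_convex {U : Set E} (hU : Convex ℝ U) (f g : StrongDual ℝ E)
    (hf : ∀ x ∈ U, |f x| < 1) :
    ConvexOn ℝ U (fun x => (f x - g x) ^ 2 / (1 - (f x) ^ 2)) := by
  refine ⟨hU, fun x hx y hy a b ha hb hab => ?_⟩
  have hz := hU hx hy ha hb hab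
  have key : ∀ z ∈ U, 0 < 1 - (f z) ^ 2 := by
    intro z hz
    have h1 := abs_lt.1 (hf z hz)
    nlinarith [h1.1, h1.2]
  have hx1 := key x hx
  have hy1 := key y hy
  have hz1 := key _ hz
  simp only [smul_eq_mul, map_add, map_smul] at hz1 ⊢
  rw [div_le_iff₀ hz1]
  set X := f x
  set Y := f y
  set P := g x
  set R := g y
  have hs1 : a * (1 - X ^ 2) + b * (1 - Y ^ 2) ≤ 1 - (a * X + b * Y) ^ 2 := by
    have hb' : b = 1 - a := by linarith
    subst hb'
    nlinarith [mul_nonneg (mul_nonneg ha hb) (sq_nonneg (X - Y))]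
  have ht : 0 ≤ a * ((X - P) ^ 2 / (1 - X ^ 2)) + b * ((Y - R) ^ 2 / (1 - Y ^ 2)) := by positivity
  refine le_trans ?_ (mul_le_mul_of_nonneg_left hs1 ht)
  have e1 : (X - P) ^ 2 = (X - P) ^ 2 / (1 - X ^ 2) * (1 - X ^ 2) := by
    rw [div_mul_cancel₀ _ hx1.ne']
  have e2 : (Y - R) ^ 2 = (Y - R) ^ 2 / (1 - Y ^ 2) * (1 - Y ^ 2) := by
    rw [div_mul_cancel₀ _ hy1.ne']
  have h2 : 2 * ((X - P) * (Y - R)) ≤ (X - P) ^ 2 / (1 - X ^ 2) * (1 - Y ^ 2) +
      (Y - R) ^ 2 / (1 - Y ^ 2) * (1 - X ^ 2) := by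
    rw [div_mul_eq_mul_div, div_mul_eq_mul_div, div_add_div _ _ hx1.ne' hy1.ne',
      le_div_iff₀ (mul_pos hx1 hy1)]
    nlinarith [sq_nonneg ((X - P) * (1 - Y ^ 2) - (Y - R) * (1 - X ^ 2))]
  have h3 : 0 ≤ a * b := mul_nonneg ha hb
  have h4 := mul_le_mul_of_nonneg_left h2 h3
  set α := (X - P) ^ 2 / (1 - X ^ 2)
  set β := (Y - R) ^ 2 / (1 - Y ^ 2)
  have e3 : (a * X + b * Y - (a * P + b * R)) ^ 2 =
      a ^ 2 * (X - P) ^ 2 + b ^ 2 * (Y - R) ^ 2 + a * b * (2 * ((X - P) * (Y - R))) := by ring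
  have e4 : (a * α + b * β) * (a * (1 - X ^ 2) + b * (1 - Y ^ 2)) =
      a ^ 2 * (α * (1 - X ^ 2)) + b ^ 2 * (β * (1 - Y ^ 2)) +
        a * b * (α * (1 - Y ^ 2) + β * (1 - X ^ 2)) := by ring
  rw [e3, e4, ← e1, ← e2]
  linarith

theorem infDist_smul_le (Y : Submodule ℝ E) {s : ℝ} (hs : 0 < s) (x : E) :
    Metric.infDist (s • x) (Y : Set E) ≤ s * Metric.infDist x (Y : Set E) := by
  have h1 : s⁻¹ * Metric.infDist (s • x) (Y : Set E) ≤ Metric.infDist x (Y : Set E) := by
    rw [Metric.le_infDist ⟨0, Y.zero_mem⟩]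
    intro y hy
    rw [inv_mul_le_iff₀ hs]
    have h2 := Metric.infDist_le_dist_of_mem (x := s • x) (Y.smul_mem s hy : s • y ∈ (Y : Set E))
    refine h2.trans (le_of_eq ?_)
    rw [dist_smul₀, Real.norm_of_nonneg hs.le]
  rwa [inv_mul_le_iff₀ hs] at h1

theorem abs_le_infDist (Y : Submodule ℝ E) (f : StrongDual ℝ E) (hf : ‖f‖ ≤ 1)
    (hfY : ∀ y ∈ Y, f y = 0) (x : E) : |f x| ≤ Metric.infDist x (Y : Set E) := by
  rw [Metric.le_infDist ⟨0, Y.zero_mem⟩]
  intro y hy
  have h1 := f.le_opNorm (x - y)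
  rw [map_sub, hfY y hy, sub_zero, Real.norm_eq_abs] at h1
  rw [dist_eq_norm]
  nlinarith [norm_nonneg (x - y)]

theorem assembly {I T : Type*} (Y : Submodule ℝ E) (hY : IsClosed (Y : Set E))
    (V : I → Submodule ℝ (StrongDual ℝ E)) (W : I → Set E)
    (hV : ∀ i f, f ∈ V i ↔ ∀ w ∈ W i, f w = 0)
    (hsep : ∀ i, IsSeparable (V i : Set (StrongDual ℝ E)))
    (hVY : ∀ i, ∀ f ∈ V i, ∀ y ∈ Y, f y = 0)
    (hVc : ∀ x (ε : ℝ), 0 < ε → {i | ∃ f ∈ V i, ‖f‖ ≤ 1 ∧ ε ≤ f x}.Finite)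
    (d : T → StrongDual ℝ E) (hdn : ∀ t, ‖d t‖ ≤ 1) (hdY : ∀ t, ∀ y ∈ Y, d t y = 0) (σ : T → T)
    (hdc : ∀ x (ε : ℝ), 0 < ε → {t | ε ≤ |d t x - d (σ t) x|}.Finite)
    (hdm : ∀ x, (∀ t, |d t x| ≤ 1) → (∃ r < 1, ∀ t, |d t x| ≤ r) ∨
      ∃ t, |d t x| = 1 ∧ d (σ t) x ≠ d t x)
    (C0 : ℝ) (hC0 : 0 < C0)
    (hnorm : ∀ x r, 0 ≤ r → (∀ t, |d t x| ≤ r) → (∀ i, ∀ f ∈ V i, ‖f‖ ≤ 1 → f x ≤ r) →
      Metric.infDist x (Y : Set E) ≤ C0 * r) :
    ∃ p : Seminorm ℝ E,
      (∃ c C : ℝ, 0 < c ∧ ∀ x : E,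
        c * Metric.infDist x (Y : Set E) ≤ p x ∧ p x ≤ C * Metric.infDist x (Y : Set E)) ∧
      ∀ x : E, x ∉ Y → DifferentiableAt ℝ (fun z : E => p z) x := by
  choose Q hQc hQs hQ0 hQd hQl hQu using fun i => block (V i) (W i) (hV i) (hsep i)
  set U : Set E := {x | ∃ r < 1, ∀ t, |d t x| ≤ r} with hU
  have hmemU : ∀ x, x ∈ U ↔ ∃ r < 1, ∀ t, |d t x| ≤ r := fun x => Iff.rfl
  have hdt : ∀ t x z, |d t z| ≤ |d t x| + ‖z - x‖ := by
    intro t x z
    have h1 := (d t).le_opNorm (z - x)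
    rw [map_sub, Real.norm_eq_abs] at h1
    have h2 : ‖d t‖ * ‖z - x‖ ≤ 1 * ‖z - x‖ := mul_le_mul_of_nonneg_right (hdn t) (norm_nonneg _)
    have h3 := abs_sub_abs_le_abs_sub (d t z) (d t x)
    linarith
  have hdlt : ∀ x ∈ U, ∀ t, |d t x| < 1 := by
    rintro x ⟨r, hr, hx⟩ t
    exact (hx t).trans_lt hr
  have hUo : IsOpen U := by
    rw [Metric.isOpen_iff]
    rintro x ⟨r, hr, hx⟩
    refine ⟨(1 - r) / 2, by linarith, fun z hz => ⟨(1 + r) / 2, by linarith, fun t => ?_⟩⟩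
    have h1 := hdt t x z
    rw [Metric.mem_ball, dist_eq_norm] at hz
    linarith [hx t]
  have hU0 : (0 : E) ∈ U := ⟨0, one_pos, fun t => by simp⟩
  have hUs : ∀ x ∈ U, -x ∈ U := by
    rintro x ⟨r, hr, hx⟩
    exact ⟨r, hr, fun t => by rw [map_neg, abs_neg]; exact hx t⟩
  have hUc : Convex ℝ U := by
    rintro x ⟨r, hr, hx⟩ y ⟨s, hs, hy⟩ a b ha hb hab
    refine ⟨max r s, max_lt hr hs, fun t => ?_⟩
    rw [map_add, map_smul, map_smul, smul_eq_mul, smul_eq_mul]
    calc |a * d t x + b * d t y| ≤ |a * d t x| + |b * d t y| := abs_add_le _ _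
      _ = a * |d t x| + b * |d t y| := by rw [abs_mul, abs_mul, abs_of_nonneg ha, abs_of_nonneg hb]
      _ ≤ a * max r s + b * max r s := add_le_add
          (mul_le_mul_of_nonneg_left ((hx t).trans (le_max_left _ _)) ha)
          (mul_le_mul_of_nonneg_left ((hy t).trans (le_max_right _ _)) hb)
      _ = max r s := by rw [← add_mul, hab, one_mul]
  set φ : T ⊕ I → E → ℝ := fun j x => match j with
    | Sum.inl t => hh ((d t x - d (σ t) x) ^ 2 / (1 - (d t x) ^ 2))
    | Sum.inr i => hh (4 * Q i x) with hφ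
  have hφl : ∀ t x, φ (Sum.inl t) x = hh ((d t x - d (σ t) x) ^ 2 / (1 - (d t x) ^ 2)) :=
    fun t x => rfl
  have hφr : ∀ i x, φ (Sum.inr i) x = hh (4 * Q i x) := fun i x => rfl
  have hφ0 : ∀ j x, 0 ≤ φ j x := by
    rintro (t | i) x
    · exact hh_nonneg _
    · exact hh_nonneg _
  have hlf : ∀ x ∈ U, ∃ F : Set (T ⊕ I), F.Finite ∧ ∀ᶠ z in 𝓝 x, ∀ j ∉ F, φ j z = 0 := by
    rintro x ⟨r, hr, hx⟩
    set ρ : ℝ := max ((1 + r) / 2) 0 with hρ
    have hρ0 : 0 ≤ ρ := le_max_right _ _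
    have hρ1 : ρ < 1 := max_lt (by linarith) one_pos
    set ε : ℝ := (1 - ρ) / 2 with hε
    have hεpos : 0 < ε := by rw [hε]; linarith
    refine ⟨Sum.inl '' {t | ε ≤ |d t x - d (σ t) x|} ∪
      Sum.inr '' {i | ∃ f ∈ V i, ‖f‖ ≤ 1 ∧ 1 / 4 ≤ f x},
      ((hdc x ε hεpos).image _).union ((hVc x (1 / 4) (by norm_num)).image _), ?_⟩
    have hb : 0 < min ((1 - r) / 2) (min (ε / 2) (1 / 4)) := by
      apply lt_min (by linarith) (lt_min (by linarith) (by norm_num))
    filter_upwards [Metric.ball_mem_nhds x hb] with z hz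
    rw [Metric.mem_ball, dist_eq_norm, lt_min_iff, lt_min_iff] at hz
    obtain ⟨hz1, hz2, hz3⟩ := hz
    rintro (t | i) hj
    · rw [hφl]
      apply hh_zero
      have h1 : |d t x - d (σ t) x| < ε := by
        by_contra hc
        push Not at hc
        exact hj (Or.inl ⟨t, hc, rfl⟩)
      have h2 : |d t z| ≤ ρ := by
        have := hdt t x z
        have h3 := hx t
        exact le_trans (by linarith) (le_max_left _ _)
      have h3 : |d t z - d (σ t) z| ≤ 2 * ε := by
        have h4 : d t z - d (σ t) z = (d t x - d (σ t) x) + d t (z - x) - d (σ t) (z - x) := by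
          rw [map_sub, map_sub]; ring
        have h5 : |d t (z - x)| ≤ ‖z - x‖ := by
          have := hdt t 0 (z - x)
          simpa using this
        have h6 : |d (σ t) (z - x)| ≤ ‖z - x‖ := by
          have := hdt (σ t) 0 (z - x)
          simpa using this
        rw [h4]
        calc |(d t x - d (σ t) x) + d t (z - x) - d (σ t) (z - x)|
            ≤ |(d t x - d (σ t) x) + d t (z - x)| + |d (σ t) (z - x)| := abs_sub _ _
          _ ≤ |d t x - d (σ t) x| + |d t (z - x)| + |d (σ t) (z - x)| := by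
              have := abs_add_le (d t x - d (σ t) x) (d t (z - x))
              linarith
          _ ≤ 2 * ε := by linarith
      have h4 : 0 < 1 - (d t z) ^ 2 := by
        rw [← sq_abs (d t z)]
        nlinarith [abs_nonneg (d t z)]
      rw [div_le_one h4, ← sq_abs (d t z - d (σ t) z), ← sq_abs (d t z)]
      have h5 : |d t z - d (σ t) z| ^ 2 ≤ (2 * ε) ^ 2 := pow_le_pow_left₀ (abs_nonneg _) h3 2
      have h6 : |d t z| ^ 2 ≤ ρ ^ 2 := pow_le_pow_left₀ (abs_nonneg _) h2 2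
      have h7 : (2 * ε) ^ 2 ≤ 1 - ρ ^ 2 := by rw [hε]; nlinarith
      linarith
    · rw [hφr]
      apply hh_zero
      have h1 : ∀ f ∈ V i, ‖f‖ ≤ 1 → f z ≤ 1 / 2 := by
        intro f hf hf1
        have h2 : f x < 1 / 4 := by
          by_contra hc
          push Not at hc
          exact hj (Or.inr ⟨i, ⟨f, hf, hf1, hc⟩, rfl⟩)
        have h3 := f.le_opNorm (z - x)
        rw [map_sub, Real.norm_eq_abs] at h3
        have h4 : ‖f‖ * ‖z - x‖ ≤ 1 * ‖z - x‖ := mul_le_mul_of_nonneg_right hf1 (norm_nonneg _)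
        have h5 := le_abs_self (f z - f x)
        linarith
      have h2 := hQu i z (1 / 2) (by norm_num) h1
      linarith
  have hfs : ∀ x ∈ U, (Function.support fun j => φ j x).Finite := by
    intro x hx
    obtain ⟨F, hF, hF2⟩ := hlf x hx
    refine hF.subset fun j hj => ?_
    by_contra hjF
    exact hj (hF2.self_of_nhds j hjF)
  set Φ : E → ℝ := fun x => ∑ᶠ j, φ j x with hΦ
  have hΦc : ConvexOn ℝ U Φ := by
    refine finsum_convex φ hUc ?_ hfs
    rintro (t | i)
    · exact hh_comp_convex (ratio_convex hUc (d t) (d (σ t)) fun x hx => hdlt x hx t)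
    · refine hh_comp_convex ?_
      have h1 := ((hQc i).subset (subset_univ U) hUc).smul (show (0 : ℝ) ≤ 4 by norm_num)
      exact h1.congr fun x _ => by simp
  have hΦs : ∀ x, Φ (-x) = Φ x := by
    intro x
    refine finsum_congr fun j => ?_
    rcases j with t | i
    · rw [hφl, hφl, map_neg, map_neg, neg_sq]
      congr 2
      ring
    · rw [hφr, hφr, hQs]
  have hQz : ∀ i, Q i 0 = 0 := by
    intro i
    have h1 := hQu i 0 0 le_rfl (fun f _ _ => by rw [map_zero])
    have h2 := hQ0 i 0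
    apply le_antisymm _ h2
    simpa using h1
  have hΦ0 : Φ 0 = 0 := by
    have : ∀ j, φ j 0 = 0 := by
      rintro (t | i)
      · rw [hφl]; apply hh_zero; simp
      · rw [hφr]; apply hh_zero; rw [hQz]; simp
    simp only [hΦ, this, finsum_zero]
  have hΦd : ∀ x ∈ U, DifferentiableAt ℝ Φ x := by
    intro x hx
    obtain ⟨F, hF, hF2⟩ := hlf x hx
    refine finsum_diff φ x ?_ F hF hF2
    rintro (t | i)
    · have h1 : DifferentiableAt ℝ (fun x => (d t x - d (σ t) x) ^ 2 / (1 - (d t x) ^ 2)) x := by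
        have h4 : 1 - (d t x) ^ 2 ≠ 0 := by
          have h5 := hdlt x hx t
          rw [← sq_abs (d t x)]
          nlinarith [abs_nonneg (d t x)]
        have h5 : DifferentiableAt ℝ (fun x => (d t x - d (σ t) x) ^ 2) x :=
          ((d t).differentiableAt.sub (d (σ t)).differentiableAt).pow 2
        have h6 : DifferentiableAt ℝ (fun x => 1 - (d t x) ^ 2) x :=
          (differentiableAt_const 1).sub ((d t).differentiableAt.pow 2)
        have h7 : DifferentiableAt ℝ (fun x => (1 - (d t x) ^ 2)⁻¹) x := h6.fun_inv h4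
        have h8 := h5.fun_mul h7
        exact h8
      exact DifferentiableAt.comp (g := hh) x (hh_diff _) h1
    · have h1 : DifferentiableAt ℝ (fun x => 4 * Q i x) x := (hQd i x).const_mul 4
      exact DifferentiableAt.comp (g := hh) x (hh_diff _) h1
  have hle : ∀ x ∈ U, ∀ j, φ j x ≤ Φ x := fun x hx j =>
    single_le_finsum j (hfs x hx) fun j => hφ0 j x
  have hkey : ∀ u, (∀ s : ℝ, 0 ≤ s → s < 1 → s • u ∈ U ∧ Φ (s • u) ≤ 1) → u ∈ U := by
    intro u hu
    have h1 : ∀ t, |d t u| ≤ 1 := by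
      intro t
      by_contra hc
      push Not at hc
      have h2 : 0 < |d t u| := by linarith
      have h3 := hu |d t u|⁻¹ (inv_nonneg.2 h2.le) (inv_lt_one_of_one_lt₀ hc)
      have h4 := hdlt _ h3.1 t
      rw [map_smul, smul_eq_mul, abs_mul, abs_inv, abs_abs, inv_mul_cancel₀ h2.ne'] at h4
      exact lt_irrefl _ h4
    rcases hdm u h1 with h2 | ⟨t, ht1, ht2⟩
    · exact h2
    · exfalso
      set b := d t u - d (σ t) u with hb
      have hb0 : b ≠ 0 := fun h => ht2 (by rw [hb] at h; linarith)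
      have hb2 : 0 < b ^ 2 := by positivity
      set s : ℝ := Real.sqrt (3 / (3 + b ^ 2)) with hs
      have hs2 : s ^ 2 = 3 / (3 + b ^ 2) := Real.sq_sqrt (by positivity)
      have hs0 : 0 ≤ s := Real.sqrt_nonneg _
      have hs1 : s < 1 := by
        rw [hs, Real.sqrt_lt' one_pos, one_pow, div_lt_one (by positivity)]
        linarith
      obtain ⟨h3, h4⟩ := hu s hs0 hs1
      have h5 := (hle _ h3 (Sum.inl t)).trans h4
      rw [hφl] at h5
      have h6 := hh_le_one h5
      have h7 : (d t u) ^ 2 = 1 := by rw [← sq_abs, ht1]; norm_num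
      have h8 : (d t (s • u) - d (σ t) (s • u)) ^ 2 / (1 - (d t (s • u)) ^ 2) = 3 := by
        rw [map_smul, map_smul, smul_eq_mul, smul_eq_mul]
        have h9 : (s * d t u - s * d (σ t) u) ^ 2 = s ^ 2 * b ^ 2 := by rw [hb]; ring
        have h10 : (s * d t u) ^ 2 = s ^ 2 := by rw [mul_pow, h7, mul_one]
        rw [h9, h10, hs2]
        field_simp
        ring
      rw [h8] at h6
      norm_num at h6
  obtain ⟨p, hp1, hp2, hp3⟩ := gauge_diff hUo hU0 hUs hΦc hΦs hΦ0 hΦd hkey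
  have hlow : ∀ x, Metric.infDist x (Y : Set E) ≤ 2 * C0 * p x := by
    intro x
    refine le_of_forall_pos_le_add fun ε hε => ?_
    set P : ℝ := p x + ε / (2 * C0) with hP
    have hPpos : 0 < P := by
      have := apply_nonneg p x
      have h2 : 0 < ε / (2 * C0) := by positivity
      linarith
    have h1 : p (P⁻¹ • x) < 1 := by
      rw [map_smul_eq_mul, Real.norm_of_nonneg (inv_nonneg.2 hPpos.le), inv_mul_lt_iff₀ hPpos,
        mul_one]
      have h2 : 0 < ε / (2 * C0) := by positivity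
      linarith
    obtain ⟨hzU, hzΦ⟩ := hp2 _ h1
    have h3 : Metric.infDist (P⁻¹ • x) (Y : Set E) ≤ C0 * 2 := by
      refine hnorm _ 2 (by norm_num) (fun t => ?_) fun i f hf hf1 => ?_
      · exact ((hdlt _ hzU t).le).trans (by norm_num)
      · have h4 := (hle _ hzU (Sum.inr i)).trans hzΦ
        rw [hφr] at h4
        have h5 := hh_le_one h4
        have h6 := hQl i (P⁻¹ • x) f hf hf1
        have h7 : (f (P⁻¹ • x)) ^ 2 ≤ 2 ^ 2 := by linarith
        exact (le_abs_self _).trans (abs_le_of_sq_le_sq h7 (by norm_num))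
    have h4 := infDist_smul_le Y hPpos (P⁻¹ • x)
    rw [smul_smul, mul_inv_cancel₀ hPpos.ne', one_smul] at h4
    have h5 : P * Metric.infDist (P⁻¹ • x) (Y : Set E) ≤ P * (C0 * 2) :=
      mul_le_mul_of_nonneg_left h3 hPpos.le
    have h6 : P * (C0 * 2) = 2 * C0 * p x + ε := by
      rw [hP]; field_simp
    linarith
  have hup : ∀ x, p x ≤ 5 * Metric.infDist x (Y : Set E) := by
    intro x
    refine le_of_forall_pos_le_add fun ε hε => ?_
    set D : ℝ := 5 * Metric.infDist x (Y : Set E) + ε with hD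
    have hDpos : 0 < D := by
      have := Metric.infDist_nonneg (x := x) (s := (Y : Set E))
      linarith
    set z := D⁻¹ • x with hz
    have hzd : Metric.infDist z (Y : Set E) ≤ 1 / 5 := by
      have h1 := infDist_smul_le Y (inv_pos.2 hDpos) x
      refine h1.trans ?_
      rw [inv_mul_le_iff₀ hDpos]
      linarith
    have hdz : ∀ t, |d t z| ≤ 1 / 5 := fun t =>
      (abs_le_infDist Y (d t) (hdn t) (hdY t) z).trans hzd
    have hzU : z ∈ U := ⟨1 / 5, by norm_num, hdz⟩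
    have hzero : ∀ j, φ j z = 0 := by
      rintro (t | i)
      · rw [hφl]
        apply hh_zero
        have h1 := abs_le.1 (hdz t)
        have h2 := abs_le.1 (hdz (σ t))
        have h3 : (d t z) ^ 2 ≤ 1 / 25 := by nlinarith [h1.1, h1.2]
        rw [div_le_one (by linarith)]
        have h4 : (d t z - d (σ t) z) ^ 2 ≤ 4 / 25 := by
          nlinarith [h1.1, h1.2, h2.1, h2.2]
        linarith
      · rw [hφr]
        apply hh_zero
        have h1 := hQu i z (1 / 5) (by norm_num) (fun f hf hf1 =>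
          ((le_abs_self _).trans (abs_le_infDist Y f hf1 (hVY i f hf) z)).trans hzd)
        linarith
    have hz1 : Φ z ≤ 1 := by
      simp only [hΦ, hzero, finsum_zero]
      norm_num
    have h1 := hp1 z hzU hz1
    rw [hz, map_smul_eq_mul, Real.norm_of_nonneg (inv_nonneg.2 hDpos.le),
      inv_mul_le_iff₀ hDpos, mul_one] at h1
    exact h1
  refine ⟨p, ⟨1 / (2 * C0), 5, by positivity, fun x => ⟨?_, hup x⟩⟩, fun x hx => hp3 x ?_⟩
  · rw [div_mul_eq_mul_div, one_mul, div_le_iff₀ (by positivity)]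
    linarith [hlow x]
  · intro h0
    have h1 := hlow x
    rw [h0, mul_zero] at h1
    have h2 : 0 < Metric.infDist x (Y : Set E) :=
      (hY.notMem_iff_infDist_pos ⟨0, Y.zero_mem⟩).1 hx
    linarith

end Pool.Agent.FrechetQ
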