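import Mathlib

/-!
Auxiliary facts for the smooth renorming attached to a separable annihilator.
-/

namespace Pool.Agent.FrechetQ

open Filter Topology Set TopologicalSpace

variable {E : Type*} [NormedAddCommGroup E] [NormedSpace ℝ E]

theorem exists_dense_seq_in {F : Type*} [NormedAddCommGroup F] [NormedSpace ℝ F]
    (V : Submodule ℝ F) (h : IsSeparable (V : Set F)) :
    ∃ fs : ℕ → F, (∀ k, fs k ∈ V) ∧ ∀ f ∈ V, ∀ ε > 0, ∃ k, ‖f - fs k‖ < ε := by
  have : SeparableSpace V := h.separableSpace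
  refine ⟨fun k => (denseSeq V k : F), fun k => (denseSeq V k).2, fun f hf ε hε => ?_⟩
  obtain ⟨k, hk⟩ := (denseRange_denseSeq V).exists_dist_lt ⟨f, hf⟩ hε
  refine ⟨k, ?_⟩
  rw [Subtype.dist_eq, dist_eq_norm] at hk
  exact hk

theorem exists_norming_pt (f : StrongDual ℝ E) : ∃ x : E, ‖x‖ ≤ 1 ∧ 3 / 4 * ‖f‖ ≤ |f x| := by
  by_cases hf : f = 0
  · exact ⟨0, by simp, by simp [hf]⟩
  · have h1 : 0 < ‖f‖ := norm_pos_iff.2 hf
    obtain ⟨x, hx, hx2⟩ := f.exists_lt_apply_of_lt_opNorm (r := 3 / 4 * ‖f‖) (by linarith)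
    exact ⟨x, hx.le, by rw [Real.norm_eq_abs] at hx2; exact hx2.le⟩

theorem finite_norming (F : Submodule ℝ (StrongDual ℝ E)) [FiniteDimensional ℝ F] (xs : ℕ → E)
    (h : ∀ g ∈ F, g ≠ 0 → ∃ j, ‖g‖ < 3 * |g (xs j)|) :
    ∃ m : ℕ, ∀ g ∈ F, ∃ j < m, ‖g‖ ≤ 3 * |g (xs j)| := by
  have : ProperSpace F := FiniteDimensional.proper_real F
  have hc : IsCompact (Metric.sphere (0 : F) 1) := isCompact_sphere 0 1
  have hev : ∀ j, Continuous (fun g : F => (g : StrongDual ℝ E) (xs j)) := fun j =>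
    (ContinuousLinearMap.apply ℝ ℝ (xs j)).continuous.comp continuous_subtype_val
  obtain ⟨t, ht⟩ := hc.elim_finite_subcover
    (fun j : ℕ => {g : F | 1 < 3 * |(g : StrongDual ℝ E) (xs j)|})
    (fun j => isOpen_lt continuous_const (continuous_const.mul (hev j).abs))
    (by
      intro g hg
      have hg1 : ‖(g : StrongDual ℝ E)‖ = 1 := by
        have h1 : dist (g : StrongDual ℝ E) 0 = 1 := hg
        rw [dist_eq_norm, sub_zero] at h1
        exact h1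
      obtain ⟨j, hj⟩ := h g g.2 (by intro h0; rw [h0, norm_zero] at hg1; norm_num at hg1)
      rw [hg1] at hj
      exact mem_iUnion.2 ⟨j, hj⟩)
  refine ⟨t.sup id + 1, fun g hg => ?_⟩
  by_cases hg0 : g = 0
  · exact ⟨0, Nat.succ_pos _, by simp [hg0]⟩
  · have hpos : 0 < ‖g‖ := norm_pos_iff.2 hg0
    have h1 : (⟨‖g‖⁻¹ • g, F.smul_mem _ hg⟩ : F) ∈ Metric.sphere (0 : F) 1 := by
      change dist (‖g‖⁻¹ • g) 0 = 1
      rw [dist_eq_norm, sub_zero, norm_smul, norm_inv, norm_norm, inv_mul_cancel₀ hpos.ne']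
    obtain ⟨j, hj⟩ := mem_iUnion.1 (ht h1)
    obtain ⟨hjt, hj1⟩ := mem_iUnion.1 hj
    refine ⟨j, Nat.lt_succ_of_le (Finset.le_sup (f := id) hjt), ?_⟩
    have hj2 : 1 < 3 * |(‖g‖⁻¹ • g) (xs j)| := hj1
    rw [smul_apply, smul_eq_mul, abs_mul,
      abs_of_pos (inv_pos.2 hpos)] at hj2
    have h3 : ‖g‖ * 1 < ‖g‖ * (3 * (‖g‖⁻¹ * |g (xs j)|)) := mul_lt_mul_of_pos_left hj2 hpos
    have h4 : ‖g‖ * (3 * (‖g‖⁻¹ * |g (xs j)|)) = 3 * |g (xs j)| := by
      field_simp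
    linarith

/-- The functional `f` is close to the span of finitely many functionals when it is small
on their common kernel. -/
theorem near_span (k : ℕ) (fs : ℕ → StrongDual ℝ E) (f : StrongDual ℝ E) (C : ℝ) (hC : 0 ≤ C)
    (h : ∀ x ∈ (⨅ i : Fin k, LinearMap.ker (fs i : E →ₗ[ℝ] ℝ)), |f x| ≤ C * ‖x‖) :
    ∃ g ∈ Submodule.span ℝ (range fun i : Fin k => fs i), ‖f - g‖ ≤ C := by
  obtain ⟨e, he, hen⟩ := exists_extension_norm_eq
    (⨅ i : Fin k, LinearMap.ker (fs i : E →ₗ[ℝ] ℝ))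
    (f.comp (⨅ i : Fin k, LinearMap.ker (fs i : E →ₗ[ℝ] ℝ)).subtypeL)
  refine ⟨f - e, ?_, ?_⟩
  · have h1 : (((f - e : StrongDual ℝ E)) : E →ₗ[ℝ] ℝ) ∈
        Submodule.span ℝ (range fun i : Fin k => (fs i : E →ₗ[ℝ] ℝ)) := by
      apply mem_span_of_iInf_ker_le_ker
      intro x hx
      have := he ⟨x, hx⟩
      simp only [ContinuousLinearMap.coe_comp, Function.comp_apply,
        Submodule.subtypeL_apply] at this
      simp [this]
    rw [Submodule.mem_span_range_iff_exists_fun] at h1 ⊢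
    obtain ⟨c, hc⟩ := h1
    refine ⟨c, ?_⟩
    ext x
    have := congrArg (fun L : E →ₗ[ℝ] ℝ => L x) hc
    simpa using this
  · rw [sub_sub_cancel, hen]
    exact ContinuousLinearMap.opNorm_le_bound _ hC fun x => h x x.2

end Pool.Agent.FrechetQ
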