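import Pool.Agent.FrechetQ.BlockA

/-!
The auxiliary dual function and its maximisers.
-/

namespace Pool.Agent.FrechetQ

open Filter Topology Set TopologicalSpace

variable {E : Type*} [NormedAddCommGroup E] [NormedSpace ℝ E]

/-- norm of the restriction of a functional to a subspace -/
noncomputable def rr (S : Submodule ℝ E) (f : StrongDual ℝ E) : ℝ :=
  sSup ((fun x : E => |f x|) '' {x | x ∈ S ∧ ‖x‖ ≤ 1})

theorem rr_bdd (S : Submodule ℝ E) (f : StrongDual ℝ E) :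
    BddAbove ((fun x : E => |f x|) '' {x | x ∈ S ∧ ‖x‖ ≤ 1}) := by
  refine ⟨‖f‖, ?_⟩
  rintro _ ⟨x, ⟨-, hx⟩, rfl⟩
  have := f.le_opNorm x
  rw [Real.norm_eq_abs] at this
  have h2 : ‖f‖ * ‖x‖ ≤ ‖f‖ * 1 := mul_le_mul_of_nonneg_left hx (norm_nonneg _)
  simp only
  linarith

theorem rr_nonneg (S : Submodule ℝ E) (f : StrongDual ℝ E) : 0 ≤ rr S f :=
  le_csSup (rr_bdd S f) ⟨0, ⟨S.zero_mem, by simp⟩, by simp⟩

theorem rr_apply (S : Submodule ℝ E) (f : StrongDual ℝ E) (x : E) (hx : x ∈ S) :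
    |f x| ≤ rr S f * ‖x‖ := by
  by_cases h0 : x = 0
  · simp [h0]
  · have hp : 0 < ‖x‖ := norm_pos_iff.2 h0
    have h1 : |f (‖x‖⁻¹ • x)| ≤ rr S f := by
      refine le_csSup (rr_bdd S f) ⟨‖x‖⁻¹ • x, ⟨S.smul_mem _ hx, ?_⟩, rfl⟩
      rw [norm_smul, norm_inv, norm_norm, inv_mul_cancel₀ hp.ne']
    rw [map_smul, smul_eq_mul, abs_mul, abs_of_pos (inv_pos.2 hp), inv_mul_le_iff₀ hp] at h1
    linarith

theorem rr_le_of (S : Submodule ℝ E) (f : StrongDual ℝ E) (C : ℝ) (hC : 0 ≤ C)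
    (h : ∀ x ∈ S, |f x| ≤ C * ‖x‖) : rr S f ≤ C := by
  refine csSup_le ⟨_, ⟨0, ⟨S.zero_mem, by simp⟩, rfl⟩⟩ ?_
  rintro _ ⟨x, ⟨hx, hx1⟩, rfl⟩
  have h2 : C * ‖x‖ ≤ C * 1 := mul_le_mul_of_nonneg_left hx1 hC
  have := h x hx
  simp only
  linarith

theorem rr_le (S : Submodule ℝ E) (f : StrongDual ℝ E) : rr S f ≤ ‖f‖ :=
  rr_le_of S f _ (norm_nonneg _) fun x _ => f.le_opNorm x

theorem rr_add (S : Submodule ℝ E) (f g : StrongDual ℝ E) : rr S (f + g) ≤ rr S f + rr S g := by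
  refine rr_le_of S _ _ (add_nonneg (rr_nonneg _ _) (rr_nonneg _ _)) fun x hx => ?_
  rw [add_apply, add_mul]
  exact (abs_add_le _ _).trans (add_le_add (rr_apply S f x hx) (rr_apply S g x hx))

theorem rr_smul_le (S : Submodule ℝ E) (c : ℝ) (f : StrongDual ℝ E) :
    rr S (c • f) ≤ |c| * rr S f := by
  refine rr_le_of S _ _ (mul_nonneg (abs_nonneg _) (rr_nonneg _ _)) fun x hx => ?_
  rw [smul_apply, smul_eq_mul, abs_mul, mul_assoc]
  exact mul_le_mul_of_nonneg_left (rr_apply S f x hx) (abs_nonneg _)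

theorem rr_smul (S : Submodule ℝ E) (c : ℝ) (f : StrongDual ℝ E) :
    rr S (c • f) = |c| * rr S f := by
  refine le_antisymm (rr_smul_le S c f) ?_
  by_cases hc : c = 0
  · simp [hc, rr_nonneg]
  · have h1 := rr_smul_le S c⁻¹ (c • f)
    rw [smul_smul, inv_mul_cancel₀ hc, one_smul, abs_inv] at h1
    have h2 : 0 < |c| := abs_pos.2 hc
    calc |c| * rr S f ≤ |c| * (|c|⁻¹ * rr S (c • f)) := mul_le_mul_of_nonneg_left h1 h2.le
      _ = rr S (c • f) := by rw [← mul_assoc, mul_inv_cancel₀ h2.ne', one_mul]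

theorem rr_lim (S : Submodule ℝ E) {U : Filter ℕ} [U.NeBot] (fn : ℕ → StrongDual ℝ E)
    (f : StrongDual ℝ E) (hlim : ∀ z, Tendsto (fun n => fn n z) U (𝓝 (f z))) {ρ : ℝ}
    (hρ : Tendsto (fun n => rr S (fn n)) U (𝓝 ρ)) : rr S f ≤ ρ := by
  have h0 : 0 ≤ ρ := ge_of_tendsto' hρ fun n => rr_nonneg _ _
  refine rr_le_of S _ _ h0 fun x hx => ?_
  have h1 : Tendsto (fun n => |fn n x|) U (𝓝 |f x|) := (hlim x).abs
  have h2 : Tendsto (fun n => rr S (fn n) * ‖x‖) U (𝓝 (ρ * ‖x‖)) := hρ.mul_const _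
  exact le_of_tendsto_of_tendsto' h1 h2 fun n => rr_apply S _ x hx

/-- one summand -/
noncomputable def gg (Z : ℕ → Submodule ℝ E) (xs : ℕ → E) (k : ℕ) (f : StrongDual ℝ E) : ℝ :=
  rr (Z k) f ^ 2 + (f (xs k)) ^ 2

/-- the dual function -/
noncomputable def MM (Z : ℕ → Submodule ℝ E) (xs : ℕ → E) (f : StrongDual ℝ E) : ℝ :=
  ‖f‖ ^ 2 + ∑' k : ℕ, (1 / 2 : ℝ) ^ (k + 1) * gg Z xs k f

theorem w_summable : Summable (fun k : ℕ => (1 / 2 : ℝ) ^ (k + 1)) := by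
  simp only [pow_succ]
  exact summable_geometric_two.mul_right _

theorem w_tsum : ∑' k : ℕ, (1 / 2 : ℝ) ^ (k + 1) = 1 := by
  simp only [pow_succ]
  rw [tsum_mul_right, tsum_geometric_two]
  norm_num

section

variable (Z : ℕ → Submodule ℝ E) (xs : ℕ → E)

theorem gg_nonneg (k : ℕ) (f : StrongDual ℝ E) : 0 ≤ gg Z xs k f := by
  unfold gg; positivity

theorem gg_le (hxs : ∀ k, ‖xs k‖ ≤ 1) (k : ℕ) (f : StrongDual ℝ E) :
    gg Z xs k f ≤ 2 * ‖f‖ ^ 2 := by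
  have h1 : rr (Z k) f ^ 2 ≤ ‖f‖ ^ 2 := pow_le_pow_left₀ (rr_nonneg _ _) (rr_le _ _) 2
  have h2 : |f (xs k)| ≤ ‖f‖ := by
    have := f.le_opNorm (xs k)
    rw [Real.norm_eq_abs] at this
    nlinarith [norm_nonneg f, hxs k]
  have h3 : (f (xs k)) ^ 2 ≤ ‖f‖ ^ 2 := by
    rw [← sq_abs (f (xs k))]
    exact pow_le_pow_left₀ (abs_nonneg _) h2 2
  unfold gg; linarith

theorem gg_summable (hxs : ∀ k, ‖xs k‖ ≤ 1) (f : StrongDual ℝ E) :
    Summable (fun k : ℕ => (1 / 2 : ℝ) ^ (k + 1) * gg Z xs k f) := by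
  refine Summable.of_nonneg_of_le (fun k => mul_nonneg (by positivity) (gg_nonneg _ _ _ _))
    (fun k => mul_le_mul_of_nonneg_left (gg_le Z xs hxs k f) (by positivity))
    (w_summable.mul_right (2 * ‖f‖ ^ 2))

theorem MM_le (hxs : ∀ k, ‖xs k‖ ≤ 1) (f : StrongDual ℝ E) : MM Z xs f ≤ 3 * ‖f‖ ^ 2 := by
  have h1 : ∑' k : ℕ, (1 / 2 : ℝ) ^ (k + 1) * gg Z xs k f ≤
      ∑' k : ℕ, (1 / 2 : ℝ) ^ (k + 1) * (2 * ‖f‖ ^ 2) :=
    Summable.tsum_le_tsum (fun k => mul_le_mul_of_nonneg_left (gg_le Z xs hxs k f) (by positivity))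
      (gg_summable Z xs hxs f) (w_summable.mul_right _)
  rw [tsum_mul_right, w_tsum] at h1
  unfold MM; linarith

theorem le_MM (f : StrongDual ℝ E) : ‖f‖ ^ 2 ≤ MM Z xs f := by
  have : 0 ≤ ∑' k : ℕ, (1 / 2 : ℝ) ^ (k + 1) * gg Z xs k f :=
    tsum_nonneg fun k => mul_nonneg (by positivity) (gg_nonneg _ _ _ _)
  unfold MM; linarith

theorem MM_smul (c : ℝ) (f : StrongDual ℝ E) : MM Z xs (c • f) = c ^ 2 * MM Z xs f := by
  unfold MM
  have h1 : ∀ k, (1 / 2 : ℝ) ^ (k + 1) * gg Z xs k (c • f) =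
      c ^ 2 * ((1 / 2 : ℝ) ^ (k + 1) * gg Z xs k f) := by
    intro k
    unfold gg
    rw [rr_smul, smul_apply, smul_eq_mul, mul_pow, mul_pow, sq_abs]
    ring
  simp_rw [h1]
  rw [tsum_mul_left, norm_smul, Real.norm_eq_abs, mul_pow, sq_abs]
  ring

theorem MM_neg (f : StrongDual ℝ E) : MM Z xs (-f) = MM Z xs f := by
  have := MM_smul Z xs (-1) f
  have h : (-1 : ℝ) • f = -f := by ext x; simp
  rw [h] at this
  simpa using this

theorem MM_zero : MM Z xs (0 : StrongDual ℝ E) = 0 := by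
  have := MM_smul Z xs 0 (0 : StrongDual ℝ E)
  simpa using this

theorem MM_deficit (hxs : ∀ k, ‖xs k‖ ≤ 1) (f g : StrongDual ℝ E) (k : ℕ) :
    (1 / 2 : ℝ) ^ (k + 1) * ((rr (Z k) f - rr (Z k) g) ^ 2 + (f (xs k) - g (xs k)) ^ 2) ≤
      2 * MM Z xs f + 2 * MM Z xs g - MM Z xs (f + g) := by
  have hk : ∀ j, (rr (Z j) f - rr (Z j) g) ^ 2 + (f (xs j) - g (xs j)) ^ 2 ≤
      2 * gg Z xs j f + 2 * gg Z xs j g - gg Z xs j (f + g) := by
    intro j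
    unfold gg
    have h1 : rr (Z j) (f + g) ^ 2 ≤ (rr (Z j) f + rr (Z j) g) ^ 2 :=
      pow_le_pow_left₀ (rr_nonneg _ _) (rr_add _ _ _) 2
    rw [add_apply]
    nlinarith
  have hs : Summable (fun j : ℕ => (1 / 2 : ℝ) ^ (j + 1) *
      (2 * gg Z xs j f + 2 * gg Z xs j g - gg Z xs j (f + g))) := by
    have := (((gg_summable Z xs hxs f).mul_left 2).add ((gg_summable Z xs hxs g).mul_left 2)).sub
      (gg_summable Z xs hxs (f + g))
    refine this.congr fun j => ?_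
    ring
  have ht : ∑' j : ℕ, (1 / 2 : ℝ) ^ (j + 1) *
      (2 * gg Z xs j f + 2 * gg Z xs j g - gg Z xs j (f + g)) =
      2 * ∑' j : ℕ, (1 / 2 : ℝ) ^ (j + 1) * gg Z xs j f +
      2 * ∑' j : ℕ, (1 / 2 : ℝ) ^ (j + 1) * gg Z xs j g -
      ∑' j : ℕ, (1 / 2 : ℝ) ^ (j + 1) * gg Z xs j (f + g) := by
    rw [← tsum_mul_left, ← tsum_mul_left, ← Summable.tsum_add
      ((gg_summable Z xs hxs f).mul_left 2) ((gg_summable Z xs hxs g).mul_left 2),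
      ← Summable.tsum_sub (((gg_summable Z xs hxs f).mul_left 2).add
        ((gg_summable Z xs hxs g).mul_left 2)) (gg_summable Z xs hxs (f + g))]
    refine tsum_congr fun j => ?_
    ring
  have h1 : (1 / 2 : ℝ) ^ (k + 1) * (2 * gg Z xs k f + 2 * gg Z xs k g - gg Z xs k (f + g)) ≤
      ∑' j : ℕ, (1 / 2 : ℝ) ^ (j + 1) *
      (2 * gg Z xs j f + 2 * gg Z xs j g - gg Z xs j (f + g)) := by
    refine hs.le_tsum k fun j _ => mul_nonneg (by positivity) ?_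
    exact le_trans (by positivity) (hk j)
  have h2 : (1 / 2 : ℝ) ^ (k + 1) *
      ((rr (Z k) f - rr (Z k) g) ^ 2 + (f (xs k) - g (xs k)) ^ 2) ≤
      (1 / 2 : ℝ) ^ (k + 1) * (2 * gg Z xs k f + 2 * gg Z xs k g - gg Z xs k (f + g)) :=
    mul_le_mul_of_nonneg_left (hk k) (by positivity)
  have h3 : ‖f + g‖ ^ 2 ≤ 2 * ‖f‖ ^ 2 + 2 * ‖g‖ ^ 2 := by
    have := norm_add_le f g
    nlinarith [norm_nonneg (f + g), norm_nonneg f, norm_nonneg g, sq_nonneg (‖f‖ - ‖g‖)]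
  unfold MM
  linarith

theorem exists_ultra_lim (U : Ultrafilter ℕ) (a : ℕ → ℝ) (R : ℝ) (h0 : ∀ n, 0 ≤ a n)
    (hR : ∀ n, a n ≤ R) : ∃ ρ, Tendsto a U (𝓝 ρ) := by
  obtain ⟨ρ, -, hρ⟩ := (isCompact_Icc (a := (0 : ℝ)) (b := R)).ultrafilter_le_nhds (U.map a)
    (by
      rw [le_principal_iff]
      exact Filter.mem_map.2 (Filter.univ_mem' fun n => ⟨h0 n, hR n⟩))
  exact ⟨ρ, hρ⟩

theorem MM_lsc (hxs : ∀ k, ‖xs k‖ ≤ 1) (U : Ultrafilter ℕ) (fn : ℕ → StrongDual ℝ E)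
    (f : StrongDual ℝ E) (R : ℝ) (hR : ∀ n, ‖fn n‖ ≤ R)
    (hlim : ∀ z, Tendsto (fun n => fn n z) U (𝓝 (f z))) {l : ℝ}
    (hl : Tendsto (fun n => MM Z xs (fn n)) U (𝓝 l)) : MM Z xs f ≤ l := by
  have h1 : ∀ k, ∃ ρ, Tendsto (fun n => rr (Z k) (fn n)) U (𝓝 ρ) := fun k =>
    exists_ultra_lim U _ R (fun n => rr_nonneg _ _) fun n => (rr_le _ _).trans (hR n)
  choose ρ hρ using h1
  obtain ⟨τ, hτ⟩ := exists_ultra_lim U (fun n => ‖fn n‖) R (fun n => norm_nonneg _) hR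
  have hτ2 : Tendsto (fun n => rr (⊤ : Submodule ℝ E) (fn n)) U (𝓝 τ) := by
    refine hτ.congr fun n => ?_
    refine le_antisymm ?_ (rr_le _ _)
    exact ContinuousLinearMap.opNorm_le_bound _ (rr_nonneg _ _) fun x => rr_apply ⊤ _ x trivial
  have hfτ : ‖f‖ ≤ τ := by
    have h2 := rr_lim (⊤ : Submodule ℝ E) fn f hlim hτ2
    refine le_trans ?_ h2
    exact ContinuousLinearMap.opNorm_le_bound _ (rr_nonneg _ _) fun x => rr_apply ⊤ _ x trivial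
  have hfρ : ∀ k, rr (Z k) f ≤ ρ k := fun k => rr_lim (Z k) fn f hlim (hρ k)
  have h3 : ∀ m : ℕ, ∑ k ∈ Finset.range m, (1 / 2 : ℝ) ^ (k + 1) * gg Z xs k f ≤ l - ‖f‖ ^ 2 := by
    intro m
    have h4 : Tendsto (fun n => ‖fn n‖ ^ 2 + ∑ k ∈ Finset.range m,
        (1 / 2 : ℝ) ^ (k + 1) * gg Z xs k (fn n)) U
        (𝓝 (τ ^ 2 + ∑ k ∈ Finset.range m, (1 / 2 : ℝ) ^ (k + 1) * (ρ k ^ 2 + (f (xs k)) ^ 2))) := by
      refine (hτ.pow 2).add (tendsto_finsetSum _ fun k _ => ?_)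
      exact (((hρ k).pow 2).add ((hlim (xs k)).pow 2)).const_mul _
    have h5 : τ ^ 2 + ∑ k ∈ Finset.range m, (1 / 2 : ℝ) ^ (k + 1) * (ρ k ^ 2 + (f (xs k)) ^ 2)
        ≤ l := by
      refine le_of_tendsto_of_tendsto' h4 hl fun n => ?_
      unfold MM
      have := (gg_summable Z xs hxs (fn n)).sum_le_tsum (Finset.range m)
        (fun k _ => mul_nonneg (by positivity) (gg_nonneg _ _ _ _))
      linarith
    have h6 : ∑ k ∈ Finset.range m, (1 / 2 : ℝ) ^ (k + 1) * gg Z xs k f ≤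
        ∑ k ∈ Finset.range m, (1 / 2 : ℝ) ^ (k + 1) * (ρ k ^ 2 + (f (xs k)) ^ 2) := by
      refine Finset.sum_le_sum fun k _ => mul_le_mul_of_nonneg_left ?_ (by positivity)
      have := pow_le_pow_left₀ (rr_nonneg (Z k) f) (hfρ k) 2
      unfold gg; linarith
    have h7 : ‖f‖ ^ 2 ≤ τ ^ 2 := pow_le_pow_left₀ (norm_nonneg _) hfτ 2
    linarith
  have h8 := Real.tsum_le_of_sum_range_le
    (fun k => mul_nonneg (by positivity : (0 : ℝ) ≤ (1 / 2 : ℝ) ^ (k + 1)) (gg_nonneg Z xs k f)) h3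
  unfold MM; linarith

theorem value_le (x : E) (g : StrongDual ℝ E) : 2 * g x - MM Z xs g ≤ ‖x‖ ^ 2 := by
  have h1 := le_MM Z xs g
  have h2 : g x ≤ ‖g‖ * ‖x‖ := (le_abs_self _).trans (g.le_opNorm x)
  nlinarith [sq_nonneg (‖g‖ - ‖x‖)]

theorem norm_le_of_value (x : E) (g : StrongDual ℝ E) (h : -1 ≤ 2 * g x - MM Z xs g) :
    ‖g‖ ≤ 2 * ‖x‖ + 1 := by
  have h1 := le_MM Z xs g
  have h2 : g x ≤ ‖g‖ * ‖x‖ := (le_abs_self _).trans (g.le_opNorm x)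
  by_contra hc
  push Not at hc
  nlinarith [norm_nonneg g, norm_nonneg x]

theorem exists_max (hxs : ∀ k, ‖xs k‖ ≤ 1) (V : Submodule ℝ (StrongDual ℝ E)) (W : Set E)
    (hV : ∀ f, f ∈ V ↔ ∀ w ∈ W, f w = 0) (x : E) :
    ∃ f ∈ V, ∀ g ∈ V, 2 * g x - MM Z xs g ≤ 2 * f x - MM Z xs f := by
  set S : Set ℝ := (fun g : StrongDual ℝ E => 2 * g x - MM Z xs g) '' V with hS
  have hSb : BddAbove S := ⟨‖x‖ ^ 2, by rintro _ ⟨g, -, rfl⟩; exact value_le Z xs x g⟩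
  have h0S : (0 : ℝ) ∈ S := ⟨0, V.zero_mem, by simp [MM_zero]⟩
  have hSn : S.Nonempty := ⟨0, h0S⟩
  have hQ0 : 0 ≤ sSup S := le_csSup hSb h0S
  have h1 : ∀ n : ℕ, ∃ g ∈ V, sSup S - 1 / ((n : ℝ) + 1) < 2 * g x - MM Z xs g := by
    intro n
    have : sSup S - 1 / ((n : ℝ) + 1) < sSup S := by
      have : 0 < 1 / ((n : ℝ) + 1) := by positivity
      linarith
    obtain ⟨_, ⟨g, hg, rfl⟩, h⟩ := exists_lt_of_lt_csSup hSn this
    exact ⟨g, hg, h⟩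
  choose fn hfnV hfn using h1
  have hfn2 : ∀ n, 2 * fn n x - MM Z xs (fn n) ≤ sSup S := fun n => le_csSup hSb ⟨_, hfnV n, rfl⟩
  have hbd : ∀ n, ‖fn n‖ ≤ 2 * ‖x‖ + 1 := by
    intro n
    apply norm_le_of_value Z xs x
    have h2 : 1 / ((n : ℝ) + 1) ≤ 1 := by
      rw [div_le_one (by positivity)]
      have : (0 : ℝ) ≤ n := Nat.cast_nonneg n
      linarith
    linarith [hfn n]
  let U : Ultrafilter ℕ := hyperfilter ℕ
  have hU : (U : Filter ℕ) ≤ atTop := Nat.hyperfilter_le_atTop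
  let fw : ℕ → WeakDual ℝ E := fun n => StrongDual.toWeakDual (fn n)
  obtain ⟨f', hf'1, hf'2⟩ := (WeakDual.isCompact_closedBall (𝕜 := ℝ) (0 : StrongDual ℝ E)
    (2 * ‖x‖ + 1)).ultrafilter_le_nhds (U.map fw) (by
      rw [le_principal_iff]
      refine Filter.mem_map.2 (Filter.univ_mem' fun n => ?_)
      change dist (fn n) 0 ≤ _
      rw [dist_zero_right]
      exact hbd n)
  let f : StrongDual ℝ E := WeakDual.toStrongDual f'
  have hlim : ∀ z, Tendsto (fun n => fn n z) U (𝓝 (f z)) := by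
    intro z
    have h2 : Tendsto fw U (𝓝 f') := hf'2
    have h3 := (WeakDual.eval_continuous (𝕜 := ℝ) z).tendsto f'
    exact h3.comp h2
  have hfV : f ∈ V := by
    rw [hV]
    intro w hw
    have h2 := hlim w
    have h3 : ∀ n, fn n w = 0 := fun n => (hV _).1 (hfnV n) w hw
    simp only [h3] at h2
    exact (tendsto_nhds_unique h2 tendsto_const_nhds)
  have hval : Tendsto (fun n => 2 * fn n x - MM Z xs (fn n)) U (𝓝 (sSup S)) := by
    refine Tendsto.mono_left ?_ hU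
    have h2 : Tendsto (fun n : ℕ => sSup S - 1 / ((n : ℝ) + 1)) atTop (𝓝 (sSup S - 0)) :=
      tendsto_const_nhds.sub tendsto_one_div_add_atTop_nhds_zero_nat
    rw [sub_zero] at h2
    exact tendsto_of_tendsto_of_tendsto_of_le_of_le h2 tendsto_const_nhds
      (fun n => (hfn n).le) hfn2
  have hMM : Tendsto (fun n => MM Z xs (fn n)) U (𝓝 (2 * f x - sSup S)) := by
    have := ((hlim x).const_mul 2).sub hval
    simpa using this
  have hle := MM_lsc Z xs hxs U fn f _ hbd hlim hMM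
  refine ⟨f, hfV, fun g hg => ?_⟩
  have : 2 * g x - MM Z xs g ≤ sSup S := le_csSup hSb ⟨g, hg, rfl⟩
  linarith

end

end Pool.Agent.FrechetQ
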