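import Pool.Agent.FrechetQ.Club
import Pool.Agent.FrechetQ.Assembly

/-!
Smooth seminorms on all quotients.
-/

set_option linter.unusedSectionVars false

namespace Pool.Agent.FrechetQ

open Filter Topology Set TopologicalSpace

variable {Ω : Type} [LinearOrder Ω] [W1 Ω] [TopologicalSpace Ω] [DiscreteTopology Ω]

/-- annihilators of sets -/
noncomputable def annih (W : Set (XX Ω)) : Submodule ℝ (StrongDual ℝ (XX Ω)) where
  carrier := {f | ∀ w ∈ W, f w = 0}
  add_mem' := fun {f g} hf hg w hw => by rw [add_apply, hf w hw, hg w hw, add_zero]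
  zero_mem' := fun w _ => rfl
  smul_mem' := fun c f hf w hw => by rw [smul_apply, hf w hw, smul_zero]

theorem mem_annih (W : Set (XX Ω)) (f : StrongDual ℝ (XX Ω)) :
    f ∈ annih W ↔ ∀ w ∈ W, f w = 0 := Iff.rfl

theorem annih_sep (W : Set (XX Ω)) (K : Set Ω) (c : Ω) (hK : ∀ t ∈ K, t ≤ c)
    (hW : ∀ x : XX Ω, (∀ t ∈ K, x t = 0) → x ∈ W) :
    IsSeparable (annih W : Set (StrongDual ℝ (XX Ω))) := by
  refine (sep_initial c).mono fun f hf x => ?_
  have h1 : f (x - PP c x) = 0 := hf _ (hW _ fun t ht => by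
    rw [XX.sub_ap, PP_ap, if_pos (hK t ht), sub_self])
  rw [map_sub] at h1
  linarith

theorem annih_scale (W : Set (XX Ω)) (x : XX Ω) (r : ℝ)
    (h : ∀ f ∈ annih W, ‖f‖ ≤ 1 → f x ≤ r) (f : StrongDual ℝ (XX Ω)) (hf : f ∈ annih W) :
    f x ≤ r * ‖f‖ := by
  by_cases h0 : f = 0
  · simp [h0]
  · have hp : 0 < ‖f‖ := norm_pos_iff.2 h0
    have h2 := h (‖f‖⁻¹ • f) (Submodule.smul_mem _ _ hf) (by
      rw [norm_smul, norm_inv, norm_norm, inv_mul_cancel₀ hp.ne'])
    rw [smul_apply, smul_eq_mul, inv_mul_le_iff₀ hp] at h2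
    linarith

theorem block_sum {J : Type*} (π : Ω → J) {a : Ω → ℝ} (ha : Summable a) (x : XX Ω) (K : ℝ)
    (h : ∀ j, ∑' t, (π ⁻¹' {j}).indicator a t * x t ≤
      K * ∑' t, |(π ⁻¹' {j}).indicator a t|) :
    ∑' t, a t * x t ≤ K * ∑' t, |a t| := by
  have h1 := ((summ_mul ha x).hasSum).tsum_fiberwise π
  have h2 := ((ha.abs.hasSum).tsum_fiberwise π).mul_left K
  refine hasSum_le (fun j => ?_) h1 h2
  have e1 : ∑' b : π ⁻¹' {j}, a b * x b = ∑' t, (π ⁻¹' {j}).indicator a t * x t := by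
    rw [tsum_subtype (π ⁻¹' {j}) (fun t => a t * x t)]
    refine tsum_congr fun t => ?_
    by_cases ht : t ∈ π ⁻¹' {j}
    · rw [indicator_of_mem ht, indicator_of_mem ht]
    · rw [indicator_of_notMem ht, indicator_of_notMem ht, zero_mul]
  have e2 : ∑' b : π ⁻¹' {j}, |a b| = ∑' t, |(π ⁻¹' {j}).indicator a t| := by
    rw [tsum_subtype (π ⁻¹' {j}) (fun t => |a t|)]
    refine tsum_congr fun t => ?_
    by_cases ht : t ∈ π ⁻¹' {j}
    · rw [indicator_of_mem ht, indicator_of_mem ht]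
    · rw [indicator_of_notMem ht, indicator_of_notMem ht, abs_zero]
  rw [e1, e2]
  exact h j

/-- Hahn-Banach for the distance -/
theorem exists_dist_functional (Y : Submodule ℝ (XX Ω)) (x : XX Ω) :
    ∃ a : Ω → ℝ, Summable a ∧ Ann Y a ∧ ∑' t, |a t| ≤ 1 ∧
      ∑' t, a t * x t = Metric.infDist x (Y : Set (XX Ω)) := by
  have hpc : Continuous (qsn Y) := by
    have h1 : (fun x => qsn Y x) = fun x => Metric.infDist x (Y : Set (XX Ω)) :=
      funext (qsn_ap Y)
    change Continuous fun x => qsn Y x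
    rw [h1]
    exact Metric.continuous_infDist_pt _
  by_cases hx0 : x = 0
  · refine ⟨0, summable_zero, fun y _ => by simp, by simp, ?_⟩
    subst hx0
    have h1 : Metric.infDist (0 : XX Ω) (Y : Set (XX Ω)) = 0 :=
      Metric.infDist_zero_of_mem Y.zero_mem
    rw [h1]
    simp
  · obtain ⟨g, hg, hg2⟩ := Module.Dual.exists_continuous_extension_of_le_seminorm_real
      (Submodule.span ℝ {x})
      ((qsn Y x) • (LinearEquiv.coord ℝ (XX Ω) x hx0 : (Submodule.span ℝ {x}) →ₗ[ℝ] ℝ)) hpc (by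
        rintro ⟨z, hz⟩
        obtain ⟨c, rfl⟩ := Submodule.mem_span_singleton.1 hz
        have h1 : LinearEquiv.coord ℝ (XX Ω) x hx0 ⟨c • x, hz⟩ = c := by
          have h2 : (⟨c • x, hz⟩ : Submodule.span ℝ {x}) =
              c • ⟨x, Submodule.mem_span_singleton_self x⟩ := rfl
          rw [h2, map_smul, LinearEquiv.coord_self, smul_eq_mul, mul_one]
        rw [LinearMap.smul_apply, LinearEquiv.coe_coe, h1, smul_eq_mul]
        change _ ≤ qsn Y (c • x)
        rw [map_smul_eq_mul, Real.norm_eq_abs]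
        nlinarith [apply_nonneg (qsn Y) x, le_abs_self c])
    obtain ⟨a, ha, rfl⟩ := rep g
    refine ⟨a, ha, fun y hy => ?_, ?_, ?_⟩
    · have h1 := hg2 y
      rw [qsn_ap, Metric.infDist_zero_of_mem hy] at h1
      exact abs_nonpos_iff.1 h1
    · rw [← JJ_norm ha]
      refine opNorm_le_of_unit _ _ fun z hz => ?_
      have h1 := hg2 z
      rw [qsn_ap] at h1
      have h2 := Metric.infDist_le_dist_of_mem (x := z)
        (Y.zero_mem : (0 : XX Ω) ∈ (Y : Set (XX Ω)))
      rw [dist_zero_right] at h2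
      have h4 := le_abs_self ((JJ a ha) z)
      linarith
    · have h1 := hg ⟨x, Submodule.mem_span_singleton_self x⟩
      rw [LinearMap.smul_apply, LinearEquiv.coe_coe, LinearEquiv.coord_self, smul_eq_mul, mul_one,
        qsn_ap] at h1
      exact h1

/-- approximation of functionals living near a limit point -/
theorem near_limit (a : Ω → ℝ) (ha : Summable a) (ha1 : ∑' t, |a t| ≤ 1) (c l : Ω) (x : XX Ω)
    (θ : ℝ) (hsupp : ∀ t, a t ≠ 0 → t ≤ c ∧ |x t - x l| ≤ θ) (hθ : 0 ≤ θ) :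
    |∑' t, a t * x t - x l * ∑' t, a t * ss c t| ≤ θ := by
  have h1 : ∑' t, a t * x t - x l * ∑' t, a t * ss c t = ∑' t, a t * (x - x l • ss c) t := by
    rw [← tsum_mul_left, ← Summable.tsum_sub (summ_mul ha x) ((summ_mul ha (ss c)).mul_left _)]
    refine tsum_congr fun t => ?_
    rw [XX.sub_ap, XX.smul_ap]; ring
  rw [h1]
  have h2 := tsum_mul_le ha (x - x l • ss c) θ (fun t ht => by
    rw [XX.sub_ap, XX.smul_ap, ss_ap, if_pos (hsupp t ht).1, mul_one]
    exact (hsupp t ht).2)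
  have h3 : (∑' t, |a t|) * θ ≤ 1 * θ := mul_le_mul_of_nonneg_right ha1 hθ
  linarith

theorem case1 (Y : Submodule ℝ (XX Ω)) (hY : IsClosed (Y : Set (XX Ω))) (η : Ω)
    (hη : ∀ t ∈ AA Y, t ≤ η) :
    ∃ p : Seminorm ℝ (XX Ω),
      (∃ c C : ℝ, 0 < c ∧ ∀ x : XX Ω,
        c * Metric.infDist x (Y : Set (XX Ω)) ≤ p x ∧
          p x ≤ C * Metric.infDist x (Y : Set (XX Ω))) ∧
      ∀ x : XX Ω, x ∉ Y → DifferentiableAt ℝ (fun z : XX Ω => p z) x := by
  set C : Set Ω := GG Y ∩ Ioi η with hC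
  have hCu : Unb C := (GG_unb Y).inter (GG_cl Y) (unb_Ioi η) (isCl_Ioi η)
  have hCc : IsCl C := (GG_cl Y).inter (isCl_Ioi η)
  -- block index
  have hπ : ∀ t : Ω, ∃ c : Ω, (c ∈ C ∧ t < c) ∧ ∀ u, u < c → ¬ (u ∈ C ∧ t < u) := fun t =>
    exists_least (fun c => c ∈ C ∧ t < c) (hCu t)
  choose π hπ1 hπ2 using hπ
  let π' : Ω → C := fun t => ⟨π t, (hπ1 t).1⟩
  have hfib : ∀ c : C, ∀ t, t ∈ π' ⁻¹' {c} ↔ t < c ∧ ∀ d ∈ C, d < (c : Ω) → d ≤ t := by
    intro c t
    constructor
    · intro ht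
      have ht' : π t = c := congrArg Subtype.val ht
      refine ⟨ht' ▸ (hπ1 t).2, fun d hd hdc => ?_⟩
      by_contra hcon
      push Not at hcon
      exact hπ2 t d (by rw [ht']; exact hdc) ⟨hd, hcon⟩
    · rintro ⟨h1, h2⟩
      apply Subtype.ext
      change π t = c
      rcases lt_trichotomy (π t) c with h | h | h
      · exact absurd (hπ1 t).2 (not_lt.2 (h2 _ (hπ1 t).1 h))
      · exact h
      · exact absurd ⟨c.2, h1⟩ (hπ2 t c h)
  have hAnn : ∀ (a : Ω → ℝ), Summable a → Ann Y a → ∀ c : C,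
      Ann Y ((π' ⁻¹' {c}).indicator a) := by
    intro a ha haY c y hy
    rcases pred_cases hCc (c : Ω) with h | ⟨m, hm, hmc, h⟩ | ⟨-, h⟩
    · have : (π' ⁻¹' {c}).indicator a = (Iio (c : Ω)).indicator a := by
        congr 1
        ext t
        rw [hfib]
        exact ⟨fun h1 => h1.1, fun h1 => ⟨h1, fun d hd hdc => absurd hdc (h d hd)⟩⟩
      rw [this]
      exact Ann_restrict Y c.2.1 ha haY y hy
    · have e : ∀ t, (π' ⁻¹' {c}).indicator a t =
          (Iio (c : Ω)).indicator a t - (Iio m).indicator a t := by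
        intro t
        by_cases h1 : t < m
        · have h2 : t < (c : Ω) := h1.trans hmc
          rw [indicator_of_mem (show t ∈ Iio (c : Ω) from h2),
            indicator_of_mem (show t ∈ Iio m from h1), sub_self, indicator_of_notMem]
          rw [hfib]
          exact fun h3 => not_lt.2 (h3.2 m hm hmc) h1
        · rw [indicator_of_notMem (show t ∉ Iio m from h1), sub_zero]
          by_cases h2 : t < (c : Ω)
          · rw [indicator_of_mem (show t ∈ Iio (c : Ω) from h2), indicator_of_mem]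
            rw [hfib]
            exact ⟨h2, fun d hd hdc => (h d hd hdc).trans (not_lt.1 h1)⟩
          · rw [indicator_of_notMem (show t ∉ Iio (c : Ω) from h2), indicator_of_notMem]
            rw [hfib]
            exact fun h3 => h2 h3.1
      simp only [e, sub_mul]
      rw [Summable.tsum_sub (summ_mul (ha.indicator _) y) (summ_mul (ha.indicator _) y),
        Ann_restrict Y c.2.1 ha haY y hy, Ann_restrict Y hm.1 ha haY y hy, sub_zero]
    · have e : ∀ t, (π' ⁻¹' {c}).indicator a t = 0 := by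
        intro t
        rw [indicator_of_notMem]
        rw [hfib]
        rintro ⟨h1, h2⟩
        obtain ⟨d, hd, h3, h4⟩ := h t h1
        exact not_lt.2 (h2 d hd h4) h3
      simp [e]
  -- the weak-star closed pieces
  set K : C → Set Ω := fun c => {t | t ≤ c ∧ ∀ d ∈ C, d < (c : Ω) → d ≤ t} with hK
  set W : C → Set (XX Ω) := fun c => (Y : Set (XX Ω)) ∪ {x | ∀ t ∈ K c, x t = 0} with hW
  have hsupp : ∀ (c : C) (a : Ω → ℝ) (ha : Summable a), JJ a ha ∈ annih (W c) →
      ∀ t, a t ≠ 0 → t ∈ K c := by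
    intro c a ha haV t ht
    by_contra htK
    apply ht
    have hz : ∀ x : XX Ω, (∀ t ∈ K c, x t = 0) → ∑' t, a t * x t = 0 := fun x hx =>
      haV x (Or.inr hx)
    by_cases h1 : t ≤ c
    · have h2 : ∃ d ∈ C, d < (c : Ω) ∧ t < d := by
        by_contra hcon
        push Not at hcon
        exact htK ⟨h1, hcon⟩
      obtain ⟨d, hd, hdc, htd⟩ := h2
      exact zero_below ha (K c) t (fun u hu => htd.trans_le (hu.2 d hd hdc)) hz
    · exact zero_above ha (K c) c t (not_le.1 h1) (fun u hu => hu.1) hz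
  refine assembly (T := Empty) Y hY (fun c : C => annih (W c)) W (fun c f => mem_annih _ _)
    (fun c => annih_sep _ (K c) c (fun t ht => ht.1) fun x hx => Or.inr hx)
    (fun c f hf y hy => hf y (Or.inl hy)) ?_ Empty.elim (fun t => t.elim) (fun t => t.elim)
    Empty.elim (fun x ε _ => Set.toFinite _) (fun x _ => Or.inl ⟨0, one_pos, fun t => t.elim⟩)
    1 one_pos ?_
  · -- smallness
    intro x ε hε
    by_contra hinf
    set S : Set Ω := Subtype.val '' {i : C | ∃ f ∈ annih (W i), ‖f‖ ≤ 1 ∧ ε ≤ f x} with hS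
    have hSinf : S.Infinite := Set.Infinite.image Subtype.val_injective.injOn hinf
    obtain ⟨l, hl1, hl2⟩ := acc S hSinf
    have hSC : ∀ c ∈ S, c ∈ C := by
      rintro _ ⟨c, -, rfl⟩
      exact c.2
    have hlC : l ∈ C := hCc l hl1 fun μ hμ => by
      obtain ⟨c1, hc1, c2, hc2, h1, h2, h3⟩ := hl2 μ hμ
      exact ⟨c1, hSC c1 hc1, h1, h2.trans h3⟩
    have hlA : l ∈ AA Y := by
      intro y hy
      by_contra hyl
      have hyp : 0 < |y l| := abs_pos.2 hyl
      set θ : ℝ := ε * |y l| / (2 * (|x l| + |y l| + 1)) with hθ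
      have hθpos : 0 < θ := by positivity
      obtain ⟨μ0, hμ0⟩ := hl1
      obtain ⟨μ1, h01, hμ1, hLx⟩ := left_cont x l μ0 hμ0 hθpos
      obtain ⟨μ, h12, hμ, hLy⟩ := left_cont y l μ1 hμ1 hθpos
      obtain ⟨c1, hc1, c2, hc2, h1, h2, h3⟩ := hl2 μ hμ
      obtain ⟨c, ⟨f, hf, hf1, hfx⟩, rfl⟩ := hc2
      obtain ⟨a, ha, rfl⟩ := rep f
      rw [JJ_norm] at hf1
      have hsp : ∀ t, a t ≠ 0 → t ≤ (c : Ω) ∧ μ < t := by
        intro t ht
        have h4 := hsupp c a ha hf t ht
        exact ⟨h4.1, h1.trans_le (h4.2 c1 (hSC c1 hc1) h2)⟩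
      have ex := near_limit a ha hf1 c l x θ (fun t ht => ⟨(hsp t ht).1,
        (hLx t (h12.trans_lt (hsp t ht).2) ((hsp t ht).1.trans h3.le)).le⟩) hθpos.le
      have ey := near_limit a ha hf1 c l y θ (fun t ht => ⟨(hsp t ht).1,
        (hLy t (hsp t ht).2 ((hsp t ht).1.trans h3.le)).le⟩) hθpos.le
      have hfy : ∑' t, a t * y t = 0 := hf y (Or.inl hy)
      have hfx' : ε ≤ ∑' t, a t * x t := hfx
      set m := ∑' t, a t * ss (c : Ω) t with hm
      rw [hfy, zero_sub, abs_neg, abs_mul] at ey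
      have h5 : |x l * m| ≥ ε - θ := by
        have h6 := (abs_le.1 ex).2
        have h7 := le_abs_self (x l * m)
        linarith
      rw [abs_mul] at h5
      -- contradiction
      have h6 : (ε - θ) * |y l| ≤ |x l| * θ := by
        calc (ε - θ) * |y l| ≤ (|x l| * |m|) * |y l| := mul_le_mul_of_nonneg_right h5 hyp.le
          _ = |x l| * (|y l| * |m|) := by ring
          _ ≤ |x l| * θ := mul_le_mul_of_nonneg_left ey (abs_nonneg _)
      have h7 : θ * (|x l| + |y l| + 1) = ε * |y l| / 2 := by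
        rw [hθ]
        have : (0 : ℝ) < |x l| + |y l| + 1 := by positivity
        field_simp
      nlinarith
    exact absurd (hη l hlA) (not_le.2 hlC.2)
  · -- norming
    intro x r hr _ hf
    obtain ⟨a, ha, haY, ha1, hax⟩ := exists_dist_functional Y x
    rw [← hax]
    have h1 := block_sum π' ha x r (fun c => by
      set b := (π' ⁻¹' {c}).indicator a with hb
      have hbs : Summable b := ha.indicator _
      have hbV : JJ b hbs ∈ annih (W c) := by
        rintro w (hw | hw)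
        · exact hAnn a ha haY c w hw
        · rw [JJ_ap]
          have : ∀ t, b t * w t = 0 := by
            intro t
            by_cases ht : t ∈ π' ⁻¹' {c}
            · have h2 := (hfib c t).1 ht
              rw [hw t ⟨h2.1.le, h2.2⟩, mul_zero]
            · rw [hb, indicator_of_notMem ht, zero_mul]
          simp [this]
      have h2 := annih_scale (W c) x r (hf c) _ hbV
      rw [JJ_norm hbs] at h2
      exact h2)
    have h2 : r * ∑' t, |a t| ≤ r * 1 := mul_le_mul_of_nonneg_left ha1 hr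
    linarith

theorem case2 (Y : Submodule ℝ (XX Ω)) (hY : IsClosed (Y : Set (XX Ω))) (hA : Unb (AA Y)) :
    ∃ p : Seminorm ℝ (XX Ω),
      (∃ c C : ℝ, 0 < c ∧ ∀ x : XX Ω,
        c * Metric.infDist x (Y : Set (XX Ω)) ≤ p x ∧
          p x ≤ C * Metric.infDist x (Y : Set (XX Ω))) ∧
      ∀ x : XX Ω, x ∉ Y → DifferentiableAt ℝ (fun z : XX Ω => p z) x := by
  set C : Set Ω := GG Y ∩ AA Y with hC
  have hCu : Unb C := (GG_unb Y).inter (GG_cl Y) hA (AA_cl Y)
  have hCc : IsCl C := (GG_cl Y).inter (AA_cl Y)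
  have hπ : ∀ t : Ω, ∃ c : Ω, (c ∈ C ∧ t ≤ c) ∧ ∀ u, u < c → ¬ (u ∈ C ∧ t ≤ u) := fun t =>
    exists_least (fun c => c ∈ C ∧ t ≤ c) (by
      obtain ⟨c, hc, h⟩ := hCu t
      exact ⟨c, hc, h.le⟩)
  choose π hπ1 hπ2 using hπ
  have hσ : ∀ t : Ω, ∃ c : Ω, (c ∈ C ∧ t < c) ∧ ∀ u, u < c → ¬ (u ∈ C ∧ t < u) := fun t =>
    exists_least (fun c => c ∈ C ∧ t < c) (hCu t)
  choose σ hσ1 hσ2 using hσ
  let π' : Ω → C := fun t => ⟨π t, (hπ1 t).1⟩
  let σ' : C → C := fun t => ⟨σ t, (hσ1 t).1⟩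
  have hfib : ∀ c : C, ∀ t, t ∈ π' ⁻¹' {c} ↔ t ≤ c ∧ ∀ d ∈ C, d < (c : Ω) → d < t := by
    intro c t
    constructor
    · intro ht
      have ht' : π t = c := congrArg Subtype.val ht
      refine ⟨ht' ▸ (hπ1 t).2, fun d hd hdc => ?_⟩
      by_contra hcon
      push Not at hcon
      exact hπ2 t d (by rw [ht']; exact hdc) ⟨hd, hcon⟩
    · rintro ⟨h1, h2⟩
      apply Subtype.ext
      change π t = c
      rcases lt_trichotomy (π t) c with h | h | h
      · exact absurd (hπ1 t).2 (not_le.2 (h2 _ (hπ1 t).1 h))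
      · exact h
      · exact absurd ⟨c.2, h1⟩ (hπ2 t c h)
  have hIic : ∀ (a : Ω → ℝ), Summable a → Ann Y a → ∀ c ∈ C, Ann Y ((Iic c).indicator a) := by
    intro a ha haY c hc y hy
    have h1 := Ann_restrict Y hc.1 ha haY y hy
    rw [← h1]
    refine tsum_congr fun t => ?_
    rcases lt_trichotomy t c with h | h | h
    · rw [indicator_of_mem (show t ∈ Iic c from h.le), indicator_of_mem (show t ∈ Iio c from h)]
    · subst h
      rw [hc.2 y hy, mul_zero, mul_zero]
    · rw [indicator_of_notMem (show t ∉ Iic c from not_le.2 h),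
        indicator_of_notMem (show t ∉ Iio c from not_lt.2 h.le)]
  have hAnn : ∀ (a : Ω → ℝ), Summable a → Ann Y a → ∀ c : C,
      Ann Y ((π' ⁻¹' {c}).indicator a) := by
    intro a ha haY c y hy
    rcases pred_cases hCc (c : Ω) with h | ⟨m, hm, hmc, h⟩ | ⟨-, h⟩
    · have : (π' ⁻¹' {c}).indicator a = (Iic (c : Ω)).indicator a := by
        congr 1
        ext t
        rw [hfib]
        exact ⟨fun h1 => h1.1, fun h1 => ⟨h1, fun d hd hdc => absurd hdc (h d hd)⟩⟩
      rw [this]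
      exact hIic a ha haY c c.2 y hy
    · have e : ∀ t, (π' ⁻¹' {c}).indicator a t =
          (Iic (c : Ω)).indicator a t - (Iic m).indicator a t := by
        intro t
        by_cases h1 : t ≤ m
        · have h2 : t ≤ (c : Ω) := h1.trans hmc.le
          rw [indicator_of_mem (show t ∈ Iic (c : Ω) from h2),
            indicator_of_mem (show t ∈ Iic m from h1), sub_self, indicator_of_notMem]
          rw [hfib]
          exact fun h3 => not_le.2 (h3.2 m hm hmc) h1
        · rw [indicator_of_notMem (show t ∉ Iic m from h1), sub_zero]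
          by_cases h2 : t ≤ (c : Ω)
          · rw [indicator_of_mem (show t ∈ Iic (c : Ω) from h2), indicator_of_mem]
            rw [hfib]
            exact ⟨h2, fun d hd hdc => (h d hd hdc).trans_lt (not_le.1 h1)⟩
          · rw [indicator_of_notMem (show t ∉ Iic (c : Ω) from h2), indicator_of_notMem]
            rw [hfib]
            exact fun h3 => h2 h3.1
      simp only [e, sub_mul]
      rw [Summable.tsum_sub (summ_mul (ha.indicator _) y) (summ_mul (ha.indicator _) y),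
        hIic a ha haY c c.2 y hy, hIic a ha haY m hm y hy, sub_zero]
    · have e : ∀ t, (π' ⁻¹' {c}).indicator a t * y t = 0 := by
        intro t
        by_cases ht : t ∈ π' ⁻¹' {c}
        · obtain ⟨h1, h2⟩ := (hfib c t).1 ht
          have h3 : t = c := by
            rcases h1.lt_or_eq with h4 | h4
            · obtain ⟨d, hd, h5, h6⟩ := h t h4
              exact absurd h5 (not_lt.2 (h2 d hd h6).le)
            · exact h4
          rw [h3, c.2.2 y hy, mul_zero]
        · rw [indicator_of_notMem ht, zero_mul]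
      simp [e]
  set K : C → Set Ω := fun c => π' ⁻¹' {c} with hK
  have hcK : ∀ c : C, (c : Ω) ∈ K c := fun c => (hfib c c).2 ⟨le_rfl, fun d _ h => h⟩
  set W : C → Set (XX Ω) := fun c =>
    ((Y : Set (XX Ω)) ∪ {x | ∀ t ∈ K c, x t = 0}) ∪ {ss (c : Ω)} with hW
  have hsupp : ∀ (c : C) (a : Ω → ℝ) (ha : Summable a), JJ a ha ∈ annih (W c) →
      ∀ t, a t ≠ 0 → t ∈ K c := by
    intro c a ha haV t ht
    by_contra htK
    apply ht
    have hz : ∀ x : XX Ω, (∀ t ∈ K c, x t = 0) → ∑' t, a t * x t = 0 := fun x hx =>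
      haV x (Or.inl (Or.inr hx))
    by_cases h1 : t ≤ c
    · have h2 : ∃ d ∈ C, d < (c : Ω) ∧ t ≤ d := by
        by_contra hcon
        push Not at hcon
        exact htK ((hfib c t).2 ⟨h1, hcon⟩)
      obtain ⟨d, hd, hdc, htd⟩ := h2
      exact zero_below ha (K c) t (fun u hu => htd.trans_lt (((hfib c u).1 hu).2 d hd hdc)) hz
    · exact zero_above ha (K c) c t (not_le.1 h1) (fun u hu => ((hfib c u).1 hu).1) hz
  refine assembly (T := C) Y hY (fun c : C => annih (W c)) W (fun c f => mem_annih _ _)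
    (fun c => annih_sep _ (K c) c (fun t ht => ((hfib c t).1 ht).1) fun x hx => Or.inl (Or.inr hx))
    (fun c f hf y hy => hf y (Or.inl (Or.inl hy))) ?_ (fun c => dl (c : Ω)) (fun t => dl_norm _)
    (fun t y hy => t.2.2 y hy) σ' ?_ ?_ 3 (by norm_num) ?_
  · -- smallness of the pieces
    intro x ε hε
    by_contra hinf
    set S : Set Ω := Subtype.val '' {i : C | ∃ f ∈ annih (W i), ‖f‖ ≤ 1 ∧ ε ≤ f x} with hS
    have hSinf : S.Infinite := Set.Infinite.image Subtype.val_injective.injOn hinf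
    obtain ⟨l, hl1, hl2⟩ := acc S hSinf
    have hSC : ∀ c ∈ S, c ∈ C := by
      rintro _ ⟨c, -, rfl⟩
      exact c.2
    obtain ⟨μ0, hμ0⟩ := hl1
    obtain ⟨μ, -, hμ, hLx⟩ := left_cont x l μ0 hμ0 (half_pos hε)
    obtain ⟨c1, hc1, c2, hc2, h1, h2, h3⟩ := hl2 μ hμ
    obtain ⟨c, ⟨f, hf, hf1, hfx⟩, rfl⟩ := hc2
    obtain ⟨a, ha, rfl⟩ := rep f
    rw [JJ_norm] at hf1
    have hsp : ∀ t, a t ≠ 0 → t ≤ (c : Ω) ∧ μ < t := by
      intro t ht
      have h4 := (hfib c t).1 (hsupp c a ha hf t ht)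
      exact ⟨h4.1, h1.trans (h4.2 c1 (hSC c1 hc1) h2)⟩
    have ex := near_limit a ha hf1 c l x (ε / 2) (fun t ht => ⟨(hsp t ht).1,
      (hLx t (hsp t ht).2 ((hsp t ht).1.trans h3.le)).le⟩) (half_pos hε).le
    have hm : ∑' t, a t * ss (c : Ω) t = 0 := hf _ (Or.inr rfl)
    have hfx' : ε ≤ ∑' t, a t * x t := hfx
    rw [hm, mul_zero, sub_zero] at ex
    have := (abs_le.1 ex).2
    linarith
  · -- smallness of increments
    intro x ε hε
    by_contra hinf
    set S : Set Ω := Subtype.val '' {t : C | ε ≤ |dl (t : Ω) x - dl ((σ' t : C) : Ω) x|} with hS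
    have hSinf : S.Infinite := Set.Infinite.image Subtype.val_injective.injOn hinf
    obtain ⟨l, hl1, hl2⟩ := acc S hSinf
    have hSC : ∀ c ∈ S, c ∈ C := by
      rintro _ ⟨c, -, rfl⟩
      exact c.2
    obtain ⟨μ0, hμ0⟩ := hl1
    obtain ⟨μ, -, hμ, hLx⟩ := left_cont x l μ0 hμ0 (half_pos hε)
    obtain ⟨c1, hc1, c2, hc2, h1, h2, h3⟩ := hl2 μ hμ
    obtain ⟨c, hc, rfl⟩ := hc1
    have hc' : ε ≤ |x (c : Ω) - x (σ c)| := hc
    have h4 : σ (c : Ω) ≤ c2 := by
      by_contra hcon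
      push Not at hcon
      exact hσ2 _ c2 hcon ⟨hSC c2 hc2, h2⟩
    have h5 : (c : Ω) < σ c := (hσ1 _).2
    have h6 := hLx c h1 (h2.trans h3).le
    have h7 := hLx (σ c) (h1.trans h5) (h4.trans h3.le)
    have h8 : x (c : Ω) - x (σ c) = (x (c : Ω) - x l) - (x (σ c) - x l) := by ring
    rw [h8] at hc'
    have := abs_sub (x (c : Ω) - x l) (x (σ c) - x l)
    linarith
  · -- maxima
    intro x hx1
    by_contra hcon
    rw [not_or] at hcon
    obtain ⟨hcon1, hcon2⟩ := hcon
    have hbig : ∀ r : ℝ, r < 1 → ∃ c ∈ C, r < |x c| := by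
      intro r hr
      by_contra hc
      push Not at hc
      exact hcon1 ⟨r, hr, fun t => hc t t.2⟩
    have hle1 : ∀ c ∈ C, |x c| ≤ 1 := fun c hc => hx1 ⟨c, hc⟩
    obtain ⟨β, hβ⟩ := ev_zero x
    obtain ⟨l, hl1, hl2⟩ := exists_least
      (fun u => ∀ r : ℝ, r < 1 → ∃ c ∈ C, c ≤ u ∧ r < |x c|) ⟨β, fun r hr => by
        obtain ⟨c, hc, hcr⟩ := hbig (max r 0) (max_lt hr one_pos)
        refine ⟨c, hc, ?_, (le_max_left _ _).trans_lt hcr⟩
        by_contra hcb
        rw [hβ c (not_le.1 hcb), abs_zero] at hcr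
        exact not_lt.2 (le_max_right r 0) hcr⟩
    have hlC : l ∈ C := by
      by_contra hlC
      apply hlC
      refine hCc l ?_ fun μ hμ => ?_
      · obtain ⟨c, hc, hcl, -⟩ := hl1 0 one_pos
        exact ⟨c, lt_of_le_of_ne hcl fun h => hlC (h ▸ hc)⟩
      · have h1 := hl2 μ hμ
        push Not at h1
        obtain ⟨r, hr, h2⟩ := h1
        obtain ⟨c, hc, hcl, hcr⟩ := hl1 r hr
        refine ⟨c, hc, ?_, lt_of_le_of_ne hcl fun h => hlC (h ▸ hc)⟩
        by_contra hcμ
        exact not_lt.2 (h2 c hc (not_lt.1 hcμ)) hcr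
    have hl1' : |x l| = 1 := by
      refine le_antisymm (hle1 l hlC) ?_
      by_contra hlt
      push Not at hlt
      by_cases hmin : ∃ μ, μ < l
      · obtain ⟨μ0, hμ0⟩ := hmin
        obtain ⟨μ, -, hμ, hLx⟩ := left_cont x l μ0 hμ0 (show 0 < (1 - |x l|) / 2 by linarith)
        have h1 := hl2 μ hμ
        push Not at h1
        obtain ⟨r, hr, h2⟩ := h1
        obtain ⟨c, hc, hcl, hcr⟩ := hl1 (max r ((1 + |x l|) / 2)) (max_lt hr (by linarith))
        have hμc : μ < c := by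
          by_contra hcμ
          exact not_lt.2 (h2 c hc (not_lt.1 hcμ)) ((le_max_left _ _).trans_lt hcr)
        have h3 := hLx c hμc hcl
        have h4 := abs_sub_abs_le_abs_sub (x c) (x l)
        have h5 := (le_max_right r ((1 + |x l|) / 2)).trans_lt hcr
        linarith
      · obtain ⟨c, hc, hcl, hcr⟩ := hl1 |x l| hlt
        have : c = l := by
          rcases hcl.lt_or_eq with h | h
          · exact absurd ⟨c, h⟩ hmin
          · exact h
        rw [this] at hcr
        exact lt_irrefl _ hcr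
    -- the last maximiser
    have hSb : ∀ c, c ∈ C ∧ |x c| = 1 → c ≤ β := by
      rintro c ⟨-, hc⟩
      by_contra hcb
      rw [hβ c (not_le.1 hcb), abs_zero] at hc
      exact zero_ne_one hc
    obtain ⟨κ, hκ1, hκ2⟩ := exists_least (fun u => ∀ c, c ∈ C ∧ |x c| = 1 → c ≤ u) ⟨β, hSb⟩
    have hκ : κ ∈ C ∧ |x κ| = 1 := by
      by_contra hκS
      have hlk : l < κ := lt_of_le_of_ne (hκ1 l ⟨hlC, hl1'⟩) fun h => hκS (h ▸ ⟨hlC, hl1'⟩)
      have hlim : ∀ μ, μ < κ → ∃ c, (c ∈ C ∧ |x c| = 1) ∧ μ < c ∧ c < κ := by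
        intro μ hμ
        have h1 := hκ2 μ hμ
        push Not at h1
        obtain ⟨c, hc, hμc⟩ := h1
        exact ⟨c, hc, hμc, lt_of_le_of_ne (hκ1 c hc) fun h => hκS (h ▸ hc)⟩
      have hκC : κ ∈ C := hCc κ ⟨l, hlk⟩ fun μ hμ => by
        obtain ⟨c, hc, h⟩ := hlim μ hμ
        exact ⟨c, hc.1, h⟩
      have hne : |x κ| ≠ 1 := fun h => hκS ⟨hκC, h⟩
      have hlt : |x κ| < 1 := lt_of_le_of_ne (hle1 κ hκC) hne
      obtain ⟨μ, -, hμ, hLx⟩ := left_cont x κ l hlk (show 0 < 1 - |x κ| by linarith)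
      obtain ⟨c, hc, hμc, hcκ⟩ := hlim μ hμ
      have h3 := hLx c hμc hcκ.le
      have h4 := abs_sub_abs_le_abs_sub (x c) (x κ)
      rw [hc.2] at h4
      linarith
    apply hcon2
    refine ⟨⟨κ, hκ.1⟩, hκ.2, fun h => ?_⟩
    have h1 : x (σ κ) = x κ := h
    have h2 := hκ1 (σ κ) ⟨(hσ1 κ).1, by rw [h1]; exact hκ.2⟩
    exact not_lt.2 h2 (hσ1 κ).2
  · -- norming
    intro x r hr hxt hf
    obtain ⟨a, ha, haY, ha1, hax⟩ := exists_dist_functional Y x
    rw [← hax]
    have h1 := block_sum π' ha x (3 * r) (fun c => by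
      set b := (π' ⁻¹' {c}).indicator a with hb
      have hbs : Summable b := ha.indicator _
      set B := ∑' t, |b t| with hB
      set m := ∑' t, b t * ss (c : Ω) t with hm
      have hmB : |m| ≤ B := by
        have h2 := tsum_mul_le hbs (ss (c : Ω)) 1 (fun t _ => by
          rw [ss_ap]; split_ifs <;> simp)
        rwa [mul_one] at h2
      have hgV : JJ b hbs - m • dl (c : Ω) ∈ annih (W c) := by
        rintro w ((hw | hw) | hw)
        · rw [sub_apply, smul_apply, dl_ap, c.2.2 w hw, smul_zero, sub_zero]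
          exact hAnn a ha haY c w hw
        · rw [sub_apply, smul_apply, dl_ap, hw c (hcK c), smul_zero, sub_zero, JJ_ap]
          have : ∀ t, b t * w t = 0 := by
            intro t
            by_cases ht : t ∈ π' ⁻¹' {c}
            · rw [hw t ht, mul_zero]
            · rw [hb, indicator_of_notMem ht, zero_mul]
          simp [this]
        · have hw' : w = ss (c : Ω) := hw
          rw [hw', sub_apply, smul_apply, dl_ap, ss_ap, if_pos le_rfl, JJ_ap, smul_eq_mul, mul_one]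
          exact sub_self _
      have h2 := annih_scale (W c) x r (hf c) _ hgV
      have h3 : ‖JJ b hbs - m • dl (c : Ω)‖ ≤ 2 * B := by
        have h4 := norm_sub_le (JJ b hbs) (m • dl (c : Ω))
        rw [JJ_norm hbs, norm_smul, Real.norm_eq_abs] at h4
        have h5 : |m| * ‖(dl (c : Ω) : StrongDual ℝ (XX Ω))‖ ≤ |m| * 1 :=
          mul_le_mul_of_nonneg_left (dl_norm _) (abs_nonneg _)
        linarith
      rw [sub_apply, smul_apply, dl_ap, JJ_ap, smul_eq_mul] at h2
      have h4 : r * ‖JJ b hbs - m • dl (c : Ω)‖ ≤ r * (2 * B) := mul_le_mul_of_nonneg_left h3 hr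
      have h5 : m * x c ≤ B * r := by
        have h6 : |x c| ≤ r := hxt c
        calc m * x c ≤ |m * x c| := le_abs_self _
          _ = |m| * |x c| := abs_mul _ _
          _ ≤ B * r := mul_le_mul hmB h6 (abs_nonneg _) ((abs_nonneg _).trans hmB)
      linarith)
    have h2 : 3 * r * ∑' t, |a t| ≤ 3 * r * 1 := mul_le_mul_of_nonneg_left ha1 (by positivity)
    linarith

/-- every quotient of the space has a smooth norm -/
theorem quotients_smooth (Y : Submodule ℝ (XX Ω)) (hY : IsClosed (Y : Set (XX Ω))) :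
    ∃ p : Seminorm ℝ (XX Ω),
      (∃ c C : ℝ, 0 < c ∧ ∀ x : XX Ω,
        c * Metric.infDist x (Y : Set (XX Ω)) ≤ p x ∧
          p x ≤ C * Metric.infDist x (Y : Set (XX Ω))) ∧
      ∀ x : XX Ω, x ∉ Y → DifferentiableAt ℝ (fun z : XX Ω => p z) x := by
  by_cases hA : Unb (AA Y)
  · exact case2 Y hY hA
  · unfold Unb at hA
    push Not at hA
    obtain ⟨η, hη⟩ := hA
    exact case1 Y hY η hη

end Pool.Agent.FrechetQ
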