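import Pool.Agent.FrechetQ.Rotund
import Pool.Agent.FrechetQ.Cases

/-!
The space of the construction is the space of continuous functions on `[0, ω₁)` vanishing at
infinity.
-/

set_option linter.unusedSectionVars false

namespace Pool.Agent.FrechetQ

open Filter Topology Set TopologicalSpace
open scoped Cardinal ZeroAtInfty

universe u

section

variable {V : Type u} [LinearOrder V] [TopologicalSpace V] [OrderTopology V] (φ : V ≃o Om)

include φ

theorem wo_nonempty : Nonempty V :=
  ⟨φ.symm (Classical.choose (W1.bdd (∅ : Set Om) countable_empty))⟩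

theorem wo_wf : WellFoundedLT V :=
  ⟨(InvImage.wf φ (W1.wf : WellFoundedLT Om).wf).mono fun _ _ h => φ.lt_iff_lt.2 h⟩

theorem wo_succ (t : V) : ∃ s : V, t < s ∧ ∀ u, u < s → u ≤ t := by
  obtain ⟨b, hb⟩ := W1.bdd ({φ t} : Set Om) (countable_singleton _)
  obtain ⟨s, hs1, hs2⟩ := exists_least (fun s => φ t < s) ⟨b, hb (φ t) rfl⟩
  refine ⟨φ.symm s, ?_, fun u hu => ?_⟩
  · rw [← φ.lt_iff_lt, φ.apply_symm_apply]; exact hs1
  · rw [← φ.lt_iff_lt, φ.apply_symm_apply] at hu
    exact φ.le_iff_le.1 (not_lt.1 (hs2 _ hu))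

theorem isOpen_Iic_wo (t : V) : IsOpen (Iic t) := by
  obtain ⟨s, hs1, hs2⟩ := wo_succ φ t
  have : Iic t = Iio s := by
    ext u
    exact ⟨fun h => lt_of_le_of_lt h hs1, fun h => hs2 u h⟩
  rw [this]
  exact isOpen_Iio

theorem wo_isCompact_Iic (b : V) : IsCompact (Iic b) := by
  have key : ∀ b : V, (∀ c, c < b → IsCompact (Iic c)) → IsCompact (Iic b) := by
    intro b ih
    rw [isCompact_iff_ultrafilter_le_nhds]
    intro F hF
    rw [le_principal_iff] at hF
    by_cases h : ∃ c, c < b ∧ Iic c ∈ F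
    · obtain ⟨c, hc, hcF⟩ := h
      obtain ⟨x, hx, hFx⟩ := (isCompact_iff_ultrafilter_le_nhds.1 (ih c hc)) F
        (le_principal_iff.2 hcF)
      exact ⟨x, le_trans hx hc.le, hFx⟩
    · push Not at h
      refine ⟨b, mem_Iic.2 le_rfl, ?_⟩
      rw [nhds_eq_order b]
      refine le_inf ?_ ?_
      · refine le_iInf₂ fun c hc => ?_
        rw [le_principal_iff]
        have h1 := h c hc
        rw [← Ultrafilter.compl_mem_iff_notMem, compl_Iic] at h1
        exact h1
      · refine le_iInf₂ fun c hc => ?_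
        rw [le_principal_iff]
        exact mem_of_superset hF fun t ht => mem_Iio.2 (lt_of_le_of_lt (mem_Iic.1 ht)
          (mem_Ioi.1 hc))
  exact (wo_wf φ).wf.induction (C := fun b : V => IsCompact (Iic b)) b key

/-- membership of continuous functions -/
theorem mem_span_approx (f : C₀(V, ℝ)) {ε : ℝ} (hε : 0 < ε) (b : V) :
    ∃ g ∈ Submodule.span ℝ (range (st : Om → BoundedContinuousFunction Om ℝ)),
      (∀ t : V, t ≤ b → |f t - g (φ t)| ≤ ε) ∧ ∀ t : V, b < t → g (φ t) = 0 := by
  have hwf : WellFoundedLT V := wo_wf φ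
  induction b using hwf.wf.induction with
  | _ b ih =>
    have hcont : ContinuousAt f b := f.continuous.continuousAt
    have hnb : ∀ᶠ t in 𝓝 b, |f t - f b| < ε := by
      have := (Metric.tendsto_nhds.1 hcont) ε hε
      simpa [Real.dist_eq] using this
    by_cases hmin : ∃ μ, μ < b
    · obtain ⟨μ, hμ, hμ2⟩ := exists_Ioc_subset_of_mem_nhds hnb hmin
      obtain ⟨g, hg, hg1, hg2⟩ := ih μ hμ
      refine ⟨g + (f b) • (st (φ b) - st (φ μ)), ?_, fun t ht => ?_, fun t ht => ?_⟩
      · refine Submodule.add_mem _ hg (Submodule.smul_mem _ _ (Submodule.sub_mem _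
          (Submodule.subset_span ⟨_, rfl⟩) (Submodule.subset_span ⟨_, rfl⟩)))
      · rw [BoundedContinuousFunction.add_apply, BoundedContinuousFunction.smul_apply,
          BoundedContinuousFunction.sub_apply, st_apply, st_apply,
          if_pos (φ.le_iff_le.2 ht), smul_eq_mul]
        by_cases h : t ≤ μ
        · rw [if_pos (φ.le_iff_le.2 h), sub_self, mul_zero, add_zero]
          exact hg1 t h
        · rw [if_neg (fun h' => h (φ.le_iff_le.1 h')), sub_zero, mul_one,
            hg2 t (not_le.1 h), zero_add]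
          exact (hμ2 ⟨not_le.1 h, ht⟩ : |f t - f b| < ε).le
      · rw [BoundedContinuousFunction.add_apply, BoundedContinuousFunction.smul_apply,
          BoundedContinuousFunction.sub_apply, st_apply, st_apply,
          if_neg (fun h' => not_le.2 ht (φ.le_iff_le.1 h')),
          if_neg (fun h' => not_le.2 (hμ.trans ht) (φ.le_iff_le.1 h')), hg2 t (hμ.trans ht)]
        simp
    · push Not at hmin
      refine ⟨(f b) • st (φ b), Submodule.smul_mem _ _ (Submodule.subset_span ⟨_, rfl⟩),
        fun t ht => ?_, fun t ht => ?_⟩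
      · have : t = b := le_antisymm ht (hmin t)
        subst this
        rw [BoundedContinuousFunction.smul_apply, st_apply, if_pos le_rfl, smul_eq_mul, mul_one,
          sub_self, abs_zero]
        exact hε.le
      · rw [BoundedContinuousFunction.smul_apply, st_apply,
          if_neg (fun h' => not_le.2 ht (φ.le_iff_le.1 h')), smul_zero]

/-- the bounded function on the discrete copy -/
noncomputable def toB (f : C₀(V, ℝ)) : BoundedContinuousFunction Om ℝ :=
  BoundedContinuousFunction.ofNormedAddCommGroupDiscrete (fun t => f (φ.symm t)) ‖f‖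
    (fun t => f.toBCF.norm_coe_le_norm (φ.symm t))

theorem toB_apply (f : C₀(V, ℝ)) (t : Om) : toB φ f t = f (φ.symm t) := rfl

theorem toB_mem (f : C₀(V, ℝ)) : toB φ f ∈ Xs Om := by
  change toB φ f ∈ closure (Submodule.span ℝ (range (st : Om → BoundedContinuousFunction Om ℝ)) :
    Set (BoundedContinuousFunction Om ℝ))
  rw [Metric.mem_closure_iff]
  intro ε hε
  have hz := f.zero_at_infty'
  have h1 : ∀ᶠ t in cocompact V, |f t| < ε / 2 := by
    have := (Metric.tendsto_nhds.1 hz) (ε / 2) (half_pos hε)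
    simpa [Real.dist_eq] using this
  obtain ⟨K, hK, hK2⟩ := mem_cocompact.1 h1
  have hne : Nonempty V := wo_nonempty φ
  obtain ⟨b, hb⟩ := hK.bddAbove
  obtain ⟨g, hg, hg1, hg2⟩ := mem_span_approx φ f (half_pos hε) b
  refine ⟨g, hg, ?_⟩
  rw [dist_eq_norm]
  refine lt_of_le_of_lt ?_ (half_lt_self hε)
  refine (BoundedContinuousFunction.norm_le (half_pos hε).le).2 fun t => ?_
  rw [BoundedContinuousFunction.sub_apply, toB_apply, Real.norm_eq_abs]
  by_cases h : φ.symm t ≤ b
  · have := hg1 (φ.symm t) h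
    rwa [φ.apply_symm_apply] at this
  · have h2 := hg2 (φ.symm t) (not_le.1 h)
    rw [φ.apply_symm_apply] at h2
    rw [h2, sub_zero]
    have h3 : φ.symm t ∈ Kᶜ := fun h4 => h (hb h4)
    exact (hK2 h3 : |f (φ.symm t)| < ε / 2).le

/-- the isometry -/
noncomputable def toX : C₀(V, ℝ) →ₗᵢ[ℝ] XX Om where
  toFun f := (⟨toB φ f, toB_mem φ f⟩ : XX Om)
  map_add' f g := Subtype.ext (BoundedContinuousFunction.ext fun t => rfl)
  map_smul' c f := Subtype.ext (BoundedContinuousFunction.ext fun t => rfl)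
  norm_map' f := by
    change ‖toB φ f‖ = ‖f‖
    refine le_antisymm ?_ ?_
    · exact (BoundedContinuousFunction.norm_le (norm_nonneg _)).2 fun t =>
        f.toBCF.norm_coe_le_norm (φ.symm t)
    · rw [← ZeroAtInftyContinuousMap.norm_toBCF_eq_norm]
      refine (BoundedContinuousFunction.norm_le (norm_nonneg _)).2 fun t => ?_
      have := (toB φ f).norm_coe_le_norm (φ t)
      rwa [toB_apply, φ.symm_apply_apply] at this

theorem toX_ap (f : C₀(V, ℝ)) (t : Om) : toX φ f t = f (φ.symm t) := rfl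

theorem toX_surj : Function.Surjective (toX φ) := by
  intro x
  have hcont : Continuous (fun t : V => x (φ t)) := by
    rw [continuous_iff_continuousAt]
    intro b
    rw [ContinuousAt, Metric.tendsto_nhds]
    intro ε hε
    by_cases hmin : ∃ μ, μ < b
    · obtain ⟨μ0, hμ0⟩ := hmin
      obtain ⟨μ, -, hμ, h⟩ := left_cont x (φ b) (φ μ0) (φ.lt_iff_lt.2 hμ0) hε
      have hμ' : φ.symm μ < b := by rw [← φ.lt_iff_lt, φ.apply_symm_apply]; exact hμ
      have h1 : Ioi (φ.symm μ) ∩ Iic b ∈ 𝓝 b :=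
        inter_mem (isOpen_Ioi.mem_nhds hμ') ((isOpen_Iic_wo φ b).mem_nhds (mem_Iic.2 le_rfl))
      filter_upwards [h1] with t ht
      rw [Real.dist_eq]
      refine h (φ t) ?_ (φ.le_iff_le.2 ht.2)
      have h2 : φ.symm μ < t := ht.1
      rwa [← φ.lt_iff_lt, φ.apply_symm_apply] at h2
    · push Not at hmin
      have h1 : Iic b ∈ 𝓝 b := (isOpen_Iic_wo φ b).mem_nhds (mem_Iic.2 le_rfl)
      filter_upwards [h1] with t ht
      have : t = b := le_antisymm ht (hmin t)
      rw [this, dist_self]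
      exact hε
  have hz : Tendsto (fun t : V => x (φ t)) (cocompact V) (𝓝 0) := by
    obtain ⟨b, hb⟩ := ev_zero x
    refine tendsto_const_nhds.congr' ?_
    have h1 : (Iic (φ.symm b))ᶜ ∈ cocompact V := (wo_isCompact_Iic φ _).compl_mem_cocompact
    filter_upwards [h1] with t ht
    refine (hb (φ t) ?_).symm
    have h2 : φ.symm b < t := not_le.1 ht
    rwa [← φ.lt_iff_lt, φ.apply_symm_apply] at h2
  refine ⟨⟨⟨fun t => x (φ t), hcont⟩, hz⟩, XX.ext' fun t => ?_⟩
  rw [toX_ap]
  change x (φ (φ.symm t)) = x t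
  rw [φ.apply_symm_apply]

/-- the isometric isomorphism -/
noncomputable def eX : C₀(V, ℝ) ≃ₗᵢ[ℝ] XX Om := LinearIsometryEquiv.ofSurjective (toX φ) (toX_surj φ)

end

/-- the order isomorphism between the two models of `[0, ω₁)` -/
noncomputable def isoOm : Set.Iio (Ordinal.omega 1 : Ordinal.{0}) ≃o Om :=
  (OrderIso.setCongr _ _ (by rw [Cardinal.ord_aleph])).trans
    (Ordinal.ToType.mk (o := (ℵ₁ : Cardinal.{0}).ord))

end Pool.Agent.FrechetQ
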