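import Pool.Agent.FrechetQ.Rep2

/-!
Closed unbounded sets and the closing-off argument.
-/

set_option linter.unusedSectionVars false

namespace Pool.Agent.FrechetQ

open Filter Topology Set TopologicalSpace

section order

variable {Ω : Type} [LinearOrder Ω] [W1 Ω]

theorem exists_least (p : Ω → Prop) (h : ∃ x, p x) : ∃ x, p x ∧ ∀ y, y < x → ¬ p y := by
  have hwf : WellFoundedLT Ω := W1.wf
  obtain ⟨m, hm, hm2⟩ := hwf.wf.has_min {x | p x} h
  exact ⟨m, hm, fun y hy hpy => hm2 y hpy hy⟩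

/-- closedness under increasing limits -/
def IsCl (C : Set Ω) : Prop :=
  ∀ l, (∃ μ, μ < l) → (∀ μ, μ < l → ∃ c ∈ C, μ < c ∧ c < l) → l ∈ C

/-- unboundedness -/
def Unb (C : Set Ω) : Prop := ∀ b, ∃ c ∈ C, b < c

theorem closing (φ : Ω → Ω) (b : Ω) : ∃ l, b < l ∧ ∀ μ, μ < l → φ μ < l := by
  have h1 : ∀ x : Ω, ∃ y, x < y ∧ ∀ μ, μ ≤ x → φ μ < y := by
    intro x
    obtain ⟨y, hy⟩ := W1.bdd (insert x (φ '' Iic x)) (((W1.cnt x).image φ).insert x)
    exact ⟨y, hy x (mem_insert _ _), fun μ hμ => hy _ (mem_insert_of_mem _ ⟨μ, hμ, rfl⟩)⟩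
  choose g hg1 hg2 using h1
  set s : ℕ → Ω := fun n => g^[n] b with hs
  have hs1 : ∀ n, s (n + 1) = g (s n) := fun n => Function.iterate_succ_apply' g n b
  obtain ⟨u, hu⟩ := W1.bdd (range s) (countable_range s)
  obtain ⟨l, hl1, hl2⟩ := exists_least (fun u => ∀ n, s n < u) ⟨u, fun n => hu _ ⟨n, rfl⟩⟩
  refine ⟨l, hl1 0, fun μ hμ => ?_⟩
  have h2 := hl2 μ hμ
  push Not at h2
  obtain ⟨n, hn⟩ := h2
  have h3 := hg2 (s n) μ hn
  rw [← hs1] at h3
  exact h3.trans (hl1 (n + 1))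

theorem Unb.inter {C D : Set Ω} (hC : Unb C) (hC' : IsCl C) (hD : Unb D) (hD' : IsCl D) :
    Unb (C ∩ D) := by
  intro b
  choose f hf1 hf2 using hC
  choose g hg1 hg2 using hD
  obtain ⟨l, hl1, hl2⟩ := closing (fun μ => max (f μ) (g μ)) b
  refine ⟨l, ⟨hC' l ⟨b, hl1⟩ fun μ hμ => ⟨f μ, hf1 μ, hf2 μ, ?_⟩,
    hD' l ⟨b, hl1⟩ fun μ hμ => ⟨g μ, hg1 μ, hg2 μ, ?_⟩⟩, hl1⟩
  · exact (le_max_left _ _).trans_lt (hl2 μ hμ)
  · exact (le_max_right _ _).trans_lt (hl2 μ hμ)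

theorem IsCl.inter {C D : Set Ω} (hC : IsCl C) (hD : IsCl D) : IsCl (C ∩ D) := by
  intro l hl h
  refine ⟨hC l hl fun μ hμ => ?_, hD l hl fun μ hμ => ?_⟩
  · obtain ⟨c, hc, h2⟩ := h μ hμ
    exact ⟨c, hc.1, h2⟩
  · obtain ⟨c, hc, h2⟩ := h μ hμ
    exact ⟨c, hc.2, h2⟩

theorem isCl_Ioi (η : Ω) : IsCl (Ioi η) := by
  intro l hl h
  obtain ⟨μ, hμ⟩ := hl
  obtain ⟨c, hc, -, hc2⟩ := h μ hμ
  exact lt_trans hc hc2

theorem unb_Ioi (η : Ω) : Unb (Ioi η) := by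
  intro b
  obtain ⟨c, hc⟩ := W1.bdd ({η, b} : Set Ω) (Set.toFinite _).countable
  exact ⟨c, hc η (by simp), hc b (by simp)⟩

/-- an infinite set has an accumulation point from below -/
theorem acc (S : Set Ω) (hS : S.Infinite) :
    ∃ l, (∃ μ, μ < l) ∧ ∀ μ, μ < l → ∃ c1 ∈ S, ∃ c2 ∈ S, μ < c1 ∧ c1 < c2 ∧ c2 < l := by
  have h0 : ∃ b, (S ∩ Iio b).Infinite := by
    set e := hS.natEmbedding S with he
    obtain ⟨b, hb⟩ := W1.bdd (range fun n => (e n : Ω)) (countable_range _)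
    refine ⟨b, Set.Infinite.mono ?_ (Set.infinite_range_of_injective
      (f := fun n => (e n : Ω)) (Subtype.val_injective.comp e.injective))⟩
    rintro _ ⟨n, rfl⟩
    exact ⟨(e n).2, hb _ ⟨n, rfl⟩⟩
  obtain ⟨l, hl1, hl2⟩ := exists_least (fun b => (S ∩ Iio b).Infinite) h0
  refine ⟨l, ?_, fun μ hμ => ?_⟩
  · obtain ⟨x, hx⟩ := hl1.nonempty
    exact ⟨x, hx.2⟩
  · have h1 : (S ∩ Iio μ).Finite := by
      have := hl2 μ hμ
      rwa [Set.not_infinite] at this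
    have h2 : ((S ∩ Iio l) \ (insert μ (S ∩ Iio μ))).Infinite := hl1.sdiff (h1.insert μ)
    obtain ⟨x, hx⟩ := h2.nonempty
    have h3 : (((S ∩ Iio l) \ (insert μ (S ∩ Iio μ))) \ {x}).Infinite :=
      h2.sdiff (finite_singleton x)
    obtain ⟨y, hy⟩ := h3.nonempty
    have key : ∀ z, z ∈ (S ∩ Iio l) \ (insert μ (S ∩ Iio μ)) → z ∈ S ∧ μ < z ∧ z < l := by
      rintro z ⟨⟨hz1, hz2⟩, hz3⟩
      refine ⟨hz1, ?_, hz2⟩
      rw [mem_insert_iff, not_or] at hz3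
      rcases lt_trichotomy μ z with h | h | h
      · exact h
      · exact absurd h.symm hz3.1
      · exact absurd ⟨hz1, h⟩ hz3.2
    obtain ⟨hx1, hx2, hx3⟩ := key x hx
    obtain ⟨hy1, hy2, hy3⟩ := key y hy.1
    have hxy : x ≠ y := fun h => hy.2 h.symm
    rcases lt_or_gt_of_ne hxy with h | h
    · exact ⟨x, hx1, y, hy1, hx2, h, hy3⟩
    · exact ⟨y, hy1, x, hx1, hy2, h, hx3⟩

/-- predecessors in a closed set -/
theorem pred_cases {C : Set Ω} (hC : IsCl C) (c : Ω) :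
    (∀ d ∈ C, ¬ d < c) ∨ (∃ m ∈ C, m < c ∧ ∀ d ∈ C, d < c → d ≤ m) ∨
      ((∃ μ, μ < c) ∧ ∀ μ, μ < c → ∃ d ∈ C, μ < d ∧ d < c) := by
  by_cases h1 : ∀ d ∈ C, ¬ d < c
  · exact Or.inl h1
  right
  push Not at h1
  obtain ⟨d0, hd0, hd0c⟩ := h1
  by_cases h2 : ∀ μ, μ < c → ∃ d ∈ C, μ < d ∧ d < c
  · exact Or.inr ⟨⟨d0, hd0c⟩, h2⟩
  left
  push Not at h2
  obtain ⟨μ0, hμ0, hμ02⟩ := h2
  obtain ⟨l, hl1, hl2⟩ := exists_least (fun u => ∀ d ∈ C, d < c → d ≤ u)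
    ⟨μ0, fun d hd hdc => not_lt.1 fun h => not_lt.2 (hμ02 d hd h) hdc⟩
  have hlc : l < c := by
    refine lt_of_le_of_lt (not_lt.1 fun h => hl2 μ0 h ?_) hμ0
    intro d hd hdc
    exact not_lt.1 fun h => not_lt.2 (hμ02 d hd h) hdc
  refine ⟨l, ?_, hlc, hl1⟩
  by_contra hlC
  apply hlC
  refine hC l ?_ fun μ hμ => ?_
  · exact ⟨d0, lt_of_le_of_ne (hl1 d0 hd0 hd0c) fun h => hlC (h ▸ hd0)⟩
  · have := hl2 μ hμ
    push Not at this
    obtain ⟨d, hd, hdc, hμd⟩ := this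
    exact ⟨d, hd, hμd, lt_of_le_of_ne (hl1 d hd hdc) fun h => hlC (h ▸ hd)⟩

end order

variable {Ω : Type} [LinearOrder Ω] [W1 Ω] [TopologicalSpace Ω] [DiscreteTopology Ω]

/-- the levels at which distances to `Y` are realised below -/
def GG (Y : Submodule ℝ (XX Ω)) : Set Ω :=
  {α | ∀ x : XX Ω, (∀ t, α ≤ t → x t = 0) → ∀ ε : ℝ, 0 < ε →
    ∃ y ∈ Y, (∀ t, α ≤ t → y t = 0) ∧ ‖x - y‖ ≤ Metric.infDist x (Y : Set (XX Ω)) + ε}

theorem infDist_near (Y : Submodule ℝ (XX Ω)) (x z : XX Ω) :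
    Metric.infDist z (Y : Set (XX Ω)) ≤ Metric.infDist x (Y : Set (XX Ω)) + ‖x - z‖ := by
  have h1 := Metric.infDist_le_infDist_add_dist (s := (Y : Set (XX Ω))) (x := z) (y := x)
  rwa [dist_eq_norm, norm_sub_rev] at h1

theorem closing_step (Y : Submodule ℝ (XX Ω)) (β : Ω) :
    ∃ γ : Ω, ∀ x : XX Ω, (∀ t, β < t → x t = 0) → ∀ ε : ℝ, 0 < ε →
      ∃ y ∈ Y, (∀ t, γ < t → y t = 0) ∧ ‖x - y‖ ≤ Metric.infDist x (Y : Set (XX Ω)) + ε := by
  have hsep : IsSeparable ((Submodule.span ℝ (ss '' Iic β) : Submodule ℝ (XX Ω)) : Set (XX Ω)) :=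
    ((W1.cnt β).image _).isSeparable.span
  obtain ⟨c, hc, hc2⟩ := hsep.closure
  have h1 : ∀ d : XX Ω, ∀ n : ℕ, ∃ y ∈ Y, ∃ b : Ω, (∀ t, b < t → y t = 0) ∧
      ‖d - y‖ < Metric.infDist d (Y : Set (XX Ω)) + 1 / ((n : ℝ) + 1) := by
    intro d n
    have h2 : Metric.infDist d (Y : Set (XX Ω)) <
        Metric.infDist d (Y : Set (XX Ω)) + 1 / ((n : ℝ) + 1) := by
      have : (0 : ℝ) < 1 / ((n : ℝ) + 1) := by positivity
      linarith
    obtain ⟨y, hy, hy2⟩ := (Metric.infDist_lt_iff ⟨0, Y.zero_mem⟩).1 h2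
    obtain ⟨b, hb⟩ := ev_zero y
    exact ⟨y, hy, b, hb, by rwa [dist_eq_norm] at hy2⟩
  choose y hyY b hb hy using h1
  obtain ⟨γ, hγ⟩ := W1.bdd (⋃ d ∈ c, range (b d)) (hc.biUnion fun d _ => countable_range _)
  refine ⟨γ, fun x hx ε hε => ?_⟩
  have h3 : x ∈ closure ((Submodule.span ℝ (ss '' Iic β) : Submodule ℝ (XX Ω)) : Set (XX Ω)) := by
    have := PP_dense β x
    rwa [PP_eq_self x hx] at this
  obtain ⟨d, hd, hd2⟩ := Metric.mem_closure_iff.1 (hc2 h3) (ε / 4) (by positivity)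
  obtain ⟨n, hn⟩ := exists_nat_one_div_lt (show (0 : ℝ) < ε / 4 by positivity)
  refine ⟨y d n, hyY d n, fun t ht => hb d n t ?_, ?_⟩
  · refine lt_trans (hγ _ ?_) ht
    exact mem_biUnion hd ⟨n, rfl⟩
  · rw [dist_eq_norm] at hd2
    have h4 := hy d n
    have h5 := infDist_near Y x d
    have h6 : x - y d n = (x - d) + (d - y d n) := by abel
    rw [h6]
    have h7 := norm_add_le (x - d) (d - y d n)
    linarith

theorem near_cut (x : XX Ω) (l : Ω) (hl : ∃ μ, μ < l) (hx : ∀ t, l ≤ t → x t = 0) {ε : ℝ}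
    (hε : 0 < ε) : ∃ μ, μ < l ∧ ‖x - PP μ x‖ ≤ ε := by
  obtain ⟨μ0, hμ0⟩ := hl
  obtain ⟨μ, -, hμ, h⟩ := left_cont x l μ0 hμ0 hε
  refine ⟨μ, hμ, XX.norm_le hε.le fun t => ?_⟩
  rw [XX.sub_ap, PP_ap]
  by_cases h1 : t ≤ μ
  · rw [if_pos h1, sub_self, abs_zero]; exact hε.le
  · rw [if_neg h1, sub_zero]
    rcases le_or_gt t l with h2 | h2
    · have := h t (not_le.1 h1) h2
      rw [hx l le_rfl, sub_zero] at this
      exact this.le
    · rw [hx t h2.le, abs_zero]; exact hε.le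

theorem GG_aux (Y : Submodule ℝ (XX Ω)) (l : Ω) (hl : ∃ μ, μ < l)
    (h : ∀ μ, μ < l → ∀ x : XX Ω, (∀ t, μ < t → x t = 0) → ∀ ε : ℝ, 0 < ε →
      ∃ y ∈ Y, (∀ t, l ≤ t → y t = 0) ∧ ‖x - y‖ ≤ Metric.infDist x (Y : Set (XX Ω)) + ε) :
    l ∈ GG Y := by
  intro x hx ε hε
  obtain ⟨μ, hμ, hμ2⟩ := near_cut x l hl hx (show 0 < ε / 3 by positivity)
  obtain ⟨y, hy, hy2, hy3⟩ := h μ hμ (PP μ x) (fun t ht => by rw [PP_ap, if_neg (not_le.2 ht)])
    (ε / 3) (by positivity)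
  refine ⟨y, hy, hy2, ?_⟩
  have h5 := infDist_near Y x (PP μ x)
  have h6 : x - y = (x - PP μ x) + (PP μ x - y) := by abel
  rw [h6]
  have h7 := norm_add_le (x - PP μ x) (PP μ x - y)
  linarith

theorem GG_unb (Y : Submodule ℝ (XX Ω)) : Unb (GG Y) := by
  intro b
  choose φ hφ using closing_step Y
  obtain ⟨l, hl1, hl2⟩ := closing φ b
  refine ⟨l, GG_aux Y l ⟨b, hl1⟩ fun μ hμ x hx ε hε => ?_, hl1⟩
  obtain ⟨y, hy, hy2, hy3⟩ := hφ μ x hx ε hε
  exact ⟨y, hy, fun t ht => hy2 t ((hl2 μ hμ).trans_le ht), hy3⟩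

theorem GG_cl (Y : Submodule ℝ (XX Ω)) : IsCl (GG Y) := by
  intro l hl h
  refine GG_aux Y l hl fun μ hμ x hx ε hε => ?_
  obtain ⟨c, hc, hμc, hcl⟩ := h μ hμ
  obtain ⟨y, hy, hy2, hy3⟩ := hc x (fun t ht => hx t (hμc.trans_le ht)) ε hε
  exact ⟨y, hy, fun t ht => hy2 t (hcl.le.trans ht), hy3⟩

/-- common zeros -/
def AA (Y : Submodule ℝ (XX Ω)) : Set Ω := {t | ∀ y ∈ Y, y t = 0}

theorem AA_cl (Y : Submodule ℝ (XX Ω)) : IsCl (AA Y) := by
  intro l hl h y hy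
  by_contra hne
  obtain ⟨μ0, hμ0⟩ := hl
  obtain ⟨μ, -, hμ, h1⟩ := left_cont y l μ0 hμ0 (abs_pos.2 hne)
  obtain ⟨c, hc, hμc, hcl⟩ := h μ hμ
  have h2 := h1 c hμc hcl.le
  rw [hc y hy, zero_sub, abs_neg] at h2
  exact lt_irrefl _ h2

/-- annihilating families -/
def Ann (Y : Submodule ℝ (XX Ω)) (a : Ω → ℝ) : Prop := ∀ y ∈ Y, ∑' t, a t * y t = 0

/-- the quotient seminorm -/
noncomputable def qsn (Y : Submodule ℝ (XX Ω)) : Seminorm ℝ (XX Ω) :=
  (normSeminorm ℝ (XX Ω ⧸ Y)).comp Y.mkQ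

theorem qsn_ap (Y : Submodule ℝ (XX Ω)) (x : XX Ω) :
    qsn Y x = Metric.infDist x (Y : Set (XX Ω)) := by
  change ‖(Submodule.Quotient.mk x : XX Ω ⧸ Y)‖ = _
  exact QuotientAddGroup.norm_mk (S := Y.toAddSubgroup) x

theorem Ann_restrict (Y : Submodule ℝ (XX Ω)) {α : Ω} (hα : α ∈ GG Y) {a : Ω → ℝ}
    (ha : Summable a) (hY : Ann Y a) : Ann Y ((Iio α).indicator a) := by
  set N : ℝ := ∑' t, |(Iio α).indicator a t| with hN
  have hN0 : 0 ≤ N := tsum_nonneg fun _ => abs_nonneg _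
  let S : Submodule ℝ (XX Ω) :=
    { carrier := {x | ∀ t, α ≤ t → x t = 0}
      add_mem' := fun {x y} hx hy t ht => by rw [XX.add_ap, hx t ht, hy t ht, add_zero]
      zero_mem' := fun t _ => rfl
      smul_mem' := fun c x hx t ht => by rw [XX.smul_ap, hx t ht, mul_zero] }
  have hSmem : ∀ x : XX Ω, x ∈ S ↔ ∀ t, α ≤ t → x t = 0 := fun x => Iff.rfl
  have hloc : ∀ x ∈ S, ∑' t, a t * x t = ∑' t, (Iio α).indicator a t * x t := by
    intro x hx
    refine tsum_congr fun t => ?_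
    by_cases h : t < α
    · rw [indicator_of_mem (show t ∈ Iio α from h)]
    · rw [hx t (not_lt.1 h), mul_zero, mul_zero]
  have hbound : ∀ x ∈ S, ∑' t, a t * x t ≤ N * Metric.infDist x (Y : Set (XX Ω)) := by
    intro x hx
    refine le_of_forall_pos_le_add fun ε hε => ?_
    obtain ⟨y, hy, hy2, hy3⟩ := hα x hx (ε / (N + 1)) (by positivity)
    have h1 : ∑' t, a t * x t = ∑' t, a t * (x - y) t := by
      have h2 : ∑' t, a t * (x - y) t = ∑' t, a t * x t - ∑' t, a t * y t := by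
        rw [← Summable.tsum_sub (summ_mul ha x) (summ_mul ha y)]
        refine tsum_congr fun t => ?_
        rw [XX.sub_ap]; ring
      rw [h2, hY y hy, sub_zero]
    rw [h1, hloc _ (S.sub_mem hx hy2)]
    have h3 := tsum_mul_le (ha.indicator (Iio α)) (x - y) _ fun t _ => XX.abs_le (x - y) t
    have h4 : N * ‖x - y‖ ≤ N * (Metric.infDist x (Y : Set (XX Ω)) + ε / (N + 1)) :=
      mul_le_mul_of_nonneg_left hy3 hN0
    have h5 : N * (ε / (N + 1)) ≤ ε := by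
      rw [mul_div_assoc', div_le_iff₀ (by positivity)]
      nlinarith
    have h6 := le_abs_self (∑' t, (Iio α).indicator a t * (x - y) t)
    calc ∑' t, (Iio α).indicator a t * (x - y) t ≤ N * ‖x - y‖ := h6.trans h3
      _ ≤ N * Metric.infDist x (Y : Set (XX Ω)) + ε := by linarith
  set p : Seminorm ℝ (XX Ω) := N.toNNReal • qsn Y with hp
  have hpv : ∀ x, p x = N * Metric.infDist x (Y : Set (XX Ω)) := by
    intro x
    rw [hp, smul_apply, qsn_ap, NNReal.smul_def, Real.coe_toNNReal _ hN0, smul_eq_mul]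
  have hpc : Continuous p := by
    have h1 : (fun x => p x) = fun x => N * Metric.infDist x (Y : Set (XX Ω)) := funext hpv
    change Continuous fun x => p x
    rw [h1]
    exact continuous_const.mul (Metric.continuous_infDist_pt _)
  obtain ⟨g, hg, hg2⟩ := Module.Dual.exists_continuous_extension_of_le_seminorm_real S
    ((JJ a ha : XX Ω →ₗ[ℝ] ℝ).domRestrict S) hpc (by
      intro x
      rw [hpv]
      exact hbound x x.2)
  obtain ⟨b, hb, rfl⟩ := rep g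
  have hgS : ∀ x ∈ S, ∑' t, b t * x t = ∑' t, a t * x t := fun x hx => hg ⟨x, hx⟩
  have hba : ∀ t, t < α → b t = a t := by
    intro t ht
    have h1 := zero_below (hb.sub ha) (Ici α) t (fun u hu => ht.trans_le hu) (by
      intro x hx
      have h2 := hgS x hx
      have h3 : ∑' t, (b t - a t) * x t = ∑' t, b t * x t - ∑' t, a t * x t := by
        rw [← Summable.tsum_sub (summ_mul hb x) (summ_mul ha x)]
        refine tsum_congr fun t => ?_
        ring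
      rw [h3, h2, sub_self])
    linarith
  have hnorm : ∑' t, |b t| ≤ N := by
    rw [← JJ_norm hb]
    refine opNorm_le_of_unit _ _ fun x hx => ?_
    have h1 := hg2 x
    rw [hpv] at h1
    have h2 : Metric.infDist x (Y : Set (XX Ω)) ≤ 1 := by
      have := Metric.infDist_le_dist_of_mem (x := x) (Y.zero_mem : (0 : XX Ω) ∈ (Y : Set (XX Ω)))
      rw [dist_zero_right] at this
      exact this.trans hx
    have h3 : N * Metric.infDist x (Y : Set (XX Ω)) ≤ N * 1 := mul_le_mul_of_nonneg_left h2 hN0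
    have h4 := le_abs_self ((JJ b hb) x)
    linarith
  have hind : (Iio α).indicator b = (Iio α).indicator a := by
    funext t
    by_cases h : t < α
    · rw [indicator_of_mem (show t ∈ Iio α from h), indicator_of_mem (show t ∈ Iio α from h),
        hba t h]
    · rw [indicator_of_notMem (show t ∉ Iio α from h), indicator_of_notMem (show t ∉ Iio α from h)]
  have hb0 : ∀ t, α ≤ t → b t = 0 := by
    have h1 : Summable fun t => |b t| - |(Iio α).indicator b t| :=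
      hb.abs.sub (hb.indicator _).abs
    have h2 : ∀ t, 0 ≤ |b t| - |(Iio α).indicator b t| := by
      intro t
      by_cases h : t < α
      · rw [indicator_of_mem (show t ∈ Iio α from h), sub_self]
      · rw [indicator_of_notMem (show t ∉ Iio α from h)]; simp
    have h3 : ∑' t, (|b t| - |(Iio α).indicator b t|) ≤ 0 := by
      rw [Summable.tsum_sub hb.abs (hb.indicator _).abs, hind]
      linarith
    have h4 : HasSum (fun t => |b t| - |(Iio α).indicator b t|) 0 := by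
      have h5 := h1.hasSum
      rwa [le_antisymm h3 (tsum_nonneg h2)] at h5
    have h5 := (hasSum_zero_iff_of_nonneg h2).1 h4
    intro t ht
    have h6 := congrFun h5 t
    simp only [Pi.zero_apply] at h6
    rw [indicator_of_notMem (show t ∉ Iio α from not_lt.2 ht)] at h6
    simpa using h6
  have hbe : b = (Iio α).indicator a := by
    funext t
    by_cases h : t < α
    · rw [indicator_of_mem (show t ∈ Iio α from h), hba t h]
    · rw [indicator_of_notMem (show t ∉ Iio α from h), hb0 t (not_lt.1 h)]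
  intro y hy
  rw [← hbe]
  have h1 := hg2 y
  rw [hpv] at h1
  have h2 : Metric.infDist y (Y : Set (XX Ω)) = 0 := Metric.infDist_zero_of_mem hy
  rw [h2, mul_zero] at h1
  exact abs_nonpos_iff.1 h1

end Pool.Agent.FrechetQ
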