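import Mathlib

/-!
Differentiability of seminorms: a one-sided criterion, and gauges of sublevel sets of
differentiable convex functions.
-/

namespace Pool.Agent.FrechetQ

open Filter Topology Set

variable {E : Type*} [NormedAddCommGroup E] [NormedSpace ℝ E]

/-- A seminorm with a one-sided first order upper estimate is Frechet differentiable. -/
theorem hasFDerivAt_of_upper (p : Seminorm ℝ E) (L : E →L[ℝ] ℝ) (u : E)
    (h : ∀ ε : ℝ, 0 < ε → ∀ᶠ v in 𝓝 (0 : E), p (u + v) ≤ p u + L v + ε * ‖v‖) :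
    HasFDerivAt (fun z => p z) L u := by
  rw [hasFDerivAt_iff_isLittleO_nhds_zero, Asymptotics.isLittleO_iff]
  intro ε hε
  have h1 := h ε hε
  have h2 : ∀ᶠ v in 𝓝 (0 : E), p (u + (-v)) ≤ p u + L (-v) + ε * ‖-v‖ := by
    have ht : Tendsto (fun v : E => -v) (𝓝 0) (𝓝 0) := by
      have := (continuous_neg (G := E)).tendsto 0
      simpa using this
    exact ht.eventually h1
  filter_upwards [h1, h2] with v hv1 hv2
  have hconv : 2 * p u ≤ p (u + v) + p (u + (-v)) := by
    have h3 : (2 : ℝ) • u = (u + v) + (u + (-v)) := by rw [two_smul]; abel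
    have h4 : p ((2 : ℝ) • u) ≤ p (u + v) + p (u + (-v)) := by
      rw [h3]; exact map_add_le_add p _ _
    rwa [map_smul_eq_mul, Real.norm_ofNat] at h4
  rw [map_neg, norm_neg] at hv2
  rw [Real.norm_eq_abs, abs_le]
  constructor
  · linarith
  · linarith

/-- homogeneity transfers differentiability -/
theorem differentiableAt_of_smul (p : Seminorm ℝ E) {r : ℝ} (hr : 0 < r) {x : E}
    (h : DifferentiableAt ℝ (fun z => p z) (r⁻¹ • x)) : DifferentiableAt ℝ (fun z => p z) x := by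
  have h1 : (fun z => p z) = fun z => r * p (r⁻¹ • z) := by
    funext z
    rw [map_smul_eq_mul, Real.norm_of_nonneg (inv_nonneg.2 hr.le), ← mul_assoc,
      mul_inv_cancel₀ hr.ne', one_mul]
  rw [h1]
  have h2 : DifferentiableAt ℝ (fun z : E => p (r⁻¹ • z)) x :=
    DifferentiableAt.comp (g := fun z => p z) x h (differentiableAt_id.const_smul r⁻¹)
  exact h2.const_mul r

/-- Gauges of sublevel sets of differentiable convex functions. -/
theorem gauge_diff {U : Set E} {Φ : E → ℝ} (hUo : IsOpen U) (hU0 : (0 : E) ∈ U)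
    (hUs : ∀ x ∈ U, -x ∈ U) (hΦc : ConvexOn ℝ U Φ) (hΦs : ∀ x, Φ (-x) = Φ x) (hΦ0 : Φ 0 = 0)
    (hΦd : ∀ x ∈ U, DifferentiableAt ℝ Φ x)
    (hkey : ∀ u, (∀ s : ℝ, 0 ≤ s → s < 1 → s • u ∈ U ∧ Φ (s • u) ≤ 1) → u ∈ U) :
    ∃ p : Seminorm ℝ E, (∀ x, x ∈ U → Φ x ≤ 1 → p x ≤ 1) ∧
      (∀ x, p x < 1 → x ∈ U ∧ Φ x ≤ 1) ∧
      ∀ x, p x ≠ 0 → DifferentiableAt ℝ (fun z => p z) x := by
  set K : Set E := {x ∈ U | Φ x ≤ 1} with hK
  have hKc : Convex ℝ K := hΦc.convex_le 1
  have hK0 : (0 : E) ∈ K := ⟨hU0, by rw [hΦ0]; norm_num⟩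
  have hKs : ∀ x ∈ K, -x ∈ K := fun x hx => ⟨hUs x hx.1, by rw [hΦs]; exact hx.2⟩
  have hKn : K ∈ 𝓝 (0 : E) := by
    have h1 : ∀ᶠ x in 𝓝 (0 : E), Φ x < 1 := by
      have := (hΦd 0 hU0).continuousAt
      have h2 : Φ 0 < 1 := by rw [hΦ0]; norm_num
      exact this.eventually (gt_mem_nhds h2)
    filter_upwards [hUo.mem_nhds hU0, h1] with x hx hx1
    exact ⟨hx, hx1.le⟩
  have hKa : Absorbent ℝ K := absorbent_nhds_zero hKn
  have hscal : ∀ x ∈ K, ∀ a : ℝ, 0 ≤ a → a ≤ 1 → a • x ∈ K := by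
    intro x hx a ha ha1
    have := hKc hx hK0 ha (by linarith : 0 ≤ 1 - a) (by ring)
    simpa using this
  have hKb : Balanced ℝ K := by
    rw [balanced_iff_smul_mem]
    intro a ha x hx
    rw [Real.norm_eq_abs] at ha
    rcases le_total 0 a with h | h
    · exact hscal x hx a h (by rwa [abs_of_nonneg h] at ha)
    · have := hKs _ (hscal x hx (-a) (by linarith) (by rwa [abs_of_nonpos h] at ha))
      rwa [neg_smul, neg_neg] at this
  set p := gaugeSeminorm hKb hKc hKa with hp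
  have hp1 : ∀ x, x ∈ U → Φ x ≤ 1 → p x ≤ 1 := fun x hx hx1 =>
    gauge_le_one_of_mem (s := K) ⟨hx, hx1⟩
  have hp2 : ∀ x, p x < 1 → x ∈ U ∧ Φ x ≤ 1 := by
    intro x hx
    have : x ∈ K := setOfPred_gauge_lt_one_subset_self hKc hK0 hKa hx
    exact this
  refine ⟨p, hp1, hp2, ?_⟩
  -- first the points of the unit sphere
  have hsphere : ∀ u, p u = 1 → DifferentiableAt ℝ (fun z => p z) u := by
    intro u hu
    have hs : ∀ s : ℝ, 0 ≤ s → s < 1 → s • u ∈ U ∧ Φ (s • u) ≤ 1 := by
      intro s hs0 hs1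
      apply hp2
      rw [map_smul_eq_mul, hu, mul_one, Real.norm_of_nonneg hs0]
      exact hs1
    have huU : u ∈ U := hkey u hs
    have hcont : ContinuousAt Φ u := (hΦd u huU).continuousAt
    have hline : Tendsto (fun s : ℝ => s • u) (𝓝 1) (𝓝 u) := by
      have h1 : Continuous (fun s : ℝ => s • u) := continuous_id.smul continuous_const
      have := h1.tendsto 1
      simpa using this
    have hle : Φ u ≤ 1 := by
      have h1 : Tendsto (fun s : ℝ => Φ (s • u)) (𝓝[<] 1) (𝓝 (Φ u)) :=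
        (hcont.tendsto.comp hline).mono_left nhdsWithin_le_nhds
      refine le_of_tendsto h1 ?_
      have h2 : ∀ᶠ s : ℝ in 𝓝[<] 1, 0 ≤ s := by
        have : ∀ᶠ s : ℝ in 𝓝 1, 0 ≤ s := by
          filter_upwards [lt_mem_nhds (zero_lt_one (α := ℝ))] with s hs using hs.le
        exact this.filter_mono nhdsWithin_le_nhds
      filter_upwards [h2, self_mem_nhdsWithin] with s hs0 hs1
      exact (hs s hs0 hs1).2
    have hge : 1 ≤ Φ u := by
      by_contra hlt
      push Not at hlt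
      have h1 : ∀ᶠ s : ℝ in 𝓝 1, s • u ∈ U ∧ Φ (s • u) < 1 :=
        (hline.eventually (hUo.mem_nhds huU)).and
          ((hcont.tendsto.comp hline).eventually (gt_mem_nhds hlt))
      have h2 : ∀ᶠ s : ℝ in 𝓝[>] 1, s • u ∈ U ∧ Φ (s • u) < 1 := h1.filter_mono nhdsWithin_le_nhds
      obtain ⟨s, hs1, hs2⟩ := (h2.and self_mem_nhdsWithin).exists
      have hs2' : (1 : ℝ) < s := hs2
      have h3 := hp1 (s • u) hs1.1 hs1.2.le
      rw [map_smul_eq_mul, hu, mul_one, Real.norm_of_nonneg (by linarith)] at h3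
      linarith
    have hone : Φ u = 1 := le_antisymm hle hge
    set D := fderiv ℝ Φ u with hD
    have hDd : HasFDerivAt Φ D u := (hΦd u huU).hasFDerivAt
    rw [hasFDerivAt_iff_isLittleO_nhds_zero, Asymptotics.isLittleO_iff] at hDd
    have hd : 1 ≤ D u := by
      by_contra hlt
      push Not at hlt
      -- use the estimate with a small constant along the segment
      obtain ⟨ε, hε, hεu⟩ : ∃ ε : ℝ, 0 < ε ∧ D u + ε * ‖u‖ < 1 := by
        refine ⟨(1 - D u) / (2 * (‖u‖ + 1)), by have := norm_nonneg u; apply div_pos <;> linarith, ?_⟩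
        have h0 : 0 < ‖u‖ + 1 := by have := norm_nonneg u; linarith
        have h1 : (1 - D u) / (2 * (‖u‖ + 1)) * ‖u‖ ≤ (1 - D u) / 2 := by
          rw [div_mul_eq_mul_div, div_le_div_iff₀ (by positivity) (by norm_num)]
          nlinarith [norm_nonneg u]
        linarith
      have h1 := hDd hε
      have ht : Tendsto (fun s : ℝ => (s - 1) • u) (𝓝 1) (𝓝 (0 : E)) := by
        have h1 : Continuous (fun s : ℝ => (s - 1) • u) :=
          (continuous_id.sub continuous_const).smul continuous_const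
        have := h1.tendsto 1
        simpa using this
      have h2 := (ht.eventually h1).filter_mono (nhdsWithin_le_nhds (s := Iio (1 : ℝ)))
      have h3 : ∀ᶠ s : ℝ in 𝓝[<] 1, 0 ≤ s := by
        have : ∀ᶠ s : ℝ in 𝓝 1, 0 ≤ s := by
          filter_upwards [lt_mem_nhds (zero_lt_one (α := ℝ))] with s hs using hs.le
        exact this.filter_mono nhdsWithin_le_nhds
      obtain ⟨s, ⟨hs1, hs0⟩, hslt⟩ := ((h2.and h3).and self_mem_nhdsWithin).exists
      have hslt' : s < 1 := hslt
      have hsu : u + (s - 1) • u = s • u := by rw [sub_smul, one_smul]; abel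
      rw [hsu, hone, map_smul, norm_smul, Real.norm_eq_abs, abs_le, smul_eq_mul,
        Real.norm_eq_abs, abs_of_neg (by linarith : s - 1 < 0)] at hs1
      have hcv : Φ (s • u) ≤ s := by
        have := hΦc.2 huU hU0 hs0 (by linarith : 0 ≤ 1 - s) (by ring)
        simpa [hone, hΦ0] using this
      nlinarith [hs1.1]
    have hdpos : 0 < D u := by linarith
    set L : E →L[ℝ] ℝ := (D u)⁻¹ • D with hL
    refine (hasFDerivAt_of_upper p L u fun ε hε => ?_).differentiableAt
    have hLv : ∀ v, D v = D u * L v := by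
      intro v
      rw [hL, smul_apply, smul_eq_mul, ← mul_assoc, mul_inv_cancel₀ hdpos.ne',
        one_mul]
    set κ : E → ℝ := fun v => L v + ε * ‖v‖ with hκ
    have hκc : Continuous κ := L.continuous.add (continuous_const.mul continuous_norm)
    have hκ0 : κ 0 = 0 := by simp [hκ]
    set M : ℝ := 1 + (‖L‖ + ε) * ‖u‖ with hM
    have hMpos : 0 < M := by positivity
    have hκb : ∀ v, |κ v| ≤ (‖L‖ + ε) * ‖v‖ := by
      intro v
      calc |κ v| ≤ |L v| + |ε * ‖v‖| := abs_add_le _ _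
        _ ≤ ‖L‖ * ‖v‖ + ε * ‖v‖ := by
            have h1 : |L v| ≤ ‖L‖ * ‖v‖ := L.le_opNorm v
            have h2 : |ε * ‖v‖| = ε * ‖v‖ := abs_of_nonneg (by positivity)
            linarith
        _ = (‖L‖ + ε) * ‖v‖ := by ring
    set w : E → E := fun v => (1 + κ v)⁻¹ • (u + v) - u with hw
    have hwt : Tendsto w (𝓝 0) (𝓝 0) := by
      have h1 : ContinuousAt w 0 := by
        refine ContinuousAt.sub (ContinuousAt.smul ?_ ?_) continuousAt_const
        · refine ContinuousAt.inv₀ (continuousAt_const.add hκc.continuousAt) ?_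
          rw [hκ0]; norm_num
        · exact continuousAt_const.add continuousAt_id
      have h2 : w 0 = 0 := by simp [hw, hκ0]
      rw [← h2]
      have := h1.tendsto
      rwa [h2] at this ⊢
    have hε' : 0 < ε * D u / M := by positivity
    have e1 := hwt.eventually (hDd hε')
    have e2 : ∀ᶠ v in 𝓝 (0 : E), u + w v ∈ U := by
      have h1 : Tendsto (fun v => u + w v) (𝓝 0) (𝓝 (u + 0)) := hwt.const_add u
      rw [add_zero] at h1
      exact h1.eventually (hUo.mem_nhds huU)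
    have e3 : ∀ᶠ v in 𝓝 (0 : E), -1 < κ v := by
      have h1 := hκc.tendsto 0
      rw [hκ0] at h1
      exact h1.eventually (lt_mem_nhds (by norm_num))
    filter_upwards [e1, e2, e3] with v h1 h2 h3
    have hpos : 0 < 1 + κ v := by linarith
    have huw : u + w v = (1 + κ v)⁻¹ • (u + v) := by simp [hw]
    have hwform : w v = (1 + κ v)⁻¹ • (v - κ v • u) := by
      have : u = (1 + κ v)⁻¹ • ((1 + κ v) • u) := by
        rw [smul_smul, inv_mul_cancel₀ hpos.ne', one_smul]
      calc w v = (1 + κ v)⁻¹ • (u + v) - (1 + κ v)⁻¹ • ((1 + κ v) • u) := by rw [← this]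
        _ = (1 + κ v)⁻¹ • (v - κ v • u) := by
            rw [← smul_sub]
            congr 1
            rw [add_smul, one_smul]
            abel
    have hDw : D (w v) = (1 + κ v)⁻¹ * (-(ε * ‖v‖ * D u)) := by
      rw [hwform, map_smul, map_sub, map_smul, smul_eq_mul, smul_eq_mul, hLv v]
      simp only [hκ]
      ring
    have hwn : ‖w v‖ ≤ (1 + κ v)⁻¹ * (M * ‖v‖) := by
      rw [hwform, norm_smul, Real.norm_of_nonneg (inv_nonneg.2 hpos.le)]
      refine mul_le_mul_of_nonneg_left ?_ (inv_nonneg.2 hpos.le)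
      calc ‖v - κ v • u‖ ≤ ‖v‖ + ‖κ v • u‖ := norm_sub_le _ _
        _ = ‖v‖ + |κ v| * ‖u‖ := by rw [norm_smul, Real.norm_eq_abs]
        _ ≤ ‖v‖ + (‖L‖ + ε) * ‖v‖ * ‖u‖ := by
            have := mul_le_mul_of_nonneg_right (hκb v) (norm_nonneg u)
            linarith
        _ = M * ‖v‖ := by rw [hM]; ring
    have hΦle : Φ (u + w v) ≤ 1 := by
      rw [Real.norm_eq_abs, abs_le, hone] at h1
      have h4 : ε * D u / M * ‖w v‖ ≤ (1 + κ v)⁻¹ * (ε * ‖v‖ * D u) := by
        calc ε * D u / M * ‖w v‖ ≤ ε * D u / M * ((1 + κ v)⁻¹ * (M * ‖v‖)) :=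
              mul_le_mul_of_nonneg_left hwn hε'.le
          _ = (1 + κ v)⁻¹ * (ε * ‖v‖ * D u) := by field_simp
      have h5 := h1.2
      rw [hDw] at h5
      linarith
    have h6 := hp1 _ h2 hΦle
    rw [huw, map_smul_eq_mul, Real.norm_of_nonneg (inv_nonneg.2 hpos.le)] at h6
    have h7 : p (u + v) ≤ 1 + κ v := by
      rw [inv_mul_le_iff₀ hpos] at h6
      linarith
    rw [hu]
    simp only [hκ] at h7
    linarith
  intro x hx
  have hxpos : 0 < p x := lt_of_le_of_ne (apply_nonneg p x) (Ne.symm hx)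
  refine differentiableAt_of_smul p hxpos (hsphere _ ?_)
  rw [map_smul_eq_mul, Real.norm_of_nonneg (inv_nonneg.2 hxpos.le), inv_mul_cancel₀ hx]

end Pool.Agent.FrechetQ
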