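import Pool.Agent.FrechetQ.Club

/-!
No equivalent norm has a locally uniformly rotund dual norm; the concrete index set.
-/

set_option linter.unusedSectionVars false

namespace Pool.Agent.FrechetQ

open Filter Topology Set TopologicalSpace
open scoped Cardinal

section

variable {Ω : Type} [LinearOrder Ω] [W1 Ω] [TopologicalSpace Ω] [DiscreteTopology Ω]

/-- dual seminorm -/
noncomputable def nst (N : Seminorm ℝ (XX Ω)) (f : StrongDual ℝ (XX Ω)) : ℝ :=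
  sSup ((fun x : XX Ω => f x) '' {x : XX Ω | N x ≤ 1})

theorem nst_bound (N : Seminorm ℝ (XX Ω)) (c : ℝ) (hc : 0 < c) (hN : ∀ x, c * ‖x‖ ≤ N x)
    (f : StrongDual ℝ (XX Ω)) (x : XX Ω) (hx : N x ≤ 1) : f x ≤ ‖f‖ / c := by
  have h1 : c * ‖x‖ ≤ 1 := (hN x).trans hx
  have h2 := f.le_opNorm x
  rw [Real.norm_eq_abs] at h2
  have h4 := le_abs_self (f x)
  rw [le_div_iff₀ hc]
  have h5 : f x * c ≤ (‖f‖ * ‖x‖) * c := mul_le_mul_of_nonneg_right (h4.trans h2) hc.le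
  have h6 : (‖f‖ * ‖x‖) * c = ‖f‖ * (c * ‖x‖) := by ring
  have h7 : ‖f‖ * (c * ‖x‖) ≤ ‖f‖ * 1 := mul_le_mul_of_nonneg_left h1 (norm_nonneg _)
  linarith

theorem nst_bdd (N : Seminorm ℝ (XX Ω)) (c : ℝ) (hc : 0 < c) (hN : ∀ x, c * ‖x‖ ≤ N x)
    (f : StrongDual ℝ (XX Ω)) :
    BddAbove ((fun x : XX Ω => f x) '' {x : XX Ω | N x ≤ 1}) := by
  refine ⟨‖f‖ / c, ?_⟩
  rintro _ ⟨x, hx, rfl⟩
  exact nst_bound N c hc hN f x hx

theorem nst_ne (N : Seminorm ℝ (XX Ω)) (f : StrongDual ℝ (XX Ω)) :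
    ((fun x : XX Ω => f x) '' {x : XX Ω | N x ≤ 1}).Nonempty :=
  ⟨f 0, 0, by change N 0 ≤ 1; rw [map_zero]; exact zero_le_one, rfl⟩

theorem le_nst (N : Seminorm ℝ (XX Ω)) (c : ℝ) (hc : 0 < c) (hN : ∀ x, c * ‖x‖ ≤ N x)
    (f : StrongDual ℝ (XX Ω)) (x : XX Ω) (hx : N x ≤ 1) : f x ≤ nst N f :=
  le_csSup (nst_bdd N c hc hN f) ⟨x, hx, rfl⟩

theorem nst_nonneg (N : Seminorm ℝ (XX Ω)) (c : ℝ) (hc : 0 < c) (hN : ∀ x, c * ‖x‖ ≤ N x)
    (f : StrongDual ℝ (XX Ω)) : 0 ≤ nst N f := by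
  have := le_nst N c hc hN f 0 (by rw [map_zero]; exact zero_le_one)
  rwa [map_zero] at this

theorem nst_le (N : Seminorm ℝ (XX Ω)) (c : ℝ) (hc : 0 < c) (hN : ∀ x, c * ‖x‖ ≤ N x)
    (f : StrongDual ℝ (XX Ω)) : nst N f ≤ ‖f‖ / c := by
  refine csSup_le (nst_ne N f) ?_
  rintro _ ⟨x, hx, rfl⟩
  exact nst_bound N c hc hN f x hx

theorem nst_add (N : Seminorm ℝ (XX Ω)) (c : ℝ) (hc : 0 < c) (hN : ∀ x, c * ‖x‖ ≤ N x)
    (f g : StrongDual ℝ (XX Ω)) : nst N (f + g) ≤ nst N f + nst N g := by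
  refine csSup_le (nst_ne N _) ?_
  rintro _ ⟨x, hx, rfl⟩
  simp only [add_apply]
  exact add_le_add (le_nst N c hc hN f x hx) (le_nst N c hc hN g x hx)

theorem exists_stable (h : Ω → ℝ) (h0 : ∀ t, 0 ≤ h t) (B : ℝ) (hB : ∀ t, h t ≤ B) :
    ∃ (S : ℝ) (μ : Ω), (∀ t, μ < t → S ≤ h t) ∧
      ∀ u, μ ≤ u → ∀ ε : ℝ, 0 < ε → ∃ t, u < t ∧ h t < S + ε := by
  have hne : ∀ μ : Ω, (h '' Ioi μ).Nonempty := by
    intro μ
    obtain ⟨t, -, ht⟩ := unb_Ioi μ μ
    exact ⟨h t, t, ht, rfl⟩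
  have hbd : ∀ μ : Ω, BddBelow (h '' Ioi μ) := fun μ => ⟨0, by rintro _ ⟨t, -, rfl⟩; exact h0 t⟩
  set s : Ω → ℝ := fun μ => sInf (h '' Ioi μ) with hs
  have hsB : ∀ μ, s μ ≤ B := by
    intro μ
    obtain ⟨_, t, ht, rfl⟩ := hne μ
    exact (csInf_le (hbd μ) ⟨t, ht, rfl⟩).trans (hB t)
  have hmono : ∀ μ ν, μ ≤ ν → s μ ≤ s ν := fun μ ν hμν =>
    csInf_le_csInf (hbd μ) (hne ν) (image_mono (Ioi_subset_Ioi hμν))
  have hrb : BddAbove (range s) := ⟨B, by rintro _ ⟨μ, rfl⟩; exact hsB μ⟩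
  obtain ⟨ω0, -⟩ := W1.bdd (∅ : Set Ω) countable_empty
  have hrn : (range s).Nonempty := ⟨_, ω0, rfl⟩
  set S := sSup (range s) with hS
  have h1 : ∀ n : ℕ, ∃ μ, S - 1 / ((n : ℝ) + 1) < s μ := by
    intro n
    have : S - 1 / ((n : ℝ) + 1) < S := by
      have : (0 : ℝ) < 1 / ((n : ℝ) + 1) := by positivity
      linarith
    obtain ⟨_, ⟨μ, rfl⟩, h⟩ := exists_lt_of_lt_csSup hrn this
    exact ⟨μ, h⟩
  choose m hm using h1
  obtain ⟨μ, hμ⟩ := W1.bdd (range m) (countable_range m)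
  have hsμ : S ≤ s μ := by
    refine le_of_forall_pos_le_add fun ε hε => ?_
    obtain ⟨n, hn⟩ := exists_nat_one_div_lt hε
    have h2 := hm n
    have h3 := hmono _ _ (hμ _ ⟨n, rfl⟩).le
    linarith
  refine ⟨S, μ, fun t ht => hsμ.trans (csInf_le (hbd μ) ⟨t, ht, rfl⟩), fun u hu ε hε => ?_⟩
  have h2 : s u ≤ S := le_csSup hrb ⟨u, rfl⟩
  obtain ⟨_, ⟨t, ht, rfl⟩, h3⟩ := exists_lt_of_csInf_lt (hne u)
    (show sInf (h '' Ioi u) < S + ε by
      have : s u < S + ε := by linarith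
      exact this)
  exact ⟨t, ht, h3⟩

theorem no_lur (N : Seminorm ℝ (XX Ω)) (c : ℝ) (hc : 0 < c) (hN : ∀ x, c * ‖x‖ ≤ N x) :
    ∃ (f : StrongDual ℝ (XX Ω)) (g : ℕ → StrongDual ℝ (XX Ω)),
      Tendsto (fun n => 2 * (nst N f) ^ 2 + 2 * (nst N (g n)) ^ 2 - (nst N (f + g n)) ^ 2)
        atTop (𝓝 0) ∧ ¬ Tendsto g atTop (𝓝 f) := by
  set h : Ω → ℝ := fun t => nst N (dl t) with hh
  obtain ⟨S, μ, hS1, hS2⟩ := exists_stable h (fun t => nst_nonneg N c hc hN _) (1 / c) (fun t =>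
    (nst_le N c hc hN _).trans (div_le_div_of_nonneg_right (dl_norm t) hc.le))
  have hstep : ∀ (n : ℕ) (u : Ω), ∃ t, u < t ∧ (μ ≤ u → h t < S + 1 / ((n : ℝ) + 1)) := by
    intro n u
    by_cases hu : μ ≤ u
    · obtain ⟨t, ht, ht2⟩ := hS2 u hu (1 / ((n : ℝ) + 1)) (by positivity)
      exact ⟨t, ht, fun _ => ht2⟩
    · exact ⟨μ, not_le.1 hu, fun h => absurd h hu⟩
  choose G hG1 hG2 using hstep
  set b : ℕ → Ω := fun n => Nat.rec μ (fun n u => G n u) n with hb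
  have hb0 : b 0 = μ := rfl
  have hbs : ∀ n, b (n + 1) = G n (b n) := fun n => rfl
  have hblt : ∀ n, b n < b (n + 1) := fun n => by rw [hbs]; exact hG1 n _
  have hbmono : StrictMono b := strictMono_nat_of_lt_succ hblt
  have hbμ : ∀ n, μ ≤ b n := fun n => by rw [← hb0]; exact hbmono.monotone (Nat.zero_le n)
  have hbh : ∀ n, h (b (n + 1)) < S + 1 / ((n : ℝ) + 1) := fun n => by
    rw [hbs]; exact hG2 n _ (hbμ n)
  obtain ⟨u, hu⟩ := W1.bdd (range b) (countable_range b)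
  obtain ⟨γ, hγ1, hγ2⟩ := exists_least (fun u => ∀ n, b n < u) ⟨u, fun n => hu _ ⟨n, rfl⟩⟩
  have hconv : ∀ x : XX Ω, Tendsto (fun n => x (b (n + 1))) atTop (𝓝 (x γ)) := by
    intro x
    rw [Metric.tendsto_atTop]
    intro ε hε
    obtain ⟨ν, -, hν, hν2⟩ := left_cont x γ (b 0) (hγ1 0) hε
    have h1 := hγ2 ν hν
    push Not at h1
    obtain ⟨n0, hn0⟩ := h1
    refine ⟨n0, fun n hn => ?_⟩
    rw [Real.dist_eq]
    refine hν2 _ ?_ (hγ1 (n + 1)).le
    exact hn0.trans_lt (hbmono (show n0 < n + 1 by omega))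
  have hSh : ∀ n, S ≤ h (b (n + 1)) := fun n => hS1 _ (by
    rw [← hb0]; exact hbmono (Nat.succ_pos n))
  have hlimh : Tendsto (fun n => h (b (n + 1))) atTop (𝓝 S) := by
    have h2 : Tendsto (fun n : ℕ => S + 1 / ((n : ℝ) + 1)) atTop (𝓝 (S + 0)) :=
      tendsto_const_nhds.add tendsto_one_div_add_atTop_nhds_zero_nat
    rw [add_zero] at h2
    exact tendsto_of_tendsto_of_tendsto_of_le_of_le tendsto_const_nhds h2 hSh
      (fun n => (hbh n).le)
  have hγS : h γ = S := by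
    refine le_antisymm ?_ (hS1 γ (hγ1 0))
    refine csSup_le (nst_ne N _) ?_
    rintro _ ⟨x, hx, rfl⟩
    refine le_of_tendsto_of_tendsto' (hconv x) hlimh fun n => ?_
    exact le_nst N c hc hN (dl (b (n + 1))) x hx
  refine ⟨dl γ, fun n => dl (b (n + 1)), ?_, ?_⟩
  · have hsum : Tendsto (fun n => nst N (dl γ + dl (b (n + 1)))) atTop (𝓝 (2 * S)) := by
      rw [Metric.tendsto_atTop]
      intro ε hε
      have e1 : ∀ᶠ n in atTop, nst N (dl γ + dl (b (n + 1))) < 2 * S + ε := by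
        have h1 : ∀ᶠ n in atTop, h (b (n + 1)) < S + ε := hlimh.eventually (gt_mem_nhds (by linarith))
        filter_upwards [h1] with n hn
        have h2 := nst_add N c hc hN (dl γ) (dl (b (n + 1)))
        have h3 : nst N (dl γ) = S := hγS
        have h4 : nst N (dl (b (n + 1))) < S + ε := hn
        linarith
      have e2 : ∀ᶠ n in atTop, 2 * S - ε < nst N (dl γ + dl (b (n + 1))) := by
        have h3 : S - ε / 3 < nst N (dl γ) := by
          have : nst N (dl γ) = S := hγS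
          linarith
        obtain ⟨_, ⟨x, hx, rfl⟩, hx2⟩ := exists_lt_of_lt_csSup (nst_ne N (dl γ)) h3
        have hx2' : S - ε / 3 < x γ := hx2
        have h4 : ∀ᶠ n in atTop, x γ - ε / 3 < x (b (n + 1)) :=
          (hconv x).eventually (lt_mem_nhds (by linarith))
        filter_upwards [h4] with n hn
        have h5 := le_nst N c hc hN (dl γ + dl (b (n + 1))) x hx
        rw [add_apply, dl_ap, dl_ap] at h5
        linarith
      obtain ⟨n0, hn0⟩ := (e1.and e2).exists_forall_of_atTop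
      refine ⟨n0, fun n hn => ?_⟩
      rw [Real.dist_eq, abs_lt]
      constructor <;> linarith [(hn0 n hn).1, (hn0 n hn).2]
    have h1 : Tendsto (fun n => 2 * (nst N (dl γ)) ^ 2 + 2 * (h (b (n + 1))) ^ 2 -
        (nst N (dl γ + dl (b (n + 1)))) ^ 2) atTop
        (𝓝 (2 * (nst N (dl γ)) ^ 2 + 2 * S ^ 2 - (2 * S) ^ 2)) :=
      ((hlimh.pow 2).const_mul 2).const_add (2 * (nst N (dl γ)) ^ 2) |>.sub (hsum.pow 2)
    have h2 : 2 * (nst N (dl γ)) ^ 2 + 2 * S ^ 2 - (2 * S) ^ 2 = 0 := by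
      have : nst N (dl γ) = S := hγS
      rw [this]; ring
    rw [h2] at h1
    exact h1
  · intro hcon
    rw [Metric.tendsto_atTop] at hcon
    obtain ⟨n, hn⟩ := hcon 1 one_pos
    have h1 := hn n le_rfl
    rw [dist_eq_norm] at h1
    have h2 := (dl (b (n + 1)) - dl γ).le_opNorm (ss (b (n + 1)))
    rw [sub_apply, dl_ap, dl_ap, ss_ap, ss_ap, if_pos le_rfl, if_neg (not_le.2 (hγ1 (n + 1))),
      sub_zero, norm_one] at h2
    have h3 : ‖(ss (b (n + 1)) : XX Ω)‖ ≤ 1 := by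
      refine XX.norm_le zero_le_one fun t => ?_
      rw [ss_ap]
      split_ifs <;> simp
    have h4 : ‖(dl (b (n + 1)) - dl γ : StrongDual ℝ (XX Ω))‖ * ‖(ss (b (n + 1)) : XX Ω)‖ ≤
        ‖(dl (b (n + 1)) - dl γ : StrongDual ℝ (XX Ω))‖ * 1 :=
      mul_le_mul_of_nonneg_left h3 (norm_nonneg _)
    linarith

end

/-- the concrete index set -/
abbrev Om : Type := (ℵ₁ : Cardinal.{0}).ord.ToType

theorem om_cnt (a : Om) : (Set.Iic a).Countable := by
  have h1 : #(Iio a) < ℵ₁ := by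
    have h := Cardinal.mk_Iio_lt a (by simp)
    rwa [Cardinal.mk_ord_toType] at h
  have h2 : (Iio a).Countable := by
    rw [← Cardinal.le_aleph0_iff_set_countable, ← Order.lt_succ_iff, Cardinal.succ_aleph0]
    exact h1
  exact (h2.insert a).mono fun t ht => by
    rcases (show t ≤ a from ht).lt_or_eq with h | h
    · exact Or.inr h
    · exact Or.inl h

instance : W1 Om where
  wf := inferInstance
  cnt := om_cnt
  bdd S hS := by
    by_contra hcon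
    push Not at hcon
    have h1 : (univ : Set Om) ⊆ ⋃ a ∈ S, Iic a := by
      intro b _
      obtain ⟨a, ha, hab⟩ := hcon b
      exact mem_biUnion ha hab
    have h2 : (univ : Set Om).Countable := (hS.biUnion fun a _ => om_cnt a).mono h1
    have h3 : #Om ≤ ℵ₀ := by
      rw [← Cardinal.mk_univ]
      exact Cardinal.le_aleph0_iff_set_countable.2 h2
    have h4 : #Om = ℵ₁ := Cardinal.mk_ord_toType ℵ₁
    rw [h4, ← Cardinal.succ_aleph0] at h3
    exact absurd h3 (not_le.2 (Order.lt_succ _))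

instance : TopologicalSpace Om := ⊥
instance : DiscreteTopology Om := ⟨rfl⟩

end Pool.Agent.FrechetQ
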