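import Pool.Agent.FrechetQ.Space

/-!
The dual space as a space of absolutely summable families.
-/

set_option linter.unusedSectionVars false

namespace Pool.Agent.FrechetQ

open Filter Topology Set TopologicalSpace

variable {Ω : Type} [LinearOrder Ω] [W1 Ω] [TopologicalSpace Ω] [DiscreteTopology Ω]

/-- evaluation -/
noncomputable def dl (t : Ω) : StrongDual ℝ (XX Ω) :=
  LinearMap.mkContinuous
    { toFun := fun x => x t
      map_add' := fun x y => rfl
      map_smul' := fun c x => rfl } 1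
    (fun x => by rw [one_mul]; exact XX.abs_le x t)

theorem dl_ap (t : Ω) (x : XX Ω) : dl t x = x t := rfl

theorem dl_norm (t : Ω) : ‖(dl t : StrongDual ℝ (XX Ω))‖ ≤ 1 :=
  LinearMap.mkContinuous_norm_le _ zero_le_one _

/-- interpolation of finitely many values -/
theorem interp (F : Finset Ω) (σ : Ω → ℝ) (hσ : ∀ t, |σ t| ≤ 1) :
    ∃ z : XX Ω, ‖z‖ ≤ 1 ∧ (∀ t ∈ F, z t = σ t) ∧ ∀ u, (∀ t ∈ F, t < u) → z u = 0 := by
  induction F using Finset.induction_on_max with
  | empty => exact ⟨0, by simp, by simp, fun u _ => rfl⟩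
  | insert a s hs ih =>
    obtain ⟨z, hz1, hz2, hz3⟩ := ih
    by_cases hne : s.Nonempty
    · set m := s.max' hne with hm
      have hma : m < a := hs m (s.max'_mem hne)
      have hle : ∀ t ∈ s, t ≤ m := fun t ht => s.le_max' t ht
      have hzm : ∀ u, m < u → z u = 0 := fun u hu => hz3 u fun t ht => (hle t ht).trans_lt hu
      have hval : ∀ u, (z + σ a • (ss a - ss m)) u =
          if u ≤ m then z u else if u ≤ a then σ a else 0 := by
        intro u
        rw [XX.add_ap, XX.smul_ap, XX.sub_ap, ss_ap, ss_ap]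
        by_cases h1 : u ≤ m
        · rw [if_pos h1, if_pos (h1.trans hma.le), if_pos h1]; ring
        · rw [if_neg h1, if_neg h1, hzm u (not_le.1 h1)]
          split_ifs <;> ring
      refine ⟨z + σ a • (ss a - ss m), ?_, ?_, ?_⟩
      · refine XX.norm_le zero_le_one fun u => ?_
        rw [hval]
        split_ifs
        · exact (XX.abs_le z u).trans hz1
        · exact hσ a
        · simp
      · intro t ht
        rw [hval]
        rcases Finset.mem_insert.1 ht with rfl | ht
        · rw [if_neg (not_le.2 hma), if_pos le_rfl]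
        · rw [if_pos (hle t ht), hz2 t ht]
      · intro u hu
        have h1 := hu a (Finset.mem_insert_self _ _)
        rw [hval, if_neg (not_le.2 (hma.trans h1)), if_neg (not_le.2 h1)]
    · rw [Finset.not_nonempty_iff_eq_empty] at hne
      subst hne
      refine ⟨σ a • ss a, ?_, ?_, ?_⟩
      · refine XX.norm_le zero_le_one fun u => ?_
        rw [XX.smul_ap, ss_ap]
        split_ifs
        · rw [mul_one]; exact hσ a
        · simp
      · intro t ht
        simp only [Finset.mem_insert, Finset.notMem_empty, or_false] at ht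
        subst ht
        rw [XX.smul_ap, ss_ap, if_pos le_rfl, mul_one]
      · intro u hu
        have h1 := hu a (Finset.mem_insert_self _ _)
        rw [XX.smul_ap, ss_ap, if_neg (not_le.2 h1), mul_zero]

theorem summ_mul {a : Ω → ℝ} (ha : Summable a) (x : XX Ω) : Summable (fun t => a t * x t) := by
  have h1 : Summable (fun t => |a t| * ‖x‖) := ha.abs.mul_right _
  refine Summable.of_norm_bounded h1 fun t => ?_
  rw [Real.norm_eq_abs, abs_mul]
  exact mul_le_mul_of_nonneg_left (XX.abs_le x t) (abs_nonneg _)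

theorem tsum_mul_le {a : Ω → ℝ} (ha : Summable a) (x : XX Ω) (C : ℝ)
    (hC : ∀ t, a t ≠ 0 → |x t| ≤ C) : |∑' t, a t * x t| ≤ (∑' t, |a t|) * C := by
  have h1 : |∑' t, a t * x t| ≤ ∑' t, |a t * x t| := by
    have := norm_tsum_le_tsum_norm (f := fun t => a t * x t) (summ_mul ha x).norm
    simpa using this
  refine h1.trans ?_
  rw [← tsum_mul_right]
  refine Summable.tsum_le_tsum (fun t => ?_) (summ_mul ha x).abs (ha.abs.mul_right _)
  rw [abs_mul]
  by_cases h0 : a t = 0
  · simp [h0]
  · exact mul_le_mul_of_nonneg_left (hC t h0) (abs_nonneg _)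

/-- the functional attached to a summable family -/
noncomputable def JJ (a : Ω → ℝ) (ha : Summable a) : StrongDual ℝ (XX Ω) :=
  LinearMap.mkContinuous
    { toFun := fun x => ∑' t, a t * x t
      map_add' := fun x y => by
        rw [← Summable.tsum_add (summ_mul ha x) (summ_mul ha y)]
        refine tsum_congr fun t => ?_
        rw [XX.add_ap]; ring
      map_smul' := fun c x => by
        rw [RingHom.id_apply, smul_eq_mul, ← tsum_mul_left]
        refine tsum_congr fun t => ?_
        rw [XX.smul_ap]; ring } (∑' t, |a t|)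
    (fun x => tsum_mul_le ha x ‖x‖ fun t _ => XX.abs_le x t)

theorem JJ_ap {a : Ω → ℝ} (ha : Summable a) (x : XX Ω) : JJ a ha x = ∑' t, a t * x t := rfl

theorem JJ_norm_le {a : Ω → ℝ} (ha : Summable a) : ‖JJ a ha‖ ≤ ∑' t, |a t| :=
  LinearMap.mkContinuous_norm_le _ (tsum_nonneg fun _ => abs_nonneg _) _

theorem JJ_norm {a : Ω → ℝ} (ha : Summable a) : ‖JJ a ha‖ = ∑' t, |a t| := by
  classical
  refine le_antisymm (JJ_norm_le ha) ?_
  refine le_of_forall_pos_le_add fun ε hε => ?_
  obtain ⟨F, hF⟩ : ∃ F : Finset Ω, ∑' t, |a t| - ε / 2 < ∑ t ∈ F, |a t| := by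
    have h1 := (ha.abs.hasSum).eventually (lt_mem_nhds (show ∑' t, |a t| - ε / 2 < ∑' t, |a t| by
      linarith))
    exact h1.exists
  obtain ⟨z, hz1, hz2, -⟩ := interp F (fun t => SignType.sign (a t)) (fun t => by
    rcases lt_trichotomy (a t) 0 with h | h | h <;> simp [h])
  have h2 : ∑' t, |a t| - JJ a ha z ≤ ε := by
    rw [JJ_ap, ← Summable.tsum_sub ha.abs (summ_mul ha z)]
    have hs : Summable (fun t => if t ∈ F then |a t| else 0) :=
      summable_of_ne_finset_zero (s := F) (fun t ht => by rw [if_neg ht])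
    have h3 : ∑' t, (|a t| - a t * z t) ≤ ∑' t, 2 * (|a t| - if t ∈ F then |a t| else 0) := by
      refine Summable.tsum_le_tsum (fun t => ?_) (ha.abs.sub (summ_mul ha z))
        ((ha.abs.sub hs).mul_left 2)
      by_cases ht : t ∈ F
      · rw [if_pos ht, hz2 t ht, self_mul_sign]; simp
      · rw [if_neg ht]
        have h4 : |a t * z t| ≤ |a t| := by
          rw [abs_mul]
          have := (XX.abs_le z t).trans hz1
          nlinarith [abs_nonneg (a t)]
        have := neg_abs_le (a t * z t)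
        linarith
    have h4 : ∑' t, 2 * (|a t| - if t ∈ F then |a t| else 0) =
        2 * (∑' t, |a t| - ∑ t ∈ F, |a t|) := by
      rw [tsum_mul_left, Summable.tsum_sub ha.abs hs]
      congr 2
      rw [tsum_eq_sum (s := F) (fun t ht => by rw [if_neg ht])]
      exact Finset.sum_congr rfl fun t ht => by rw [if_pos ht]
    linarith
  have h3 : JJ a ha z ≤ ‖JJ a ha‖ := by
    have h4 := (JJ a ha).le_opNorm z
    rw [Real.norm_eq_abs] at h4
    have h5 := le_abs_self (JJ a ha z)
    have h6 : ‖JJ a ha‖ * ‖z‖ ≤ ‖JJ a ha‖ * 1 := mul_le_mul_of_nonneg_left hz1 (norm_nonneg _)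
    linarith
  linarith

theorem opNorm_le_of_unit (g : StrongDual ℝ (XX Ω)) (C : ℝ) (h : ∀ x, ‖x‖ ≤ 1 → g x ≤ C) :
    ‖g‖ ≤ C := by
  have hC : 0 ≤ C := by
    have := h 0 (by simp)
    simpa using this
  have h' : ∀ x, ‖x‖ ≤ 1 → |g x| ≤ C := by
    intro x hx
    rw [abs_le]
    constructor
    · have := h (-x) (by rwa [norm_neg])
      rw [map_neg] at this
      linarith
    · exact h x hx
  refine ContinuousLinearMap.opNorm_le_bound _ hC fun x => ?_
  by_cases h0 : x = 0
  · simp [h0]
  · have hp : 0 < ‖x‖ := norm_pos_iff.2 h0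
    have h1 := h' (‖x‖⁻¹ • x) (by rw [norm_smul, norm_inv, norm_norm, inv_mul_cancel₀ hp.ne'])
    rw [map_smul, smul_eq_mul, abs_mul, abs_of_pos (inv_pos.2 hp), inv_mul_le_iff₀ hp] at h1
    rw [Real.norm_eq_abs]
    linarith

/-- additivity of the norm over a cut -/
theorem norm_split (f : StrongDual ℝ (XX Ω)) (b : Ω) :
    ‖f - f.comp (PP b)‖ + ‖f.comp (PP b)‖ ≤ ‖f‖ := by
  have h1 : ∀ y, ‖y‖ ≤ 1 → ‖f.comp (PP b)‖ ≤ ‖f‖ - (f - f.comp (PP b)) y := by
    intro y hy
    refine opNorm_le_of_unit _ _ fun x hx => ?_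
    have h2 : ‖PP b x + (y - PP b y)‖ ≤ 1 := by
      refine XX.norm_le zero_le_one fun t => ?_
      rw [XX.add_ap, XX.sub_ap, PP_ap, PP_ap]
      split_ifs
      · rw [sub_self, add_zero]; exact (XX.abs_le x t).trans hx
      · rw [zero_add, sub_zero]; exact (XX.abs_le y t).trans hy
    have h3 : f (PP b x + (y - PP b y)) ≤ ‖f‖ := by
      have h4 := f.le_opNorm (PP b x + (y - PP b y))
      rw [Real.norm_eq_abs] at h4
      have h5 := le_abs_self (f (PP b x + (y - PP b y)))
      have h6 : ‖f‖ * ‖PP b x + (y - PP b y)‖ ≤ ‖f‖ * 1 :=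
        mul_le_mul_of_nonneg_left h2 (norm_nonneg _)
      linarith
    rw [map_add, map_sub] at h3
    rw [sub_apply, ContinuousLinearMap.comp_apply, ContinuousLinearMap.comp_apply]
    linarith
  have h2 : ‖f - f.comp (PP b)‖ ≤ ‖f‖ - ‖f.comp (PP b)‖ :=
    opNorm_le_of_unit _ _ fun y hy => by linarith [h1 y hy]
  linarith

theorem PP_PP {b c : Ω} (h : b ≤ c) (x : XX Ω) : PP c (PP b x) = PP b x := by
  apply XX.ext'
  intro t
  rw [PP_ap]
  split_ifs with h1
  · rfl
  · rw [PP_ap, if_neg fun h2 => h1 (h2.trans h)]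

theorem PP_PP' {b c : Ω} (h : b ≤ c) (x : XX Ω) : PP b (PP c x) = PP b x := by
  apply XX.ext'
  intro t
  rw [PP_ap, PP_ap, PP_ap]
  split_ifs with h1 h2
  · rfl
  · exact absurd (h1.trans h) h2
  · rfl

theorem norm_split' (f : StrongDual ℝ (XX Ω)) {b c : Ω} (h : b ≤ c) :
    ‖f.comp (PP c) - f.comp (PP b)‖ ≤ ‖f.comp (PP c)‖ - ‖f.comp (PP b)‖ := by
  have h1 := norm_split (f.comp (PP c)) b
  have h2 : (f.comp (PP c)).comp (PP b) = f.comp (PP b) := by
    ext x
    simp only [ContinuousLinearMap.comp_apply]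
    rw [PP_PP h]
  rw [h2] at h1
  linarith

/-- the closed span of the evaluations -/
noncomputable def DD : Submodule ℝ (StrongDual ℝ (XX Ω)) :=
  (Submodule.span ℝ (range (dl : Ω → StrongDual ℝ (XX Ω)))).topologicalClosure

theorem dl_mem (t : Ω) : (dl t : StrongDual ℝ (XX Ω)) ∈ (DD : Submodule ℝ (StrongDual ℝ (XX Ω))) :=
  Submodule.le_topologicalClosure _ (Submodule.subset_span ⟨t, rfl⟩)

theorem mem_DD_of_approx (f : StrongDual ℝ (XX Ω))
    (h : ∀ ε > 0, ∃ g ∈ (DD : Submodule ℝ (StrongDual ℝ (XX Ω))), ‖f - g‖ ≤ ε) : f ∈ (DD : Submodule ℝ (StrongDual ℝ (XX Ω))) := by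
  have h1 : f ∈ closure ((DD : Submodule ℝ (StrongDual ℝ (XX Ω))) : Set (StrongDual ℝ (XX Ω))) := by
    rw [Metric.mem_closure_iff]
    intro ε hε
    obtain ⟨g, hg, hg2⟩ := h (ε / 2) (half_pos hε)
    exact ⟨g, hg, by rw [dist_eq_norm]; linarith⟩
  have h2 : IsClosed ((DD : Submodule ℝ (StrongDual ℝ (XX Ω))) : Set (StrongDual ℝ (XX Ω))) :=
    Submodule.isClosed_topologicalClosure _
  rwa [h2.closure_eq] at h1

theorem comp_mem_DD (b : Ω) (f : StrongDual ℝ (XX Ω)) : f.comp (PP b) ∈ (DD : Submodule ℝ (StrongDual ℝ (XX Ω))) := by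
  have hwf : WellFoundedLT Ω := W1.wf
  induction b using hwf.induction with
  | ind b ih =>
  by_cases hmin : ∃ c, c < b
  · refine mem_DD_of_approx _ fun ε hε => ?_
    set S : Set ℝ := (fun c => ‖f.comp (PP c)‖) '' Iio b with hS
    have hSn : S.Nonempty := by
      obtain ⟨c, hc⟩ := hmin
      exact ⟨_, c, hc, rfl⟩
    have hSb : BddAbove S := by
      refine ⟨‖f‖, ?_⟩
      rintro _ ⟨c, -, rfl⟩
      have := norm_split f c
      have h2 := norm_nonneg (f - f.comp (PP c))
      simp only
      linarith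
    obtain ⟨_, ⟨c, hc, rfl⟩, hc2⟩ := exists_lt_of_lt_csSup hSn
      (show sSup S - ε / 3 < sSup S by linarith)
    have hcb : c < b := hc
    simp only at hc2
    refine ⟨f.comp (PP c) + (f (ss b - ss c)) • dl b,
      Submodule.add_mem _ (ih c hcb) (Submodule.smul_mem _ _ (dl_mem b)), ?_⟩
    refine opNorm_le_of_unit _ _ fun x hx => ?_
    set z : XX Ω := x - x b • ss b with hz
    have hzb : z b = 0 := by
      rw [hz, XX.sub_ap, XX.smul_ap, ss_ap, if_pos le_rfl, mul_one, sub_self]
    have hzn : ‖z‖ ≤ 2 := by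
      refine XX.norm_le (by norm_num) fun t => ?_
      rw [hz, XX.sub_ap, XX.smul_ap, ss_ap]
      have h1 := (XX.abs_le x t).trans hx
      have h2 := (XX.abs_le x b).trans hx
      split_ifs
      · rw [mul_one]
        exact (abs_sub _ _).trans (by linarith)
      · rw [mul_zero, sub_zero]; linarith
    have hval : (f.comp (PP b) - (f.comp (PP c) + (f (ss b - ss c)) • dl b)) x =
        f (PP b z) - f (PP c z) := by
      have e1 : PP b z = PP b x - x b • ss b := by
        rw [hz, map_sub, map_smul, PP_ss, min_self]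
      have e2 : PP c z = PP c x - x b • ss c := by
        rw [hz, map_sub, map_smul, PP_ss, min_eq_left hcb.le]
      rw [e1, e2]
      simp only [sub_apply, add_apply, smul_apply, ContinuousLinearMap.comp_apply, dl_ap, map_sub,
        map_smul, smul_eq_mul]
      ring
    rw [hval]
    -- approximate by an earlier cut
    obtain ⟨μ, hμ1, hμ2, hμ3⟩ := left_cont z b c hcb
      (show (0 : ℝ) < ε / (3 * (‖f‖ + 1)) by have := norm_nonneg f; positivity)
    have h1 : ‖PP b z - PP μ z‖ ≤ ε / (3 * (‖f‖ + 1)) := by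
      refine XX.norm_le (by have := norm_nonneg f; positivity) fun t => ?_
      rw [XX.sub_ap, PP_ap, PP_ap]
      by_cases h2 : t ≤ μ
      · rw [if_pos h2, if_pos (h2.trans hμ2.le), sub_self, abs_zero]
        have := norm_nonneg f; positivity
      · rw [if_neg h2, sub_zero]
        split_ifs with h3
        · have := hμ3 t (not_le.1 h2) h3
          rw [hzb, sub_zero] at this
          exact this.le
        · rw [abs_zero]; have := norm_nonneg f; positivity
    have h2 : f (PP b z - PP μ z) ≤ ε / 3 := by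
      have h3 := f.le_opNorm (PP b z - PP μ z)
      rw [Real.norm_eq_abs] at h3
      have h4 : ‖f‖ * ‖PP b z - PP μ z‖ ≤ ‖f‖ * (ε / (3 * (‖f‖ + 1))) :=
        mul_le_mul_of_nonneg_left h1 (norm_nonneg _)
      have h5 : ‖f‖ * (ε / (3 * (‖f‖ + 1))) ≤ ε / 3 := by
        rw [mul_div_assoc', div_le_div_iff₀ (by have := norm_nonneg f; positivity) (by norm_num)]
        nlinarith [norm_nonneg f]
      exact (le_abs_self _).trans (h3.trans (h4.trans h5))
    have h3 : (f.comp (PP μ) - f.comp (PP c)) z ≤ 2 * (ε / 3) := by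
      have h4 := norm_split' f hμ1
      have h5 : ‖f.comp (PP μ)‖ ≤ sSup S := le_csSup hSb ⟨μ, hμ2, rfl⟩
      have h6 := (f.comp (PP μ) - f.comp (PP c)).le_opNorm z
      rw [Real.norm_eq_abs] at h6
      have h7 : ‖f.comp (PP μ) - f.comp (PP c)‖ * ‖z‖ ≤ (ε / 3) * 2 :=
        mul_le_mul (by linarith) hzn (norm_nonneg _) (by positivity)
      have h8 := le_abs_self ((f.comp (PP μ) - f.comp (PP c)) z)
      linarith
    rw [sub_apply, ContinuousLinearMap.comp_apply, ContinuousLinearMap.comp_apply] at h3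
    rw [map_sub] at h2
    linarith
  · have h1 : f.comp (PP b) = f (ss b) • dl b := by
      ext x
      rw [ContinuousLinearMap.comp_apply, smul_apply, smul_eq_mul, dl_ap]
      have h2 : PP b x = x b • ss b := by
        apply XX.ext'
        intro t
        rw [PP_ap, XX.smul_ap, ss_ap]
        split_ifs with h3
        · have h4 : t = b := by
            rcases h3.lt_or_eq with h | h
            · exact absurd ⟨t, h⟩ hmin
            · exact h
          rw [h4, mul_one]
        · rw [mul_zero]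
      rw [h2, map_smul, smul_eq_mul, mul_comm]
    rw [h1]
    exact Submodule.smul_mem _ _ (dl_mem b)

theorem PP_eq_self (x : XX Ω) {b : Ω} (h : ∀ t, b < t → x t = 0) : PP b x = x := by
  apply XX.ext'
  intro t
  rw [PP_ap]
  split_ifs with h1
  · rfl
  · exact (h t (not_le.1 h1)).symm

theorem mem_DD (f : StrongDual ℝ (XX Ω)) : f ∈ (DD : Submodule ℝ (StrongDual ℝ (XX Ω))) := by
  refine mem_DD_of_approx _ fun ε hε => ?_
  obtain ⟨x, hx, hx2⟩ : ∃ x : XX Ω, ‖x‖ ≤ 1 ∧ ‖f‖ - ε < f x := by
    by_contra hc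
    push Not at hc
    have := opNorm_le_of_unit f _ hc
    linarith
  obtain ⟨b, hb⟩ := ev_zero x
  refine ⟨f.comp (PP b), comp_mem_DD b f, ?_⟩
  have h1 := norm_split f b
  have h2 : f x ≤ ‖f.comp (PP b)‖ := by
    have h3 := (f.comp (PP b)).le_opNorm x
    rw [ContinuousLinearMap.comp_apply, PP_eq_self x hb, Real.norm_eq_abs] at h3
    have h4 : ‖f.comp (PP b)‖ * ‖x‖ ≤ ‖f.comp (PP b)‖ * 1 :=
      mul_le_mul_of_nonneg_left hx (norm_nonneg _)
    have := le_abs_self (f x)
    linarith
  linarith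

end Pool.Agent.FrechetQ
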