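import Pool.Agent.FrechetQ.Rep

/-!
Every functional is given by an absolutely summable family; supports.
-/

set_option linter.unusedSectionVars false

namespace Pool.Agent.FrechetQ

open Filter Topology Set TopologicalSpace
open scoped ENNReal

variable {Ω : Type} [LinearOrder Ω] [W1 Ω] [TopologicalSpace Ω] [DiscreteTopology Ω]

theorem lp_summable (a : lp (fun _ : Ω => ℝ) 1) : Summable (fun t => a t) := by
  have h1 := (memℓp_gen_iff (p := 1) (by norm_num)).1 (lp.memℓp a)
  simp only [ENNReal.toReal_one, Real.rpow_one] at h1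
  exact h1.of_norm

theorem lp_norm_one (a : lp (fun _ : Ω => ℝ) 1) : ‖a‖ = ∑' t, |a t| := by
  rw [lp.norm_eq_tsum_rpow (by norm_num)]
  simp only [ENNReal.toReal_one, Real.rpow_one, div_one, Real.norm_eq_abs]

/-- the isometric map from summable families -/
noncomputable def JL : lp (fun _ : Ω => ℝ) 1 →ₗᵢ[ℝ] StrongDual ℝ (XX Ω) where
  toFun a := JJ (fun t => a t) (lp_summable a)
  map_add' a b := by
    ext x
    rw [add_apply, JJ_ap, JJ_ap, JJ_ap,
      ← Summable.tsum_add (summ_mul (lp_summable a) x) (summ_mul (lp_summable b) x)]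
    refine tsum_congr fun t => ?_
    simp only [lp.coeFn_add, Pi.add_apply]
    ring
  map_smul' c a := by
    ext x
    rw [RingHom.id_apply, smul_apply, JJ_ap, JJ_ap, smul_eq_mul, ← tsum_mul_left]
    refine tsum_congr fun t => ?_
    simp only [lp.coeFn_smul, Pi.smul_apply, smul_eq_mul]
    ring
  norm_map' a := by
    change ‖JJ (fun t => a t) (lp_summable a)‖ = ‖a‖
    rw [JJ_norm, lp_norm_one]

theorem JL_ap (a : lp (fun _ : Ω => ℝ) 1) : JL a = JJ (fun t => a t) (lp_summable a) := rfl

/-- every functional comes from a summable family -/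
theorem rep (f : StrongDual ℝ (XX Ω)) : ∃ (a : Ω → ℝ) (ha : Summable a), f = JJ a ha := by
  classical
  have hcl : IsClosed (range (JL : lp (fun _ : Ω => ℝ) 1 → StrongDual ℝ (XX Ω))) :=
    (JL (Ω := Ω)).isometry.isClosedEmbedding.isClosed_range
  have hsub : (DD : Submodule ℝ (StrongDual ℝ (XX Ω))) ≤ LinearMap.range (JL (Ω := Ω)).toLinearMap := by
    refine Submodule.topologicalClosure_minimal _ (Submodule.span_le.2 ?_) ?_
    · rintro _ ⟨t, rfl⟩
      refine ⟨lp.single 1 t (1 : ℝ), ?_⟩
      ext x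
      change ∑' u, (lp.single 1 t (1 : ℝ) : lp (fun _ : Ω => ℝ) 1) u * x u = x t
      rw [tsum_eq_single t]
      · rw [lp.single_apply_self, one_mul]
      · intro u hu
        rw [lp.single_apply_ne _ _ _ hu, zero_mul]
    · have : ((LinearMap.range (JL (Ω := Ω)).toLinearMap : Submodule ℝ (StrongDual ℝ (XX Ω))) :
          Set (StrongDual ℝ (XX Ω))) = range (JL : lp (fun _ : Ω => ℝ) 1 → StrongDual ℝ (XX Ω)) := by
        ext f
        simp
      rw [this]
      exact hcl
  obtain ⟨a, ha⟩ := hsub (mem_DD f)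
  exact ⟨fun t => a t, lp_summable a, ha.symm⟩

theorem zero_of {d : Ω → ℝ} (hd : Summable d) (h : ∀ x : XX Ω, ∑' t, d t * x t = 0) (t : Ω) :
    d t = 0 := by
  have h1 : JJ d hd = 0 := by ext x; rw [JJ_ap, h x]; rfl
  have h2 := JJ_norm hd
  rw [h1, norm_zero] at h2
  have h3 : HasSum (fun t => |d t|) 0 := by
    rw [h2]; exact hd.abs.hasSum
  have h4 := (hasSum_zero_iff_of_nonneg (fun t => abs_nonneg (d t))).1 h3
  have h5 := congrFun h4 t
  simpa using h5

theorem tsum_Iic (a : Ω → ℝ) (b : Ω) (x : XX Ω) :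
    ∑' t, (Iic b).indicator a t * x t = ∑' t, a t * PP b x t := by
  refine tsum_congr fun t => ?_
  rw [PP_ap]
  by_cases h : t ≤ b
  · rw [indicator_of_mem (show t ∈ Iic b from h), if_pos h]
  · rw [indicator_of_notMem (show t ∉ Iic b from h), if_neg h, zero_mul, mul_zero]

theorem tsum_Ioi (a : Ω → ℝ) (b : Ω) (x : XX Ω) :
    ∑' t, (Ioi b).indicator a t * x t = ∑' t, a t * (x - PP b x) t := by
  refine tsum_congr fun t => ?_
  rw [XX.sub_ap, PP_ap]
  by_cases h : t ≤ b
  · rw [indicator_of_notMem (show t ∉ Ioi b from not_lt.2 h), if_pos h]; ring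
  · rw [indicator_of_mem (show t ∈ Ioi b from not_le.1 h), if_neg h]; ring

/-- values of the family on an initial segment are determined by elements supported there -/
theorem zero_below {d : Ω → ℝ} (hd : Summable d) (S : Set Ω) (t0 : Ω)
    (ht0 : ∀ t ∈ S, t0 < t) (h : ∀ x : XX Ω, (∀ t ∈ S, x t = 0) → ∑' t, d t * x t = 0) :
    d t0 = 0 := by
  have h1 := zero_of (hd.indicator (Iic t0)) (fun x => by
    rw [tsum_Iic]
    exact h _ fun t ht => by rw [PP_ap, if_neg (not_le.2 (ht0 t ht))]) t0
  rwa [indicator_of_mem (show t0 ∈ Iic t0 from le_rfl)] at h1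

theorem zero_above {d : Ω → ℝ} (hd : Summable d) (S : Set Ω) (c t0 : Ω) (hct : c < t0)
    (hc : ∀ t ∈ S, t ≤ c) (h : ∀ x : XX Ω, (∀ t ∈ S, x t = 0) → ∑' t, d t * x t = 0) :
    d t0 = 0 := by
  have h1 := zero_of (hd.indicator (Ioi c)) (fun x => by
    rw [tsum_Ioi]
    exact h _ fun t ht => by rw [XX.sub_ap, PP_ap, if_pos (hc t ht), sub_self]) t0
  rwa [indicator_of_mem (show t0 ∈ Ioi c from hct)] at h1

/-- functionals living on a countable initial segment form a separable set -/
theorem sep_initial (c : Ω) :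
    IsSeparable {f : StrongDual ℝ (XX Ω) | ∀ x, f x = f (PP c x)} := by
  have h1 : IsSeparable ((Submodule.span ℝ (dl '' Iic c) : Submodule ℝ (StrongDual ℝ (XX Ω))) :
      Set (StrongDual ℝ (XX Ω))) :=
    ((W1.cnt c).image _).isSeparable.span
  refine h1.closure.mono ?_
  intro f hf
  have hf' : ∀ x, f x = f (PP c x) := hf
  have h2 : f ∈ closure ((Submodule.span ℝ (range (dl : Ω → StrongDual ℝ (XX Ω)))) :
      Set (StrongDual ℝ (XX Ω))) := mem_DD f
  rw [Metric.mem_closure_iff] at h2 ⊢
  intro ε hε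
  obtain ⟨g, hg, hg2⟩ := h2 ε hε
  refine ⟨g.comp (PP c), ?_, ?_⟩
  · have hg' : g ∈ Submodule.span ℝ (range (dl : Ω → StrongDual ℝ (XX Ω))) := hg
    change g.comp (PP c) ∈ Submodule.span ℝ (dl '' Iic c)
    clear hg hg2
    induction hg' using Submodule.span_induction with
    | mem x hx =>
      obtain ⟨t, rfl⟩ := hx
      by_cases ht : t ≤ c
      · have : (dl t).comp (PP c) = dl t := by
          ext x
          rw [ContinuousLinearMap.comp_apply, dl_ap, dl_ap, PP_ap, if_pos ht]
        rw [this]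
        exact Submodule.subset_span ⟨t, ht, rfl⟩
      · have : (dl t).comp (PP c) = 0 := by
          ext x
          rw [ContinuousLinearMap.comp_apply, dl_ap, PP_ap, if_neg ht]
          rfl
        rw [this]
        exact Submodule.zero_mem _
    | zero =>
      have : (0 : StrongDual ℝ (XX Ω)).comp (PP c) = 0 := by ext x; rfl
      rw [this]
      exact Submodule.zero_mem _
    | add x y _ _ hx hy =>
      have : (x + y).comp (PP c) = x.comp (PP c) + y.comp (PP c) := by ext z; rfl
      rw [this]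
      exact Submodule.add_mem _ hx hy
    | smul a x _ hx =>
      have : (a • x).comp (PP c) = a • x.comp (PP c) := by ext z; rfl
      rw [this]
      exact Submodule.smul_mem _ _ hx
  · rw [dist_eq_norm] at hg2 ⊢
    refine lt_of_le_of_lt ?_ hg2
    refine opNorm_le_of_unit _ _ fun x hx => ?_
    rw [sub_apply, ContinuousLinearMap.comp_apply, hf' x, ← sub_apply]
    have h3 := (f - g).le_opNorm (PP c x)
    rw [Real.norm_eq_abs] at h3
    have h4 : ‖PP c x‖ ≤ 1 := (cut_norm_le c _).trans hx
    have h5 : ‖f - g‖ * ‖PP c x‖ ≤ ‖f - g‖ * 1 := mul_le_mul_of_nonneg_left h4 (norm_nonneg _)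
    have h6 := le_abs_self ((f - g) (PP c x))
    linarith

end Pool.Agent.FrechetQ
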