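import Pool.Agent.FrechetQ.NoLUR

/-!
No equivalent norm has a rotund (strictly convex) dual norm.
-/

set_option linter.unusedSectionVars false

namespace Pool.Agent.FrechetQ

open Filter Topology Set TopologicalSpace

section

variable {Ω : Type} [LinearOrder Ω] [W1 Ω] [TopologicalSpace Ω] [DiscreteTopology Ω]

/-- the sequence `b` increases to `γ` -/
def IncTo (b : ℕ → Ω) (γ : Ω) : Prop :=
  (∀ n, b n < γ) ∧ ∀ ν, ν < γ → ∃ n0, ∀ n, n0 ≤ n → ν < b n

theorem exists_incTo (b : ℕ → Ω) (hb : StrictMono b) : ∃ γ, IncTo b γ := by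
  obtain ⟨u, hu⟩ := W1.bdd (range b) (countable_range b)
  obtain ⟨γ, hγ1, hγ2⟩ := exists_least (fun u => ∀ n, b n < u) ⟨u, fun n => hu _ ⟨n, rfl⟩⟩
  refine ⟨γ, hγ1, fun ν hν => ?_⟩
  have h1 := hγ2 ν hν
  push Not at h1
  obtain ⟨n0, hn0⟩ := h1
  exact ⟨n0 + 1, fun n hn => hn0.trans_lt (hb (show n0 < n by omega))⟩

theorem incTo_conv {b : ℕ → Ω} {γ : Ω} (h : IncTo b γ) (x : XX Ω) :
    Tendsto (fun n => x (b n)) atTop (𝓝 (x γ)) := by
  rw [Metric.tendsto_atTop]
  intro ε hε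
  obtain ⟨ν, -, hν, hν2⟩ := left_cont x γ (b 0) (h.1 0) hε
  obtain ⟨n0, hn0⟩ := h.2 ν hν
  refine ⟨n0, fun n hn => ?_⟩
  rw [Real.dist_eq]
  exact hν2 _ (hn0 n hn) (h.1 n).le

/-- lower semicontinuity of the dual norm along evaluations -/
theorem nst_lsc (N : Seminorm ℝ (XX Ω)) (c : ℝ) (hc : 0 < c) (hN : ∀ x, c * ‖x‖ ≤ N x)
    (f : StrongDual ℝ (XX Ω)) {b : ℕ → Ω} {γ : Ω} (h : IncTo b γ) {K : ℝ}
    (hK : Tendsto (fun n => nst N (f + dl (b n))) atTop (𝓝 K)) : nst N (f + dl γ) ≤ K := by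
  refine csSup_le (nst_ne N _) ?_
  rintro _ ⟨x, hx, rfl⟩
  have h1 : Tendsto (fun n => (f + dl (b n)) x) atTop (𝓝 ((f + dl γ) x)) := by
    simp only [add_apply, dl_ap]
    exact (incTo_conv h x).const_add _
  exact le_of_tendsto_of_tendsto' h1 hK fun n => le_nst N c hc hN _ x hx

theorem nst_pos (N : Seminorm ℝ (XX Ω)) (c : ℝ) (hc : 0 < c) (hN : ∀ x, c * ‖x‖ ≤ N x)
    (t : Ω) : 0 < nst N (dl t) := by
  have h1 : 1 ≤ ‖(ss t : XX Ω)‖ := by
    have := XX.abs_le (ss t) t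
    rw [ss_ap, if_pos le_rfl, abs_one] at this
    exact this
  have h2 : 0 < N (ss t) := lt_of_lt_of_le (mul_pos hc (by linarith)) (hN _)
  have h3 := le_nst N c hc hN (dl t) ((N (ss t))⁻¹ • ss t) (by
    rw [map_smul_eq_mul, norm_inv, Real.norm_eq_abs, abs_of_pos h2, inv_mul_cancel₀ h2.ne'])
  rw [dl_ap, XX.smul_ap, ss_ap, if_pos le_rfl, mul_one] at h3
  exact lt_of_lt_of_le (inv_pos.2 h2) h3

/-- two evaluations at distance in the dual ball with midpoint on the sphere -/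
theorem no_rotund_aux (N : Seminorm ℝ (XX Ω)) (c : ℝ) (hc : 0 < c) (hN : ∀ x, c * ‖x‖ ≤ N x) :
    ∃ (s t : Ω) (S : ℝ), s < t ∧ 0 < S ∧ nst N (dl s) = S ∧ nst N (dl t) = S ∧
      nst N (dl s + dl t) = 2 * S := by
  set h : Ω → ℝ := fun t => nst N (dl t) with hh
  have hbd1 : ∀ t, nst N (dl t) ≤ 1 / c := fun t =>
    (nst_le N c hc hN _).trans (div_le_div_of_nonneg_right (dl_norm t) hc.le)
  obtain ⟨S, μ, hS1, hS2⟩ := exists_stable h (fun t => nst_nonneg N c hc hN _) (1 / c) hbd1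
  -- limits of almost minimisers
  have hlim : ∀ (b : ℕ → Ω) (γ : Ω), IncTo b γ → Tendsto (fun n => h (b n)) atTop (𝓝 S) →
      h γ ≤ S := by
    intro b γ hb hT
    have h1 := nst_lsc N c hc hN 0 hb (K := S) (by simpa only [zero_add] using hT)
    rwa [zero_add] at h1
  -- the minimisers are unbounded
  have hCu : ∀ u : Ω, ∃ γ, u < γ ∧ μ < γ ∧ h γ = S := by
    intro u
    have hstep : ∀ (n : ℕ) (v : Ω), ∃ t, v < t ∧ (μ ≤ v → h t < S + 1 / ((n : ℝ) + 1)) := by
      intro n v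
      by_cases hv : μ ≤ v
      · obtain ⟨t, ht, ht2⟩ := hS2 v hv (1 / ((n : ℝ) + 1)) (by positivity)
        exact ⟨t, ht, fun _ => ht2⟩
      · exact ⟨μ, not_le.1 hv, fun h => absurd h hv⟩
    choose G hG1 hG2 using hstep
    set b : ℕ → Ω := fun n => Nat.rec (max u μ) (fun n v => G n v) n with hb
    have hb0 : b 0 = max u μ := rfl
    have hbs : ∀ n, b (n + 1) = G n (b n) := fun n => rfl
    have hblt : ∀ n, b n < b (n + 1) := fun n => by rw [hbs]; exact hG1 n _
    have hbmono : StrictMono b := strictMono_nat_of_lt_succ hblt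
    have hbμ : ∀ n, μ ≤ b n := fun n => by
      refine (le_max_right u μ).trans ?_
      rw [← hb0]; exact hbmono.monotone (Nat.zero_le n)
    have hbh : ∀ n, h (b (n + 1)) < S + 1 / ((n : ℝ) + 1) := fun n => by
      rw [hbs]; exact hG2 n _ (hbμ n)
    obtain ⟨γ, hγ⟩ := exists_incTo (fun n => b (n + 1))
      (fun i j hij => hbmono (show i + 1 < j + 1 by omega))
    have hγ0 : max u μ < γ := by rw [← hb0]; exact (hblt 0).trans (hγ.1 0)
    have hT : Tendsto (fun n => h (b (n + 1))) atTop (𝓝 S) := by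
      have h2 : Tendsto (fun n : ℕ => S + 1 / ((n : ℝ) + 1)) atTop (𝓝 (S + 0)) :=
        tendsto_const_nhds.add tendsto_one_div_add_atTop_nhds_zero_nat
      rw [add_zero] at h2
      exact tendsto_of_tendsto_of_tendsto_of_le_of_le tendsto_const_nhds h2
        (fun n => hS1 _ (lt_of_le_of_lt (hbμ n) (hblt n))) (fun n => (hbh n).le)
    refine ⟨γ, (le_max_left _ _).trans_lt hγ0, (le_max_right _ _).trans_lt hγ0, ?_⟩
    exact le_antisymm (hlim _ γ hγ hT) (hS1 γ ((le_max_right _ _).trans_lt hγ0))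
  -- pairs
  have hbd2 : ∀ s t, nst N (dl s + dl t) ≤ 2 / c := by
    intro s t
    have h1 := nst_add N c hc hN (dl s) (dl t)
    have h2 := hbd1 s
    have h3 := hbd1 t
    have h4 : 2 / c = 1 / c + 1 / c := by ring
    linarith
  have hst : ∀ s : Ω, ∃ (φ : ℝ) (m : Ω), (∀ t, m < t → φ ≤ nst N (dl s + dl t)) ∧
      ∀ u, m ≤ u → ∀ ε : ℝ, 0 < ε → ∃ t, u < t ∧ nst N (dl s + dl t) < φ + ε := fun s =>
    exists_stable (fun t => nst N (dl s + dl t)) (fun t => nst_nonneg N c hc hN _) (2 / c)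
      (fun t => hbd2 s t)
  choose φ m hφ1 hφ2 using hst
  have key : ∃ s, μ < s ∧ h s = S ∧ 2 * S ≤ φ s := by
    by_contra hcon
    push Not at hcon
    -- uniform gap on an unbounded set
    have hU : ∃ n : ℕ, ∀ u : Ω, ∃ s, u < s ∧ μ < s ∧ h s = S ∧
        φ s ≤ 2 * S - 1 / ((n : ℝ) + 1) := by
      by_contra hno
      push Not at hno
      choose u hu using hno
      obtain ⟨v, hv⟩ := W1.bdd (range u) (countable_range u)
      obtain ⟨γ, hγ1, hγ2, hγ3⟩ := hCu v
      have h1 := hcon γ hγ2 hγ3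
      obtain ⟨n, hn⟩ := exists_nat_one_div_lt (sub_pos.2 h1)
      have h2 := hu n γ ((hv _ ⟨n, rfl⟩).trans hγ1) hγ2 hγ3
      linarith
    obtain ⟨n0, hn0⟩ := hU
    set δ : ℝ := 1 / ((n0 : ℝ) + 1) with hδ
    have hδp : 0 < δ := by positivity
    -- one step: from `u` to a later `s`, with almost minimisers for all earlier points
    have hstep : ∀ (n : ℕ) (u : Ω), ∃ s, u < s ∧ μ < s ∧ h s = S ∧ φ s ≤ 2 * S - δ ∧
        ∀ r, r ≤ u → ∃ t, u < t ∧ t < s ∧ nst N (dl r + dl t) < φ r + 1 / ((n : ℝ) + 1) := by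
      intro n u
      have h1 : ∀ r : Ω, ∃ t, u < t ∧ nst N (dl r + dl t) < φ r + 1 / ((n : ℝ) + 1) := by
        intro r
        obtain ⟨t, ht, ht2⟩ := hφ2 r (max (m r) u) (le_max_left _ _) (1 / ((n : ℝ) + 1))
          (by positivity)
        exact ⟨t, (le_max_right _ _).trans_lt ht, ht2⟩
      choose T hT1 hT2 using h1
      obtain ⟨v, hv⟩ := W1.bdd (insert u (T '' Iic u)) (((W1.cnt u).image T).insert u)
      obtain ⟨s, hs1, hs2, hs3, hs4⟩ := hn0 v
      refine ⟨s, (hv u (mem_insert _ _)).trans hs1, hs2, hs3, hs4, fun r hr => ?_⟩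
      exact ⟨T r, hT1 r, (hv _ (mem_insert_of_mem _ ⟨r, hr, rfl⟩)).trans hs1, hT2 r⟩
    choose G hG1 hG2 hG3 hG4 hG5 using hstep
    set b : ℕ → Ω := fun n => Nat.rec (G 0 μ) (fun n v => G n v) n with hb
    have hb0 : b 0 = G 0 μ := rfl
    have hbs : ∀ n, b (n + 1) = G n (b n) := fun n => rfl
    have hblt : ∀ n, b n < b (n + 1) := fun n => by rw [hbs]; exact hG1 n _
    have hbmono : StrictMono b := strictMono_nat_of_lt_succ hblt
    have hbS : ∀ n, μ < b n ∧ h (b n) = S ∧ φ (b n) ≤ 2 * S - δ := by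
      intro n
      cases n with
      | zero => rw [hb0]; exact ⟨hG2 _ _, hG3 _ _, hG4 _ _⟩
      | succ n => rw [hbs]; exact ⟨hG2 _ _, hG3 _ _, hG4 _ _⟩
    obtain ⟨γ, hγ⟩ := exists_incTo b hbmono
    have hγμ : μ < γ := (hbS 0).1.trans (hγ.1 0)
    have hγS : h γ = S := le_antisymm (hlim b γ hγ (by
      simp only [fun n => (hbS n).2.1]
      exact tendsto_const_nhds)) (hS1 γ hγμ)
    -- upper bound for the pairs
    have hup : ∀ j, nst N (dl (b j) + dl γ) ≤ φ (b j) := by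
      intro j
      have h1 : ∀ k : ℕ, ∃ t, b (j + k) < t ∧ t < b (j + k + 1) ∧
          nst N (dl (b j) + dl t) < φ (b j) + 1 / (((j + k : ℕ) : ℝ) + 1) := by
        intro k
        have := hG5 (j + k) (b (j + k)) (b j) (hbmono.monotone (Nat.le_add_right j k))
        rw [← hbs] at this
        exact this
      choose T hT1 hT2 hT3 using h1
      have hTγ : IncTo T γ := by
        refine ⟨fun k => (hT2 k).trans (hγ.1 (j + k + 1)), fun ν hν => ?_⟩
        obtain ⟨n1, hn1⟩ := hγ.2 ν hν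
        exact ⟨n1, fun k hk => (hn1 (j + k) (by omega)).trans (hT1 k)⟩
      refine le_of_forall_pos_le_add fun ε hε => ?_
      -- pass to a convergent value: use bounds directly
      refine csSup_le (nst_ne N _) ?_
      rintro _ ⟨x, hx, rfl⟩
      have h2 : Tendsto (fun k => (dl (b j) + dl (T k)) x) atTop (𝓝 ((dl (b j) + dl γ) x)) := by
        simp only [add_apply, dl_ap]
        exact (incTo_conv hTγ x).const_add _
      have h3 : Tendsto (fun k : ℕ => φ (b j) + 1 / (((j + k : ℕ) : ℝ) + 1)) atTop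
          (𝓝 (φ (b j) + 0)) := by
        refine tendsto_const_nhds.add ?_
        have h4 := (tendsto_one_div_add_atTop_nhds_zero_nat (𝕜 := ℝ)).comp
          (tendsto_add_atTop_nat j)
        refine h4.congr fun k => ?_
        simp only [Function.comp]
        rw [add_comm k j]
      have h4 := le_of_tendsto_of_tendsto' h2 h3 fun k =>
        (le_nst N c hc hN _ x hx).trans (hT3 k).le
      rw [add_zero] at h4
      linarith
    -- lower bound
    have h3 : S - δ / 4 < nst N (dl γ) := by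
      have : nst N (dl γ) = S := hγS
      linarith
    obtain ⟨_, ⟨x, hx, rfl⟩, hx2⟩ := exists_lt_of_lt_csSup (nst_ne N (dl γ)) h3
    have hx2' : S - δ / 4 < x γ := hx2
    have h4 : ∀ᶠ n in atTop, x γ - δ / 4 < x (b n) :=
      (incTo_conv hγ x).eventually (lt_mem_nhds (by linarith))
    obtain ⟨j, hj⟩ := h4.exists
    have h5 := le_nst N c hc hN (dl (b j) + dl γ) x hx
    rw [add_apply, dl_ap, dl_ap] at h5
    have h6 := hup j
    have h7 := (hbS j).2.2
    linarith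
  obtain ⟨s, hs1, hs2, hs3⟩ := key
  obtain ⟨t, ht1, ht2, ht3⟩ := hCu (max s (m s))
  have hst : s < t := (le_max_left _ _).trans_lt ht1
  refine ⟨s, t, S, hst, ?_, hs2, ht3, le_antisymm ?_ ?_⟩
  · rw [← hs2]; exact nst_pos N c hc hN s
  · have h1 := nst_add N c hc hN (dl s) (dl t)
    have h2 : nst N (dl s) = S := hs2
    have h3 : nst N (dl t) = S := ht3
    linarith
  · exact hs3.trans (hφ1 s t ((le_max_right _ _).trans_lt ht1))

theorem dl_ne {s t : Ω} (h : s < t) : (dl s : StrongDual ℝ (XX Ω)) ≠ dl t := by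
  intro he
  have h1 : (dl s : StrongDual ℝ (XX Ω)) (ss s) = dl t (ss s) := by rw [he]
  rw [dl_ap, dl_ap, ss_ap, ss_ap, if_pos le_rfl, if_neg (not_le.2 h)] at h1
  exact one_ne_zero h1

end

end Pool.Agent.FrechetQ
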