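import Mathlib

/-!
The space of continuous functions vanishing at infinity on the first uncountable ordinal, realised
as a closed span of step functions inside the bounded functions.
-/

set_option linter.unusedSectionVars false

namespace Pool.Agent.FrechetQ

open Filter Topology Set TopologicalSpace BoundedContinuousFunction

/-- A well-ordered set whose initial segments are countable and whose countable subsets are
bounded. -/
class W1 (Ω : Type) [LinearOrder Ω] : Prop where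
  wf : WellFoundedLT Ω
  cnt : ∀ a : Ω, (Set.Iic a).Countable
  bdd : ∀ S : Set Ω, S.Countable → ∃ b, ∀ a ∈ S, a < b

variable (Ω : Type) [LinearOrder Ω] [W1 Ω] [TopologicalSpace Ω] [DiscreteTopology Ω]

variable {Ω} in
/-- step function -/
noncomputable def st (b : Ω) : Ω →ᵇ ℝ :=
  ofNormedAddCommGroupDiscrete (fun t => if t ≤ b then (1 : ℝ) else 0) 1
    (fun t => by split_ifs <;> simp)

variable {Ω} in
theorem st_apply (b t : Ω) : st b t = if t ≤ b then (1 : ℝ) else 0 := rfl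

variable {Ω} in
/-- cut to an initial segment -/
noncomputable def cut (b : Ω) (f : Ω →ᵇ ℝ) : Ω →ᵇ ℝ :=
  ofNormedAddCommGroupDiscrete (fun t => if t ≤ b then f t else 0) ‖f‖
    (fun t => by
      split_ifs
      · exact f.norm_coe_le_norm t
      · simp)

variable {Ω} in
theorem cut_apply (b : Ω) (f : Ω →ᵇ ℝ) (t : Ω) : cut b f t = if t ≤ b then f t else 0 := rfl

/-- the underlying subspace -/
noncomputable def Xs : Submodule ℝ (Ω →ᵇ ℝ) :=
  (Submodule.span ℝ (range (st : Ω → Ω →ᵇ ℝ))).topologicalClosure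

/-- the Banach space -/
def XX : Type := ↥(Xs Ω)

noncomputable instance : NormedAddCommGroup (XX Ω) := inferInstanceAs (NormedAddCommGroup ↥(Xs Ω))
noncomputable instance : NormedSpace ℝ (XX Ω) := inferInstanceAs (NormedSpace ℝ ↥(Xs Ω))
instance : CompleteSpace (XX Ω) :=
  (Submodule.isClosed_topologicalClosure
    (Submodule.span ℝ (range (st : Ω → Ω →ᵇ ℝ)))).completeSpace_coe

variable {Ω}

/-- the value of an element at a point -/
def ev (x : XX Ω) (t : Ω) : ℝ := (x.1 : Ω →ᵇ ℝ) t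

instance : CoeFun (XX Ω) fun _ => Ω → ℝ := ⟨ev⟩

namespace XX

theorem ext' {x y : XX Ω} (h : ∀ t, x t = y t) : x = y :=
  Subtype.ext (BoundedContinuousFunction.ext h)

@[simp] theorem add_ap (x y : XX Ω) (t : Ω) : (x + y) t = x t + y t := rfl
@[simp] theorem sub_ap (x y : XX Ω) (t : Ω) : (x - y) t = x t - y t := rfl
@[simp] theorem neg_ap (x : XX Ω) (t : Ω) : (-x) t = -x t := rfl
@[simp] theorem zero_ap (t : Ω) : (0 : XX Ω) t = 0 := rfl
@[simp] theorem smul_ap (c : ℝ) (x : XX Ω) (t : Ω) : (c • x) t = c * x t := rfl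

theorem abs_le (x : XX Ω) (t : Ω) : |x t| ≤ ‖x‖ := (x.1 : Ω →ᵇ ℝ).norm_coe_le_norm t

theorem norm_le {x : XX Ω} {C : ℝ} (hC : 0 ≤ C) (h : ∀ t, |x t| ≤ C) : ‖x‖ ≤ C :=
  (BoundedContinuousFunction.norm_le hC).2 h

end XX

theorem cut_st (b c : Ω) : cut b (st c) = st (min b c) := by
  ext t
  rw [cut_apply, st_apply, st_apply]
  by_cases h1 : t ≤ b <;> by_cases h2 : t ≤ c <;> simp [h1, h2]

theorem cut_add (b : Ω) (f g : Ω →ᵇ ℝ) : cut b (f + g) = cut b f + cut b g := by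
  ext t
  simp only [cut_apply, BoundedContinuousFunction.add_apply]
  split_ifs <;> simp

theorem cut_smul (b : Ω) (c : ℝ) (f : Ω →ᵇ ℝ) : cut b (c • f) = c • cut b f := by
  ext t
  simp only [cut_apply, BoundedContinuousFunction.smul_apply, smul_eq_mul]
  split_ifs <;> simp

theorem cut_zero (b : Ω) : cut b (0 : Ω →ᵇ ℝ) = 0 := by
  ext t
  simp [cut_apply]

theorem cut_norm_le (b : Ω) (f : Ω →ᵇ ℝ) : ‖cut b f‖ ≤ ‖f‖ := by
  refine (BoundedContinuousFunction.norm_le (norm_nonneg _)).2 fun t => ?_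
  rw [cut_apply]
  split_ifs
  · exact f.norm_coe_le_norm t
  · simp

theorem cut_span (b : Ω) (f : Ω →ᵇ ℝ) (hf : f ∈ Submodule.span ℝ (range (st : Ω → Ω →ᵇ ℝ))) :
    cut b f ∈ Submodule.span ℝ (st '' Iic b) := by
  induction hf using Submodule.span_induction with
  | mem x hx =>
    obtain ⟨c, rfl⟩ := hx
    rw [cut_st]
    exact Submodule.subset_span ⟨min b c, min_le_left _ _, rfl⟩
  | zero => rw [cut_zero]; exact Submodule.zero_mem _
  | add x y _ _ hx hy => rw [cut_add]; exact Submodule.add_mem _ hx hy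
  | smul a x _ hx => rw [cut_smul]; exact Submodule.smul_mem _ _ hx

theorem XX_approx (x : XX Ω) {ε : ℝ} (hε : 0 < ε) :
    ∃ f ∈ Submodule.span ℝ (range (st : Ω → Ω →ᵇ ℝ)), ‖(x.1 : Ω →ᵇ ℝ) - f‖ < ε := by
  have h1 : (x.1 : Ω →ᵇ ℝ) ∈ closure (Submodule.span ℝ (range (st : Ω → Ω →ᵇ ℝ)) : Set (Ω →ᵇ ℝ)) :=
    x.2
  obtain ⟨f, hf, hf2⟩ := Metric.mem_closure_iff.1 h1 ε hε
  exact ⟨f, hf, by rwa [dist_eq_norm] at hf2⟩

theorem cut_mem (b : Ω) (x : XX Ω) :
    cut b (x.1 : Ω →ᵇ ℝ) ∈ (Submodule.span ℝ (st '' Iic b)).topologicalClosure := by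
  change cut b (x.1 : Ω →ᵇ ℝ) ∈ closure (Submodule.span ℝ (st '' Iic b) : Set (Ω →ᵇ ℝ))
  rw [Metric.mem_closure_iff]
  intro ε hε
  obtain ⟨f, hf, hf2⟩ := XX_approx x hε
  refine ⟨cut b f, cut_span b f hf, ?_⟩
  rw [dist_eq_norm]
  have h1 : cut b (x.1 : Ω →ᵇ ℝ) - cut b f = cut b ((x.1 : Ω →ᵇ ℝ) - f) := by
    ext t
    simp only [cut_apply, BoundedContinuousFunction.sub_apply]
    split_ifs <;> simp
  rw [h1]
  exact (cut_norm_le _ _).trans_lt hf2

theorem cut_mem' (b : Ω) (x : XX Ω) : cut b (x.1 : Ω →ᵇ ℝ) ∈ Xs Ω :=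
  Submodule.topologicalClosure_mono (Submodule.span_mono (image_subset_range _ _)) (cut_mem b x)

/-- step functions as elements of the space -/
noncomputable def ss (b : Ω) : XX Ω :=
  ⟨st b, Submodule.le_topologicalClosure _ (Submodule.subset_span ⟨b, rfl⟩)⟩

theorem ss_ap (b t : Ω) : ss b t = if t ≤ b then (1 : ℝ) else 0 := rfl

/-- projection onto an initial segment -/
noncomputable def PP (b : Ω) : XX Ω →L[ℝ] XX Ω :=
  LinearMap.mkContinuous
    { toFun := fun x => (⟨cut b (x.1 : Ω →ᵇ ℝ), cut_mem' b x⟩ : XX Ω)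
      map_add' := fun x y => Subtype.ext (cut_add b _ _)
      map_smul' := fun c x => Subtype.ext (cut_smul b c _) } 1
    (fun x => by rw [one_mul]; exact cut_norm_le b _)

theorem PP_ap (b : Ω) (x : XX Ω) (t : Ω) : PP b x t = if t ≤ b then x t else 0 := rfl

theorem PP_ss (b c : Ω) : PP b (ss c) = ss (min b c) := Subtype.ext (cut_st b c)

theorem PP_dense (b : Ω) (x : XX Ω) :
    PP b x ∈ closure (Submodule.span ℝ (ss '' Iic b) : Set (XX Ω)) := by
  rw [Metric.mem_closure_iff]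
  intro ε hε
  have h1 := cut_mem b x
  change cut b (x.1 : Ω →ᵇ ℝ) ∈ closure (Submodule.span ℝ (st '' Iic b) : Set (Ω →ᵇ ℝ)) at h1
  obtain ⟨f, hf, hf2⟩ := Metric.mem_closure_iff.1 h1 ε hε
  have h2 : ∀ g ∈ Submodule.span ℝ (st '' Iic b : Set (Ω →ᵇ ℝ)),
      ∃ y ∈ (Submodule.span ℝ (ss '' Iic b) : Submodule ℝ (XX Ω)), (y.1 : Ω →ᵇ ℝ) = g := by
    intro g hg
    induction hg using Submodule.span_induction with
    | mem x hx =>
      obtain ⟨c, hc, rfl⟩ := hx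
      exact ⟨ss c, Submodule.subset_span ⟨c, hc, rfl⟩, rfl⟩
    | zero => exact ⟨0, Submodule.zero_mem _, rfl⟩
    | add x y _ _ hx hy =>
      obtain ⟨u, hu, rfl⟩ := hx
      obtain ⟨v, hv, rfl⟩ := hy
      exact ⟨u + v, Submodule.add_mem _ hu hv, rfl⟩
    | smul a x _ hx =>
      obtain ⟨u, hu, rfl⟩ := hx
      exact ⟨a • u, Submodule.smul_mem _ _ hu, rfl⟩
  obtain ⟨y, hy, rfl⟩ := h2 f hf
  exact ⟨y, hy, hf2⟩

theorem left_const (f : Ω →ᵇ ℝ) (hf : f ∈ Submodule.span ℝ (range (st : Ω → Ω →ᵇ ℝ)))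
    (l μ0 : Ω) (h0 : μ0 < l) : ∃ μ, μ < l ∧ ∀ t, μ < t → t ≤ l → f t = f l := by
  induction hf using Submodule.span_induction with
  | mem x hx =>
    obtain ⟨b, rfl⟩ := hx
    rcases le_or_gt l b with h | h
    · exact ⟨μ0, h0, fun t _ ht => by rw [st_apply, st_apply, if_pos (ht.trans h), if_pos h]⟩
    · exact ⟨b, h, fun t ht _ => by
        rw [st_apply, st_apply, if_neg (not_le.2 ht), if_neg (not_le.2 h)]⟩
  | zero => exact ⟨μ0, h0, fun t _ _ => rfl⟩
  | add x y _ _ hx hy =>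
    obtain ⟨μ1, h1, h1'⟩ := hx
    obtain ⟨μ2, h2, h2'⟩ := hy
    refine ⟨max μ1 μ2, max_lt h1 h2, fun t ht htl => ?_⟩
    rw [BoundedContinuousFunction.add_apply, BoundedContinuousFunction.add_apply,
      h1' t ((le_max_left _ _).trans_lt ht) htl, h2' t ((le_max_right _ _).trans_lt ht) htl]
  | smul a x _ hx =>
    obtain ⟨μ1, h1, h1'⟩ := hx
    refine ⟨μ1, h1, fun t ht htl => ?_⟩
    rw [BoundedContinuousFunction.smul_apply, BoundedContinuousFunction.smul_apply, h1' t ht htl]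

/-- continuity from the left -/
theorem left_cont (x : XX Ω) (l μ0 : Ω) (h0 : μ0 < l) {ε : ℝ} (hε : 0 < ε) :
    ∃ μ, μ0 ≤ μ ∧ μ < l ∧ ∀ t, μ < t → t ≤ l → |x t - x l| < ε := by
  obtain ⟨f, hf, hf2⟩ := XX_approx x (half_pos hε)
  obtain ⟨μ, h1, h2⟩ := left_const f hf l μ0 h0
  refine ⟨max μ μ0, le_max_right _ _, max_lt h1 h0, fun t ht htl => ?_⟩
  have h3 := h2 t ((le_max_left _ _).trans_lt ht) htl
  have h4 : ∀ u, |x u - f u| < ε / 2 := fun u =>
    (((x.1 : Ω →ᵇ ℝ) - f).norm_coe_le_norm u).trans_lt hf2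
  have h5 : x t - x l = (x t - f t) - (x l - f l) := by rw [h3]; ring
  rw [h5]
  calc |(x t - f t) - (x l - f l)| ≤ |x t - f t| + |x l - f l| := abs_sub _ _
    _ < ε := by have := h4 t; have := h4 l; linarith

theorem span_zero (f : Ω →ᵇ ℝ) (hf : f ∈ Submodule.span ℝ (range (st : Ω → Ω →ᵇ ℝ))) :
    ∃ b, ∀ t, b < t → f t = 0 := by
  induction hf using Submodule.span_induction with
  | mem x hx =>
    obtain ⟨b, rfl⟩ := hx
    exact ⟨b, fun t ht => by rw [st_apply, if_neg (not_le.2 ht)]⟩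
  | zero =>
    obtain ⟨b, -⟩ := W1.bdd (∅ : Set Ω) countable_empty
    exact ⟨b, fun t _ => rfl⟩
  | add x y _ _ hx hy =>
    obtain ⟨b1, h1⟩ := hx
    obtain ⟨b2, h2⟩ := hy
    refine ⟨max b1 b2, fun t ht => ?_⟩
    rw [BoundedContinuousFunction.add_apply, h1 t ((le_max_left _ _).trans_lt ht),
      h2 t ((le_max_right _ _).trans_lt ht), add_zero]
  | smul a x _ hx =>
    obtain ⟨b1, h1⟩ := hx
    refine ⟨b1, fun t ht => ?_⟩
    rw [BoundedContinuousFunction.smul_apply, h1 t ht, smul_zero]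

/-- elements vanish eventually -/
theorem ev_zero (x : XX Ω) : ∃ b, ∀ t, b < t → x t = 0 := by
  have h1 : ∀ n : ℕ, ∃ f : Ω →ᵇ ℝ, ∃ b : Ω, (∀ t, b < t → f t = 0) ∧
      ‖(x.1 : Ω →ᵇ ℝ) - f‖ < 1 / ((n : ℝ) + 1) := by
    intro n
    obtain ⟨f, hf, hf2⟩ := XX_approx x (show (0 : ℝ) < 1 / ((n : ℝ) + 1) by positivity)
    obtain ⟨b, hb⟩ := span_zero f hf
    exact ⟨f, b, hb, hf2⟩
  choose f b hb hf using h1
  obtain ⟨c, hc⟩ := W1.bdd (range b) (countable_range b)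
  refine ⟨c, fun t ht => ?_⟩
  by_contra hx
  obtain ⟨n, hn⟩ := exists_nat_one_div_lt (abs_pos.2 hx)
  have h2 := (((x.1 : Ω →ᵇ ℝ) - f n).norm_coe_le_norm t).trans_lt (hf n)
  rw [BoundedContinuousFunction.sub_apply, hb n t ((hc _ ⟨n, rfl⟩).trans ht), sub_zero,
    Real.norm_eq_abs] at h2
  exact lt_asymm h2 hn

end Pool.Agent.FrechetQ
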